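import Pool.Agent.Y720.WL.Cy

/-!
# Double covers of products of projective lines with trivial canonical class, II (helper720)
-/

set_option autoImplicit false
set_option linter.unusedVariables false
set_option linter.unusedSectionVars false

open WeierstrassCurve Filter Topology

namespace Pool.Agent.Y720.MZ

section map

variable {K : Type*} [Field K] [CharZero K] {L : Type*} [Field L] [CharZero L]

/-- torsion of the image of a point -/
lemma pt_map0 [DecidableEq K] [DecidableEq L] [Algebra K L] {W' : WeierstrassCurve K} {x y : K}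
    {W₁ : WeierstrassCurve K} (hW₁ : W₁ = W'.baseChange K) (h : W₁.toAffine.Nonsingular x y)
    {W₂ : WeierstrassCurve L} (hW₂ : W₂ = W'.baseChange L)
    (h₂ : W₂.toAffine.Nonsingular (algebraMap K L x) (algebraMap K L y)) (n : ℕ)
    (h0 : n • (.some _ _ h₂ : W₂.toAffine.Point) = 0) :
    n • (.some _ _ h : W₁.toAffine.Point) = 0 := by
  subst hW₁ hW₂
  have h1 := Affine.Point.map_injective (W' := W') (F := K) (K := L) (Algebra.ofId K L)
  apply h1
  rw [map_nsmul, _root_.map_zero]
  exact h0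

/-- torsion of the image of a point -/
lemma pt_map [DecidableEq K] [DecidableEq L] (φ : K →+* L) {a b c x y : K}
    (h : (cv a b c).toAffine.Nonsingular x y) (W : WeierstrassCurve L)
    (hW : W = (cv a b c).map φ) (h₂ : W.toAffine.Nonsingular (φ x) (φ y)) (n : ℕ)
    (h0 : n • (.some _ _ h₂ : W.toAffine.Point) = 0) : n • (.some _ _ h : Pt a b c) = 0 := by
  letI := φ.toAlgebra
  refine pt_map0 (L := L) (W' := cv a b c) (W₁ := cv a b c) ?_ h (W₂ := W) ?_ h₂ n h0
  · exact (WeierstrassCurve.map_id _).symm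
  · exact hW

/-- infinite order is preserved by embeddings of fields -/
lemma io_map (φ : K →+* L) {θ : K × (Fin 4 → K)} (h : IOt θ) :
    IOt (φ θ.1, fun j => φ (θ.2 j)) := by
  classical
  have eA : tA (φ θ.1, fun j => φ (θ.2 j)) = φ (tA θ) := rfl
  have eB : tB (φ θ.1, fun j => φ (θ.2 j)) = φ (tB θ) := by
    simp only [tB, rb, map_sub, map_mul, map_pow, map_ofNat]
  have eC : tC (φ θ.1, fun j => φ (θ.2 j)) = φ (tC θ) := by
    simp only [tC, rc, map_sub, map_add, map_mul, map_pow, map_ofNat]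
  have eX : tX (φ θ.1, fun j => φ (θ.2 j)) = φ (tX θ) := by
    simp only [tX, xs, map_sub, map_div₀, map_mul, map_pow, map_ofNat]
  have eY : tY (φ θ.1, fun j => φ (θ.2 j)) = φ (tY θ) := by
    simp only [tY, ys, xs, map_sub, map_add, map_div₀, map_mul, map_pow, map_ofNat]
  obtain ⟨h1, h2⟩ := h
  constructor
  · rw [eA, eB, eC]
    have e : dsc (φ (tA θ)) (φ (tB θ)) (φ (tC θ)) = φ (dsc (tA θ) (tB θ) (tC θ)) := by
      simp only [dsc, map_sub, map_add, map_mul, map_pow, map_ofNat]
    rw [e]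
    exact (map_ne_zero φ).2 h1
  · rw [eA, eB, eC, eX, eY]
    intro h3 n hn h0
    have h4 : (cv (tA θ) (tB θ) (tC θ)).toAffine.Nonsingular (tX θ) (tY θ) := by
      rw [cv_ns] at h3 ⊢
      constructor
      · apply φ.injective
        simpa only [map_add, map_mul, map_pow] using h3.1
      · rcases h3.2 with h5 | h5
        · left
          intro h6
          apply h5
          have := congrArg φ h6
          simpa only [map_add, map_mul, map_pow, map_ofNat, map_zero] using this
        · right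
          intro h6
          apply h5
          have := congrArg φ h6
          simpa only [map_mul, map_ofNat, map_zero] using this
    apply h2 h4 n hn
    refine @pt_map K _ _ L _ _ (Classical.decEq K) (Classical.decEq L) φ _ _ _ _ _ h4
      (cv (φ (tA θ)) (φ (tB θ)) (φ (tC θ))) ?_ h3 n h0
    simp [cv, WeierstrassCurve.map]

lemma th_map {α : Type*} [Fintype α] (φ : K →+* L) (f : MvPolynomial α K) (e z : α → K) (w : K) :
    th (MvPolynomial.map φ f) (fun a => φ (e a)) (fun a => φ (z a)) (φ w) =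
      (φ (th f e z w).1, fun j => φ ((th f e z w).2 j)) := by
  unfold th
  ext1
  · rfl
  · funext j
    change cq _ _ _ j = φ (cq f z e j)
    simp only [cq, ← rst_map, Polynomial.coeff_map]

end map

section main

variable {K : Type*} [Field K] [CharZero K] {V : Type*} [Finite V] {L : V → Type*}
  [∀ v, NontriviallyNormedField (L v)] [∀ v, CompleteSpace (L v)] [∀ v, CharZero (L v)]
  {s : ∀ v, K →+* L v} {α : Type*} [Fintype α] [DecidableEq α]

lemma single_mapα (v : V) (b : α) :
    (fun a => s v ((Pi.single b 1 : α → K) a)) = Pi.single b 1 := by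
  funext a
  by_cases h : a = b
  · subst h; simp
  · rw [Pi.single_eq_of_ne h, Pi.single_eq_of_ne h, map_zero]

/-- the closure is open at a point where one direction moves -/
theorem cy_int (HWs : HW s) {f : MvPolynomial α K} (hd : ∀ j, f.degreeOf j ≤ 4)
    {x₀ : ∀ v, α → L v} {y₀ : ∀ v, L v}
    (hP : ∀ v, onX (MvPolynomial.map (s v) f) (x₀ v) (y₀ v))
    (hN : ∀ v, MvPolynomial.eval (x₀ v) (MvPolynomial.map (s v) (NK f)) ≠ 0) {a : α}
    (ha : MvL s f (Pi.single a 1) x₀ y₀) : IntL s f x₀ y₀ := by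
  have hw : ∀ v, y₀ v ≠ 0 := by
    intro v h0
    apply (NK_spec hd (s v) (hN v)).1
    rw [← (show (y₀ v) ^ 2 = _ from hP v), h0, zero_pow two_ne_zero]
  refine int_of_mvL hP hw fun j => ?_
  by_cases h : j = a
  · subst h; exact ha
  · refine mv_transferL HWs hP hw ha (fun z => deg_rst (hd j) z) fun v => ?_
    rw [single_mapα, single_mapα]
    exact (NK_spec hd (s v) (hN v)).2.2 a j (Ne.symm h)

end main

section places

variable {K : Type*} [Field K] [CharZero K] {ι : Type*} [Finite ι] {p : ι → ℕ}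
  [hp : ∀ i, Fact (p i).Prime] {α : Type*} [Fintype α] [DecidableEq α]

/-- p-adic places -/
theorem cy_p [Nonempty ι] (hinj : Function.Injective p) (σ : ∀ i, K →+* ℚ_[p i])
    {f : MvPolynomial α K} (hd : ∀ j, f.degreeOf j ≤ 4)
    {x₀ : ∀ i, α → ℚ_[p i]} {y₀ : ∀ i, ℚ_[p i]}
    (hP : ∀ i, onX (MvPolynomial.map (σ i) f) (x₀ i) (y₀ i))
    (hN : ∀ i, MvPolynomial.eval (x₀ i) (MvPolynomial.map (σ i) (NK f)) ≠ 0) {a : α}
    (h : ∀ i, IOt (th (MvPolynomial.map (σ i) f) (Pi.single a 1) (x₀ i) (y₀ i))) :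
    IntL σ f x₀ y₀ := by
  have hw : ∀ v, y₀ v ≠ 0 := by
    intro v h0
    apply (NK_spec hd (σ v) (hN v)).1
    rw [← (show (y₀ v) ^ 2 = _ from hP v), h0, zero_pow two_ne_zero]
  exact cy_int (hw_p hinj σ) hd hP hN
    (mv_ioL (hw_p hinj σ) (fun z => deg_rst (hd a) z) hw fun i => by
      rw [single_mapα]; exact h i)

/-- the real place, without condition on the order, and p-adic places -/
theorem cy_r [Nonempty ι] (hinj : Function.Injective p) (σ : ∀ i, K →+* ℚ_[p i]) (τ : K →+* ℝ)
    {f : MvPolynomial α K} (hd : ∀ j, f.degreeOf j ≤ 4)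
    {x₀ : ∀ v, α → Lv p v} {y₀ : ∀ v, Lv p v}
    (hP : ∀ v, onX (MvPolynomial.map (sv σ τ v) f) (x₀ v) (y₀ v))
    (hN : ∀ v, MvPolynomial.eval (x₀ v) (MvPolynomial.map (sv σ τ v) (NK f)) ≠ 0) {a : α}
    (h : ∀ i, IOt (th (MvPolynomial.map (sv σ τ (some i)) f) (Pi.single a 1)
      (x₀ (some i)) (y₀ (some i)))) :
    IntL (sv σ τ) f x₀ y₀ := by
  have hw : ∀ v, y₀ v ≠ 0 := by
    intro v h0
    apply (NK_spec hd (sv σ τ v) (hN v)).1
    rw [← (show (y₀ v) ^ 2 = _ from hP v), h0, zero_pow two_ne_zero]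
  refine cy_int (hw_all hinj σ τ) hd hP hN
    (mv_ior hinj (fun z => deg_rst (hd a) z) hP hw ?_ fun i => ?_)
  · rw [single_mapα]
    exact (NK_spec hd (sv σ τ none) (hN none)).2.1 a
  · rw [single_mapα]
    exact h i

end places

end Pool.Agent.Y720.MZ
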