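import Pool.Agent.Y720.WL.Sat

/-!
# Conic bundles: the good points of the base (helper720)
-/

set_option autoImplicit false
set_option linter.unusedVariables false
set_option linter.unusedSectionVars false

open Filter Topology

namespace Pool.Agent.Y720.MZ

section pol

variable {F : Type*} [Field F] [CharZero F] {α : Type*} [Fintype α]

/-- the discriminant of the resolvent as a polynomial -/
noncomputable def TqP (f : MvPolynomial α F) (e : α → F) : MvPolynomial α F :=
  dsc (gk f e 2) (gk f e 1 * gk f e 3 - 4 * f * gk f e 4)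
    (gk f e 1 ^ 2 * gk f e 4 + f * gk f e 3 ^ 2 - 4 * f * gk f e 2 * gk f e 4)

lemma TqP_eval (f : MvPolynomial α F) (e z : α → F) : MvPolynomial.eval z (TqP f e) = Tq f e z := by
  simp only [TqP, dsc, Tq, map_sub, map_add, map_mul, map_pow, map_ofNat, gk_eval, cq]
  rfl

lemma gk_map {S : Type*} [Field S] [CharZero S] (φ : F →+* S) (f : MvPolynomial α F) (e : α → F)
    (k : ℕ) : MvPolynomial.map φ (gk f e k) = gk (MvPolynomial.map φ f) (fun a => φ (e a)) k := by
  have h : Polynomial.map (MvPolynomial.map φ) (MvPolynomial.aeval (fun i =>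
      Polynomial.C (MvPolynomial.X i) + Polynomial.C (MvPolynomial.C (e i)) * Polynomial.X) f :
      Polynomial (MvPolynomial α F)) = MvPolynomial.aeval (fun i =>
      Polynomial.C (MvPolynomial.X i) + Polynomial.C (MvPolynomial.C (φ (e i))) * Polynomial.X)
      (MvPolynomial.map φ f) := by
    induction f using MvPolynomial.induction_on with
    | C a =>
      rw [MvPolynomial.map_C, MvPolynomial.aeval_C, MvPolynomial.aeval_C]
      change Polynomial.map (MvPolynomial.map φ) (Polynomial.C (MvPolynomial.C a)) =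
        Polynomial.C (MvPolynomial.C (φ a))
      rw [Polynomial.map_C, MvPolynomial.map_C]
    | add p q hp hq => rw [map_add, Polynomial.map_add, hp, hq, map_add, map_add]
    | mul_X p i hp =>
      rw [map_mul, Polynomial.map_mul, hp, map_mul, map_mul, MvPolynomial.aeval_X,
        MvPolynomial.map_X, MvPolynomial.aeval_X]
      simp
  rw [gk, gk, ← h, Polynomial.coeff_map]

lemma TqP_map {S : Type*} [Field S] [CharZero S] (φ : F →+* S) (f : MvPolynomial α F)
    (e : α → F) : MvPolynomial.map φ (TqP f e) = TqP (MvPolynomial.map φ f) (fun a => φ (e a)) := by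
  simp only [TqP, dsc, map_sub, map_add, map_mul, map_pow, map_ofNat, gk_map]

end pol

section opt

variable {F : Type*} [Field F] {α : Type*}

/-- the leading coefficient with respect to the first variable -/
noncomputable def ldc (G : MvPolynomial (Option α) F) : MvPolynomial α F :=
  (MvPolynomial.optionEquivLeft F α G).leadingCoeff

lemma ldc_ne {G : MvPolynomial (Option α) F} (h : G ≠ 0) : ldc G ≠ 0 := by
  rw [ldc, Ne, Polynomial.leadingCoeff_eq_zero]
  intro h0
  exact h ((MvPolynomial.optionEquivLeft F α).injective (by rw [h0, map_zero]))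

lemma ldc_ex {S : Type*} [Field S] [Infinite S] (φ : F →+* S) (G : MvPolynomial (Option α) F)
    {z : α → S} (h : MvPolynomial.eval z (MvPolynomial.map φ (ldc G)) ≠ 0) :
    ∃ y : S, MvPolynomial.eval (po y z) (MvPolynomial.map φ G) ≠ 0 := by
  set P := MvPolynomial.optionEquivLeft F α G with hP
  set ψ : MvPolynomial α F →+* S := (MvPolynomial.eval z).comp (MvPolynomial.map φ) with hψ
  have h1 : P.map ψ ≠ 0 := by
    intro h0
    apply h
    change ψ P.leadingCoeff = 0
    rw [Polynomial.leadingCoeff, ← Polynomial.coeff_map, h0, Polynomial.coeff_zero]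
  obtain ⟨y, hy⟩ : ∃ y : S, (P.map ψ).eval y ≠ 0 := by
    by_contra hcon
    push Not at hcon
    exact h1 (Polynomial.funext fun y => by rw [hcon y, Polynomial.eval_zero])
  refine ⟨y, ?_⟩
  have h2 : (P.map ψ).eval y = MvPolynomial.eval (po y z) (MvPolynomial.map φ G) := by
    rw [hP]
    clear h h1 hy hP P
    induction G using MvPolynomial.induction_on with
    | C a =>
      rw [MvPolynomial.optionEquivLeft_C, Polynomial.map_C, Polynomial.eval_C, hψ,
        MvPolynomial.map_C, MvPolynomial.eval_C]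
      simp
    | add p q hp hq => rw [map_add, Polynomial.map_add, Polynomial.eval_add, hp, hq, map_add,
        map_add]
    | mul_X p i hp =>
      rw [map_mul, Polynomial.map_mul, Polynomial.eval_mul, hp, map_mul, map_mul,
        MvPolynomial.map_X, MvPolynomial.eval_X]
      congr 1
      rcases i with _ | i
      · simp [MvPolynomial.optionEquivLeft_X_none]
      · simp [MvPolynomial.optionEquivLeft_X_some, hψ]
  rw [← h2]
  exact hy

end opt

section conic

variable {K : Type*} [Field K] [CharZero K] {α : Type*} [Fintype α] [DecidableEq α]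

open Classical in
/-- the factor of the bad divisor which belongs to one variable -/
noncomputable def Nj (A B C : MvPolynomial α K) (j : α) : MvPolynomial α K :=
  if A.degreeOf j ≤ 2 ∧ B.degreeOf j ≤ 2 ∧ C.degreeOf j ≤ 2 then 1 else
    (if A * MvPolynomial.pderiv j B ≠ B * MvPolynomial.pderiv j A then
      A * MvPolynomial.pderiv j B - B * MvPolynomial.pderiv j A else
      A * MvPolynomial.pderiv j C - C * MvPolynomial.pderiv j A) *
    ldc (TqP (cb A B C) (Pi.single (some j) 1))

/-- the bad divisor -/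
noncomputable def NN (A B C : MvPolynomial α K) : MvPolynomial α K :=
  A * (B ^ 2 - 4 * A * C) * ∏ j, Nj A B C j

/-- the generic condition in the direction of a variable -/
def Gn (A B C : MvPolynomial α K) (j : α) : Prop :=
  (A.degreeOf j ≤ 2 ∧ B.degreeOf j ≤ 2 ∧ C.degreeOf j ≤ 2) ∨
    ((A * MvPolynomial.pderiv j B ≠ B * MvPolynomial.pderiv j A ∨
      A * MvPolynomial.pderiv j C ≠ C * MvPolynomial.pderiv j A) ∧
      ∃ (z : α → K) (y : K), (rst (cb A B C) (po y z) (Pi.single (some j) 1)).Separable ∧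
        3 ≤ (rst (cb A B C) (po y z) (Pi.single (some j) 1)).natDegree)

lemma NN_ne {A B C : MvPolynomial α K}
    (hd : ∀ j, A.degreeOf j ≤ 4 ∧ B.degreeOf j ≤ 4 ∧ C.degreeOf j ≤ 4)
    (hA : A ≠ 0) (hD : B ^ 2 - 4 * A * C ≠ 0) (hG : ∀ j, Gn A B C j) : NN A B C ≠ 0 := by
  refine mul_ne_zero (mul_ne_zero hA hD) (Finset.prod_ne_zero_iff.2 fun j _ => ?_)
  unfold Nj
  by_cases h : A.degreeOf j ≤ 2 ∧ B.degreeOf j ≤ 2 ∧ C.degreeOf j ≤ 2
  · rw [if_pos h]; exact one_ne_zero
  · rw [if_neg h]
    rcases hG j with h0 | ⟨h1, z, y, h2, h3⟩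
    · exact absurd h0 h
    refine mul_ne_zero ?_ (ldc_ne ?_)
    · by_cases h4 : A * MvPolynomial.pderiv j B ≠ B * MvPolynomial.pderiv j A
      · rw [if_pos h4]; exact sub_ne_zero.2 h4
      · rw [if_neg h4]; exact sub_ne_zero.2 (h1.resolve_left h4)
    · intro h0
      apply Tq_ne (deg_cb_some (hd j).1 (hd j).2.1 (hd j).2.2 (po y z)) h2 h3
      rw [← TqP_eval, h0, map_zero]

lemma single_map' {S : Type*} [Field S] (φ : K →+* S) (b : Option α) :
    (fun a => φ ((Pi.single b 1 : Option α → K) a)) = Pi.single b 1 := by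
  funext a
  by_cases h : a = b
  · subst h; simp
  · rw [Pi.single_eq_of_ne h, Pi.single_eq_of_ne h, map_zero]

lemma NN_spec {A B C : MvPolynomial α K} {S : Type*} [Field S] [CharZero S] (φ : K →+* S)
    {z : α → S} (h : MvPolynomial.eval z (MvPolynomial.map φ (NN A B C)) ≠ 0) :
    MvPolynomial.eval z (MvPolynomial.map φ A) ≠ 0 ∧
    MvPolynomial.eval z (MvPolynomial.map φ B) ^ 2 - 4 * MvPolynomial.eval z (MvPolynomial.map φ A) *
        MvPolynomial.eval z (MvPolynomial.map φ C) ≠ 0 ∧
    ∀ j, (A.degreeOf j ≤ 2 ∧ B.degreeOf j ≤ 2 ∧ C.degreeOf j ≤ 2) ∨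
      Gd (MvPolynomial.map φ A) (MvPolynomial.map φ B) (MvPolynomial.map φ C) z j := by
  have : Infinite S := CharZero.infinite S
  simp only [NN, map_mul, map_sub, map_pow, map_ofNat, map_prod] at h
  obtain ⟨h1, h3⟩ := ne_zero_and_ne_zero_of_mul h
  obtain ⟨h1, h2⟩ := ne_zero_and_ne_zero_of_mul h1
  refine ⟨h1, h2, fun j => ?_⟩
  rw [or_iff_not_imp_left]
  intro hj
  have h4 := Finset.prod_ne_zero_iff.1 h3 j (Finset.mem_univ j)
  rw [Nj, if_neg hj, map_mul, map_mul] at h4
  obtain ⟨h5, h6⟩ := ne_zero_and_ne_zero_of_mul h4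
  constructor
  · by_cases h7 : A * MvPolynomial.pderiv j B ≠ B * MvPolynomial.pderiv j A
    · left
      rw [if_pos h7, map_sub, map_sub, map_mul, map_mul, map_mul, map_mul,
        ← MvPolynomial.pderiv_map, ← MvPolynomial.pderiv_map] at h5
      exact sub_ne_zero.1 h5
    · right
      rw [if_neg h7, map_sub, map_sub, map_mul, map_mul, map_mul, map_mul,
        ← MvPolynomial.pderiv_map, ← MvPolynomial.pderiv_map] at h5
      exact sub_ne_zero.1 h5
  · obtain ⟨y, hy⟩ := ldc_ex φ _ h6
    refine ⟨y, ?_⟩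
    rw [TqP_map, map_cb, single_map', TqP_eval] at hy
    exact hy

end conic

section main

variable {K : Type*} [Field K] [CharZero K] {V : Type*} [Finite V] {L : V → Type*}
  [∀ v, NontriviallyNormedField (L v)] [∀ v, CompleteSpace (L v)] [∀ v, CharZero (L v)]
  {s : ∀ v, K →+* L v} {α : Type*} [Fintype α] [DecidableEq α]

/-- **The closure of the rational points of a conic bundle.** -/
theorem rc_main (hden : Dn s) (HWs : HW s) {A B C : MvPolynomial α K}
    (hd : ∀ j, A.degreeOf j ≤ 4 ∧ B.degreeOf j ≤ 4 ∧ C.degreeOf j ≤ 4) :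
    ∃ U : Set (∀ v, α → L v), IsOpen U ∧ ∀ (x : ∀ v, Option α → L v) (y : ∀ v, L v),
      (∀ v, onX (MvPolynomial.map (s v) (cb A B C)) (x v) (y v)) →
      (∀ v, MvPolynomial.eval (fun i => x v (some i)) (MvPolynomial.map (s v) (NN A B C)) ≠ 0) →
      (Cls s (cb A B C) x y ↔ (fun v i => x v (some i)) ∈ U) := by
  have : Fintype V := Fintype.ofFinite V
  have hdegN : ∀ z, (rst (cb A B C) z (Pi.single none 1)).natDegree ≤ 2 := deg_cb_none A B C
  have hdegM : ∀ (v' : V) z, (rst (MvPolynomial.map (s v') (cb A B C)) z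
      (fun a => s v' ((Pi.single none 1 : Option α → K) a))).natDegree ≤ 2 := by
    intro v' z
    rw [map_cb, single_map]
    exact deg_cb_none _ _ _ z
  have hDv : ∀ (v' : V) (x : Option α → L v'), MvPolynomial.eval (fun i => x (some i))
      (MvPolynomial.map (s v') (NN A B C)) ≠ 0 → dv (MvPolynomial.map (s v') (cb A B C)) x
      (fun a => s v' ((Pi.single none 1 : Option α → K) a)) ≠ 0 := by
    intro v' x hx
    rw [map_cb, single_map, dv_cb]
    exact (NN_spec (s v') hx).2.1
  refine ⟨{ζ | (∀ v, MvPolynomial.eval (ζ v) (MvPolynomial.map (s v) (NN A B C)) ≠ 0) ∧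
    ∃ (x : ∀ v, Option α → L v) (y : ∀ v, L v),
      (∀ v, onX (MvPolynomial.map (s v) (cb A B C)) (x v) (y v)) ∧
      (∀ v, (fun i => x v (some i)) = ζ v) ∧ Cls s (cb A B C) x y}, ?_, ?_⟩
  · rw [Metric.isOpen_iff]
    rintro ζ ⟨hN, x, y, hxy, hxζ, hcl⟩
    have hN' : ∀ v, MvPolynomial.eval (fun i => x v (some i))
        (MvPolynomial.map (s v) (NN A B C)) ≠ 0 := fun v => by rw [hxζ v]; exact hN v
    obtain ⟨ε, hε, hint⟩ := rc_int hden HWs hd hxy (fun v => (NN_spec (s v) (hN' v)).1)
      (fun v => (NN_spec (s v) (hN' v)).2.1) (fun j => by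
        by_cases h : A.degreeOf j ≤ 2 ∧ B.degreeOf j ≤ 2 ∧ C.degreeOf j ≤ 2
        · exact Or.inl h
        · exact Or.inr fun v => ((NN_spec (s v) (hN' v)).2.2 j).resolve_left h)
    have h1 : ∀ v, ∃ ρ₀ : ℝ, 0 < ρ₀ ∧ ∀ x' : Option α → L v,
        (∀ a, ‖x' a - x v a‖ < ρ₀) → ∃ ρ y' : L v, ‖ρ‖ < ε ∧ ‖y' - y v‖ < ε ∧
          onX (MvPolynomial.map (s v) (cb A B C))
            (fun a => x' a + ρ * s v ((Pi.single none 1 : Option α → K) a)) y' := fun v =>
      root_near (hdegM v) (hxy v) (hDv v _ (hN' v)) hε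
    choose ρ₀ hρ₀ hr using h1
    obtain ⟨ρ₁, hρ₁, hρ₁m⟩ := fin_min hρ₀
    have h2 : ∀ v, ∃ κ : ℝ, 0 < κ ∧ ∀ z : α → L v, (∀ i, ‖z i - ζ v i‖ < κ) →
        MvPolynomial.eval z (MvPolynomial.map (s v) (NN A B C)) ≠ 0 := by
      intro v
      have hc : Continuous fun z : α → L v =>
        MvPolynomial.eval z (MvPolynomial.map (s v) (NN A B C)) :=
          MvPolynomial.continuous_eval _
      obtain ⟨κ, hκ, hb⟩ := Metric.eventually_nhds_iff_ball.1
        (hc.continuousAt.eventually_ne (hN v))
      refine ⟨κ, hκ, fun z hz => hb z ?_⟩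
      rw [Metric.mem_ball, dist_pi_lt_iff hκ]
      intro i
      rw [dist_eq_norm]; exact hz i
    choose κ hκ hκN using h2
    obtain ⟨κ₁, hκ₁, hκ₁m⟩ := fin_min hκ
    refine ⟨min (min ρ₁ κ₁) ε, lt_min (lt_min hρ₁ hκ₁) hε, fun ζ' hζ' => ?_⟩
    have hnear : ∀ v i, ‖ζ' v i - ζ v i‖ < min (min ρ₁ κ₁) ε := by
      intro v i
      rw [Metric.mem_ball, dist_pi_lt_iff (lt_min (lt_min hρ₁ hκ₁) hε)] at hζ'
      have h3 := hζ' v
      rw [dist_pi_lt_iff (lt_min (lt_min hρ₁ hκ₁) hε)] at h3
      rw [← dist_eq_norm]; exact h3 i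
    choose r y' g1 g2 g3 using fun v => hr v (po (x v none) (ζ' v)) (fun a => by
      rcases a with _ | i
      · rw [po_none, sub_self, norm_zero]; exact hρ₀ v
      · rw [po_some, show x v (some i) = ζ v i from congrFun (hxζ v) i]
        exact (hnear v i).trans_le (((min_le_left _ _).trans (min_le_left _ _)).trans (hρ₁m v)))
    refine ⟨fun v => hκN v _ fun i => (hnear v i).trans_le
      (((min_le_left _ _).trans (min_le_right _ _)).trans (hκ₁m v)),
      fun v a => po (x v none) (ζ' v) a + r v * s v ((Pi.single none 1 : Option α → K) a), y',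
      g3, fun v => ?_, ?_⟩
    · funext i
      simp
    · obtain ⟨z, w, hzw, hn⟩ := hcl ε hε
      refine hint z w hzw hn _ _ g3 fun v => ⟨fun a => ?_, g2 v⟩
      rcases a with _ | i
      · simpa using g1 v
      · have e1 : po (x v none) (ζ' v) (some i) + r v * s v ((Pi.single none 1 : Option α → K)
            (some i)) - x v (some i) = ζ' v i - ζ v i := by
          rw [po_some, Pi.single_eq_of_ne (by simp), map_zero, mul_zero, add_zero,
            show x v (some i) = ζ v i from congrFun (hxζ v) i]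
        rw [e1]
        exact (hnear v i).trans_le (min_le_right _ _)
  · intro x y hxy hN
    constructor
    · intro h
      exact ⟨hN, x, y, hxy, fun v => rfl, h⟩
    · rintro ⟨-, x₁, y₁, hxy₁, hx₁, hcl⟩
      have h2 : ∀ v i, x₁ v (some i) = x v (some i) := fun v i => congrFun (hx₁ v) i
      have hN₁ : ∀ v, MvPolynomial.eval (fun i => x₁ v (some i))
          (MvPolynomial.map (s v) (NN A B C)) ≠ 0 := fun v => by rw [hx₁ v]; exact hN v
      have e1 : (fun (v : V) (a : Option α) => x₁ v a + (x v none - x₁ v none) *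
          s v ((Pi.single none 1 : Option α → K) a)) = x := by
        funext v a
        rcases a with _ | i
        · simp
        · rw [Pi.single_eq_of_ne (by simp), map_zero, mul_zero, add_zero, h2]
      have h3 := sat_conic hden hdegN hdegM (fun v => hDv v _ (hN₁ v))
        (u := fun v => x v none - x₁ v none) (Z := y) (fun v => by
          rw [show (fun a => x₁ v a + (x v none - x₁ v none) *
            s v ((Pi.single none 1 : Option α → K) a)) = x v from congrFun e1 v]
          exact hxy v) hcl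
      rw [e1] at h3
      exact h3

end main

end Pool.Agent.Y720.MZ
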