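import Pool.Agent.Y720.WL.Tors

/-!
# Rational points of a genus one curve near a local point, no condition at the real place
(helper720)
-/

set_option autoImplicit false
set_option linter.unusedVariables false
set_option linter.unusedSectionVars false

open WeierstrassCurve Filter Topology

namespace Pool.Agent.Y720.MZ

section main

variable {K : Type*} [Field K] [CharZero K] {ι : Type*} [Fintype ι] {p : ι → ℕ}
  [hp : ∀ i, Fact (p i).Prime] {σ : ∀ i, K →+* ℚ_[p i]} {τ : K →+* ℝ}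
  {θ₀ : ∀ i, ℚ_[p i] × (Fin 4 → ℚ_[p i])} {θ' : ℝ × (Fin 4 → ℝ)}

/-- **Rational points of a genus one curve close to a local point, uniformly.** -/
theorem lemER [DecidableEq K] [Nonempty ι] [∀ i, DecidableEq ℚ_[p i]] [DecidableEq ℝ]
    (hinj : Function.Injective p) (hw : ∀ i, (θ₀ i).1 ≠ 0) (hwr : θ'.1 ≠ 0)
    (hD : ∀ i, dsc (tA (θ₀ i)) (tB (θ₀ i)) (tC (θ₀ i)) ≠ 0)
    (hD' : dsc (tA θ') (tB θ') (tC θ') ≠ 0)
    (hS : ∀ i, ∀ h, ∀ n : ℕ, n ≠ 0 → n • (.some (tX (θ₀ i)) (tY (θ₀ i)) h :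
      Pt (tA (θ₀ i)) (tB (θ₀ i)) (tC (θ₀ i))) ≠ 0) :
    ∃ δ : ℝ, 0 < δ ∧ ∀ θ : K × (Fin 4 → K), (∀ i, ‖σ i θ.1 - (θ₀ i).1‖ < δ) →
      (∀ i j, ‖σ i (θ.2 j) - (θ₀ i).2 j‖ < δ) → |τ θ.1 - θ'.1| < δ →
      (∀ j, |τ (θ.2 j) - θ'.2 j| < δ) →
      ∀ (t Y : ∀ i, ℚ_[p i]) (t' Y' : ℝ), (∀ i, ‖t i‖ < δ) → (∀ i, ‖Y i - (θ₀ i).1‖ < δ) →
      |t'| < δ → |Y' - θ'.1| < δ →
      (∀ i, Y i ^ 2 = qv (σ i θ.1) (fun j => σ i (θ.2 j)) (t i)) →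
      Y' ^ 2 = qv (τ θ.1) (fun j => τ (θ.2 j)) t' → ∀ η : ℝ, 0 < η →
      ∃ s Z : K, Z ^ 2 = qv θ.1 θ.2 s ∧ (∀ i, ‖σ i s - t i‖ < η ∧ ‖σ i Z - Y i‖ < η) ∧
        |τ s - t'| < η ∧ |τ Z - Y'| < η := by
  have hns := fun i => tns (hw i) (hD i)
  have hinf := fun i => hS i (hns i)
  obtain ⟨N₀, hN₀, hNp₀⟩ := near_pL hD hinf
    (r := fun i => min (1 / (100 * CL (θ₀ i))) ‖(p i : ℚ_[p i])‖)
    (fun i => lt_min (Bd_baseL (θ₀ i)).hρ norm_p_pos) (fun i => min_le_left _ _)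
  obtain ⟨m, hm, ev6⟩ := real_near (σ := τ) (l := lL σ τ θ₀ θ') TnL_r hwr hD' N₀ hN₀
  obtain ⟨N, hNe⟩ : ∃ N, N = m * N₀ := ⟨_, rfl⟩
  rw [← hNe] at ev6
  have hN : N ≠ 0 := by rw [hNe]; exact mul_ne_zero hm hN₀
  have hNp : ∀ i, Nb (av (RingHom.id _)) (1 / (100 * CL (θ₀ i)))
      (min (1 / (100 * CL (θ₀ i))) ‖(p i : ℚ_[p i])‖)
      (N • (.some _ _ (hns i) : Pt (tA (θ₀ i)) (tB (θ₀ i)) (tC (θ₀ i)))) := by
    intro i
    rw [hNe, mul_smul]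
    exact U2 (Bd_baseL (θ₀ i)) (min_le_left _ _) (hNp₀ i) m
  set S₀ : ∀ i, Pt (tA (θ₀ i)) (tB (θ₀ i)) (tC (θ₀ i)) := fun i => .some _ _ (hns i) with hS₀
  set r : ι → ℝ := fun i => av (RingHom.id _) (TT (N • S₀ i)) with hr
  have hrm : ∀ i, r i ≤ min (1 / (100 * CL (θ₀ i))) ‖(p i : ℚ_[p i])‖ := fun i => (hNp i).le
  have hr1 : ∀ i, r i ≤ 1 / (100 * CL (θ₀ i)) := fun i => (hrm i).trans (min_le_left _ _)
  have hrp : ∀ i, r i ≤ ‖(p i : ℚ_[p i])‖ := fun i => (hrm i).trans (min_le_right _ _)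
  have hr0 : ∀ i, 0 < r i := fun i => (av (RingHom.id _)).pos
    (TT_ne (Bd_baseL (θ₀ i)) (min_le_left _ _) (hNp i) (hinf i N hN))
  have ev1 : ∀ᶠ θ in lL σ τ θ₀ θ', θ.1 ≠ 0 := TnL_r.ne hwr
  have ev2 : ∀ᶠ θ in lL σ τ θ₀ θ', dsc (tA θ) (tB θ) (tC θ) ≠ 0 := TnL_r.dsc_ne hD'
  have ev3 : ∀ᶠ θ in lL σ τ θ₀ θ', ∀ i, Bd (av (σ i)) (tA θ) (tB θ) (tC θ)
      (CL (θ₀ i)) (1 / (100 * CL (θ₀ i))) := eventually_all.2 fun i => (TnL_p i).Bd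
  have ev4 : ∀ᶠ θ in lL σ τ θ₀ θ', Bd (av τ) (tA θ) (tB θ) (tC θ)
      (CL θ') (1 / (100 * CL θ')) := TnL_r.Bd
  have ev5 := eventually_all.2 fun i => ev_pL (σ := σ i) (l := lL σ τ θ₀ θ') (TnL_p i) (hw i)
    (hns i) (hinf i) hN (min_le_left _ _) (hNp i)
  obtain ⟨δ₁, hδ₁, hb⟩ := lL_ev (ev1.and (ev2.and (ev3.and (ev4.and (ev5.and ev6)))))
  choose δp hδp hcp using fun i => convL (σ i) (w₀ := (θ₀ i).1) (q₀ := (θ₀ i).2) (hw i) (hr0 i)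
    (Bd_baseL (θ₀ i)).hρ
  obtain ⟨δr, hδr, hcr⟩ := convL τ (w₀ := θ'.1) (q₀ := θ'.2) hwr
    (div_pos (Bd_baseL θ').hρ (by norm_num : (0 : ℝ) < 12)) (Bd_baseL θ').hρ
  obtain ⟨δ₂, hδ₂, hδ₂p⟩ := fin_min hδp
  obtain ⟨δ₃, hδ₃, hδ₃p⟩ := fin_min (f := fun i => ‖(θ₀ i).1‖) fun i =>
    norm_pos_iff.2 (hw i)
  have hw' : 0 < |θ'.1| := abs_pos.2 hwr
  set δ := min (min δ₁ δ₂) (min δ₃ (min δr |θ'.1|)) with hδ
  have d1 : δ ≤ δ₁ := (min_le_left _ _).trans (min_le_left _ _)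
  have d2 : δ ≤ δ₂ := (min_le_left _ _).trans (min_le_right _ _)
  have d3 : δ ≤ δ₃ := (min_le_right _ _).trans (min_le_left _ _)
  have d4 : δ ≤ δr := (min_le_right _ _).trans ((min_le_right _ _).trans (min_le_left _ _))
  have d5 : δ ≤ |θ'.1| := (min_le_right _ _).trans ((min_le_right _ _).trans (min_le_right _ _))
  refine ⟨δ, lt_min (lt_min hδ₁ hδ₂) (lt_min hδ₃ (lt_min hδr hw')), ?_⟩
  intro θ h1 h2 h3 h4 t Y t' Y' ht hY ht' hY' he he' η hη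
  obtain ⟨g1, g2, g3, g4, g5, g6⟩ := hb θ (fun i => (h1 i).trans_le d1)
    (fun i j => (h2 i j).trans_le d1) (h3.trans_le d1) (fun j => (h4 j).trans_le d1)
  have hnsθ := tns g1 g2
  -- the targets are moved away from zero
  have hp1 : ∀ i, ∃ s Z : ℚ_[p i], s ≠ 0 ∧ ‖s‖ < δ ∧ ‖Z - (θ₀ i).1‖ < δ ∧ ‖s - t i‖ < η / 2 ∧
      ‖Z - Y i‖ < η / 2 ∧ Z ^ 2 = qv (σ i θ.1) (fun j => σ i (θ.2 j)) s := by
    intro i
    have hYne : Y i ≠ 0 := by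
      intro h0
      have := hY i
      rw [h0, zero_sub, norm_neg] at this
      exact absurd (this.trans_le (d3.trans (hδ₃p i))) (lt_irrefl _)
    obtain ⟨s, Z, k1, k2, k3, k4⟩ := perturb (g := qv (σ i θ.1) (fun j => σ i (θ.2 j)))
      (by unfold qv; fun_prop) (he i) hYne
      (η := min (η / 2) (min (δ - ‖t i‖) (δ - ‖Y i - (θ₀ i).1‖)))
      (lt_min (half_pos hη) (lt_min (sub_pos.2 (ht i)) (sub_pos.2 (hY i))))
    have k5 := k2.trans_le (min_le_left _ _)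
    have k6 := k3.trans_le (min_le_left _ _)
    have k7 := k2.trans_le ((min_le_right _ _).trans (min_le_left _ _))
    have k8 := k3.trans_le ((min_le_right _ _).trans (min_le_right _ _))
    refine ⟨s, Z, k1, ?_, ?_, k5, k6, k4⟩
    · have : ‖s‖ ≤ ‖s - t i‖ + ‖t i‖ := by
        have := norm_add_le (s - t i) (t i)
        rwa [sub_add_cancel] at this
      linarith
    · have : ‖Z - (θ₀ i).1‖ ≤ ‖Z - Y i‖ + ‖Y i - (θ₀ i).1‖ := by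
        have := norm_add_le (Z - Y i) (Y i - (θ₀ i).1)
        rwa [sub_add_sub_cancel] at this
      linarith
  obtain ⟨s', Z', m1, m2, m3, m4, m5, m6⟩ : ∃ s Z : ℝ, s ≠ 0 ∧ |s| < δ ∧ |Z - θ'.1| < δ ∧
      |s - t'| < η / 2 ∧ |Z - Y'| < η / 2 ∧ Z ^ 2 = qv (τ θ.1) (fun j => τ (θ.2 j)) s := by
    have hYne : Y' ≠ 0 := by
      intro h0
      have := hY'
      rw [h0, zero_sub, abs_neg] at this
      exact absurd (this.trans_le d5) (lt_irrefl _)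
    obtain ⟨s, Z, k1, k2, k3, k4⟩ := perturb (g := qv (τ θ.1) (fun j => τ (θ.2 j)))
      (by unfold qv; fun_prop) he' hYne
      (η := min (η / 2) (min (δ - |t'|) (δ - |Y' - θ'.1|)))
      (lt_min (half_pos hη) (lt_min (sub_pos.2 ht') (sub_pos.2 hY')))
    rw [Real.norm_eq_abs] at k2 k3
    have k5 := k2.trans_le (min_le_left _ _)
    have k6 := k3.trans_le (min_le_left _ _)
    have k7 := k2.trans_le ((min_le_right _ _).trans (min_le_left _ _))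
    have k8 := k3.trans_le ((min_le_right _ _).trans (min_le_right _ _))
    refine ⟨s, Z, k1, ?_, ?_, k5, k6, k4⟩
    · have : |s| ≤ |s - t'| + |t'| := by
        have := abs_add_le (s - t') t'
        rwa [sub_add_cancel] at this
      linarith
    · have : |Z - θ'.1| ≤ |Z - Y'| + |Y' - θ'.1| := by
        have := abs_add_le (Z - Y') (Y' - θ'.1)
        rwa [sub_add_sub_cancel] at this
      linarith
  choose s Z n1 n2 n3 n4 n5 n6 using hp1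
  -- the points of the resolvents
  have hx1 : ∀ i, ∃ x y : ℚ_[p i], y ^ 2 = x ^ 3 + σ i (θ.2 1) * x ^ 2 +
      rb (σ i θ.1) (σ i (θ.2 0)) (σ i (θ.2 2)) (σ i (θ.2 3)) * x +
      rc (σ i θ.1) (σ i (θ.2 0)) (σ i (θ.2 1)) (σ i (θ.2 2)) (σ i (θ.2 3)) ∧ x ≠ 0 ∧ y ≠ 0 ∧
      ‖x / y‖ ≤ r i ∧ ‖1 / y‖ ≤ 1 / (100 * CL (θ₀ i)) ∧
      Df (σ i θ.1) (σ i (θ.2 0)) (σ i (θ.2 2)) x y ≠ 0 ∧
      s i = tf (σ i θ.1) (σ i (θ.2 0)) (σ i (θ.2 1)) (σ i (θ.2 2)) x y ∧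
      Z i = Yf (σ i θ.1) (σ i (θ.2 0)) (σ i (θ.2 1)) (σ i (θ.2 2)) x y := fun i =>
    (hcp i θ.1 θ.2 ((h1 i).trans_le (d2.trans (hδ₂p i)))
      (fun j => (h2 i j).trans_le (d2.trans (hδ₂p i))) (s i) (Z i) (n1 i)
      ((n2 i).trans_le (d2.trans (hδ₂p i))) ((n3 i).trans_le (d2.trans (hδ₂p i))) (n6 i)).2
  choose x y c1 c0 c2 c3 c4 c5 c6 c7 using hx1
  obtain ⟨x', y', b1, b0, b2, b3, b4, b5, b6, b7⟩ := (hcr θ.1 θ.2 (h3.trans_le d4)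
    (fun j => (h4 j).trans_le d4) s' Z' m1 (m2.trans_le d4) (m3.trans_le d4) m6).2
  choose ηp hηp hcc using fun i => conv_cont (σ i) (w := θ.1) (q₁ := θ.2 0) (q₂ := θ.2 1)
    (q₃ := θ.2 2) (q₄ := θ.2 3) (g3 i) g1 (c1 i) (c2 i) ((c3 i).trans (hr1 i)) (c4 i) (c5 i)
    (half_pos hη)
  have hρ' := (Bd_baseL θ').hρ
  obtain ⟨ηr, hηr, hccr⟩ := conv_cont τ (w := θ.1) (q₁ := θ.2 0) (q₂ := θ.2 1)
    (q₃ := θ.2 2) (q₄ := θ.2 3) g4 g1 b1 b2 (b3.trans (by linarith)) b4 b5 (half_pos hη)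
  obtain ⟨η₁, hη₁, hη₁p⟩ := fin_min hηp
  have hxy' : 0 < |x' / y'| := abs_pos.2 (div_ne_zero b0 b2)
  set ηη := min η₁ (min ηr |x' / y'|) with hηη
  have hηη0 : 0 < ηη := lt_min hη₁ (lt_min hηr hxy')
  -- the multiple
  set R := N • (.some _ _ hnsθ : Pt (tA θ) (tB θ) (tC θ)) with hR
  have hRi : ∀ n : ℕ, n ≠ 0 → n • R ≠ 0 := by
    obtain ⟨i⟩ := ‹Nonempty ι›
    exact U7 (g3 i) (hr1 i) (hr0 i) (hrp i) (g5 i hnsθ).1 (g5 i hnsθ).2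
  obtain ⟨n, hn1, hn2, hn3⟩ := fill_all (σ := σ) (τ := τ) hinj g2 g3 g4 hRi hr0 hr1 hrp
    (fun i => (g5 i hnsθ).1) (fun i => (g5 i hnsθ).2) (g6 hnsθ) (fun i => x i / y i) c3 (x' / y')
    (by rw [← Real.norm_eq_abs]; exact b3) hηη0
  have hTT : TT (n • R) ≠ 0 := by
    intro h0
    rw [h0, map_zero, zero_sub, abs_neg] at hn3
    exact absurd (hn3.trans_le ((min_le_right _ _).trans (min_le_right _ _))) (lt_irrefl _)
  revert hn1 hn2 hn3 hTT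
  generalize n • R = Q
  intro hn1 hn2 hn3 hTT
  rcases Q with _ | ⟨X, W, hQ⟩
  · exact absurd rfl hTT
  have hXW := (cv_ns.1 hQ).1
  simp only [TT_some] at hn1 hn3
  obtain ⟨hW, -, -⟩ := (Nb_some hQ).1 hn2
  have hA : ∀ i, _ := fun i => hcc i X W hXW hW
    (((Nb_some hQ).1 (hn1 i).1).2.1.trans (hr1 i)) ((Nb_some hQ).1 (hn1 i).1).2.2
    ((hn1 i).2.trans_le ((min_le_left _ _).trans (hη₁p i)))
  obtain ⟨hB1, hB2, hB3⟩ := hccr X W hXW hW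
    (((Nb_some hQ).1 hn2).2.1.trans (by linarith)) ((Nb_some hQ).1 hn2).2.2
    (hn3.trans_le ((min_le_right _ _).trans (min_le_left _ _)))
  refine ⟨tf θ.1 (θ.2 0) (θ.2 1) (θ.2 2) X W, Yf θ.1 (θ.2 0) (θ.2 1) (θ.2 2) X W,
    Yf_eqn g1 hXW hB1, fun i => ⟨?_, ?_⟩, ?_, ?_⟩
  · obtain ⟨-, a2, a3⟩ := hA i
    rw [← c6 i] at a2
    have := norm_sub_le_norm_sub_add_norm_sub (σ i (tf θ.1 (θ.2 0) (θ.2 1) (θ.2 2) X W)) (s i) (t i)
    have := n4 i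
    linarith
  · obtain ⟨-, a2, a3⟩ := hA i
    rw [← c7 i] at a3
    have := norm_sub_le_norm_sub_add_norm_sub (σ i (Yf θ.1 (θ.2 0) (θ.2 1) (θ.2 2) X W)) (Z i) (Y i)
    have := n5 i
    linarith
  · rw [← b6, Real.norm_eq_abs] at hB2
    have := abs_sub_le (τ (tf θ.1 (θ.2 0) (θ.2 1) (θ.2 2) X W)) s' t'
    linarith
  · rw [← b7, Real.norm_eq_abs] at hB3
    have := abs_sub_le (τ (Yf θ.1 (θ.2 0) (θ.2 1) (θ.2 2) X W)) Z' Y'
    linarith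

end main

section all

variable {K : Type*} [Field K] [CharZero K] {ι : Type*} [Finite ι] {p : ι → ℕ}
  [hp : ∀ i, Fact (p i).Prime] {σ : ∀ i, K →+* ℚ_[p i]} {τ : K →+* ℝ}

/-- the real place, without condition on the point, and p-adic places -/
theorem hw_r [Nonempty ι] (hinj : Function.Injective p) (σ : ∀ i, K →+* ℚ_[p i])
    (τ : K →+* ℝ) {θ : ∀ v, Lv p v × (Fin 4 → Lv p v)} (hw : ∀ v, (θ v).1 ≠ 0)
    (hD : dsc (tA (θ none)) (tB (θ none)) (tC (θ none)) ≠ 0)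
    (hS : ∀ i, IOt (θ (some i))) : WAqL (sv σ τ) θ := by
  have : Fintype ι := Fintype.ofFinite ι
  letI : DecidableEq K := Classical.decEq K
  letI : ∀ i, DecidableEq ℚ_[p i] := fun i => Classical.decEq _
  letI : DecidableEq ℝ := Classical.decEq ℝ
  obtain ⟨δ, hδ, h⟩ := lemER (σ := σ) (τ := τ) (θ₀ := fun i => θ (some i)) (θ' := θ none) hinj
    (fun i => hw (some i)) (hw none) (fun i => (hS i).1) hD (fun i => (hS i).2)
  refine ⟨δ, hδ, fun θ h1 h2 t Y ht hY he η hη => ?_⟩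
  obtain ⟨u, Z, g1, g2, g3, g4⟩ := h θ (fun i => h1 (some i)) (fun i j => h2 (some i) j) (h1 none)
    (fun j => h2 none j) (fun i => t (some i)) (fun i => Y (some i)) (t none) (Y none)
    (fun i => ht (some i)) (fun i => hY (some i)) (ht none) (hY none) (fun i => he (some i))
    (he none) η hη
  refine ⟨u, Z, g1, ?_⟩
  rintro (_ | i)
  · exact ⟨g3, g4⟩
  · exact g2 i

/-- a direction in which the difference has infinite order at the p-adic places -/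
theorem mv_ior [Nonempty ι] (hinj : Function.Injective p) {α : Type*} [Fintype α]
    [DecidableEq α] {f : MvPolynomial α K} {e : α → K}
    (he : ∀ z, (rst f z e).natDegree ≤ 4) {x₀ : ∀ v, α → Lv p v} {y₀ : ∀ v, Lv p v}
    (hP : ∀ v, onX (MvPolynomial.map (sv σ τ v) f) (x₀ v) (y₀ v))
    (hw : ∀ v, y₀ v ≠ 0)
    (hD : Tq (MvPolynomial.map (sv σ τ none) f) (fun a => sv σ τ none (e a)) (x₀ none) ≠ 0)
    (h : ∀ i, IOt (th (MvPolynomial.map (sv σ τ (some i)) f)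
      (fun a => sv σ τ (some i) (e a)) (x₀ (some i)) (y₀ (some i)))) :
    MvL (sv σ τ) f e x₀ y₀ :=
  mv_quarticL he (hw_r hinj σ τ (θ := fun v => (y₀ v, cq (MvPolynomial.map (sv σ τ v) f)
    (x₀ v) (fun a => sv σ τ v (e a)))) hw (by
      letI : DecidableEq (Lv p none) := Classical.decEq _
      rw [← Tq_eq (hP none)] at hD
      exact hD) h)

end all

end Pool.Agent.Y720.MZ
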