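import Pool.Agent.Y720.WL.Nt

/-!
# Moving along a conic, branch points included (helper720)
-/

set_option autoImplicit false
set_option linter.unusedVariables false
set_option linter.unusedSectionVars false

open Filter Topology

namespace Pool.Agent.Y720.MZ

section disc

variable {F : Type*} [Field F] [CharZero F] {α : Type*} [Fintype α]

/-- the discriminant of the restriction to a line -/
noncomputable def dv (f : MvPolynomial α F) (x v : α → F) : F :=
  (rst f x v).coeff 1 ^ 2 - 4 * (rst f x v).coeff 0 * (rst f x v).coeff 2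

lemma rst_expand {f : MvPolynomial α F} {v : α → F} (hv : ∀ z, (rst f z v).natDegree ≤ 2)
    (x : α → F) (s : F) : MvPolynomial.eval (fun a => x a + s * v a) f =
      (rst f x v).coeff 0 + (rst f x v).coeff 1 * s + (rst f x v).coeff 2 * s ^ 2 := by
  have h1 := rst_eval f x v s
  have e : (x + s • v) = fun a => x a + s * v a := by funext a; simp
  rw [e] at h1
  rw [← h1]
  conv_lhs => rw [(rst f x v).as_sum_range_C_mul_X_pow' (n := 3) (by have := hv x; omega)]
  simp [Finset.sum_range_succ]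

/-- the coefficients after a shift -/
lemma rst_shift {f : MvPolynomial α F} {v : α → F} (hv : ∀ z, (rst f z v).natDegree ≤ 2)
    (x : α → F) (u : F) :
    (rst f (fun a => x a + u * v a) v).coeff 0 = (rst f x v).coeff 0 + (rst f x v).coeff 1 * u +
      (rst f x v).coeff 2 * u ^ 2 ∧
    (rst f (fun a => x a + u * v a) v).coeff 1 = (rst f x v).coeff 1 +
      2 * (rst f x v).coeff 2 * u ∧
    (rst f (fun a => x a + u * v a) v).coeff 2 = (rst f x v).coeff 2 := by
  have h0 : ∀ s, (rst f (fun a => x a + u * v a) v).coeff 0 +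
      (rst f (fun a => x a + u * v a) v).coeff 1 * s +
      (rst f (fun a => x a + u * v a) v).coeff 2 * s ^ 2 =
      (rst f x v).coeff 0 + (rst f x v).coeff 1 * (u + s) + (rst f x v).coeff 2 * (u + s) ^ 2 := by
    intro s
    rw [← rst_expand hv, ← rst_expand hv]
    congr 2
    funext a
    ring
  have e0 := h0 0
  have e1 := h0 1
  have e2 := h0 (-1)
  have h2 : (2 : F) ≠ 0 := two_ne_zero
  refine ⟨by linear_combination e0, ?_, ?_⟩
  · apply mul_left_cancel₀ h2
    linear_combination e1 - e2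
  · apply mul_left_cancel₀ h2
    linear_combination e1 + e2 - 2 * e0

lemma dv_shift {f : MvPolynomial α F} {v : α → F} (hv : ∀ z, (rst f z v).natDegree ≤ 2)
    (x : α → F) (u : F) : dv f (fun a => x a + u * v a) v = dv f x v := by
  obtain ⟨e0, e1, e2⟩ := rst_shift hv x u
  rw [dv, dv, e0, e1, e2]
  ring

lemma dv_cq {f : MvPolynomial α F} {v x : α → F} {w : F} (h : onX f x w) :
    dv f x v = cq f x v 0 ^ 2 - 4 * w ^ 2 * cq f x v 1 := by
  have h3 : (rst f x v).coeff 0 = w ^ 2 := by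
    rw [show w ^ 2 = MvPolynomial.eval x f from h, Polynomial.coeff_zero_eq_eval_zero, rst_eval]
    simp
  rw [dv, h3]
  rfl

end disc

section loc

variable {F : Type*} [NontriviallyNormedField F] [CompleteSpace F] [CharZero F]
  {α : Type*} [Fintype α]

/-- points of the conics through the points close to a given one -/
lemma root_near {g : MvPolynomial α F} {v : α → F} (hv : ∀ z, (rst g z v).natDegree ≤ 2)
    {x₁ : α → F} {y : F} (hxy : onX g x₁ y) (hD : dv g x₁ v ≠ 0) {κ : ℝ} (hκ : 0 < κ) :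
    ∃ ρ₀ : ℝ, 0 < ρ₀ ∧ ∀ x : α → F, (∀ a, ‖x a - x₁ a‖ < ρ₀) → ∃ ρ y' : F, ‖ρ‖ < κ ∧
      ‖y' - y‖ < κ ∧ onX g (fun a => x a + ρ * v a) y' := by
  by_cases hy : y = 0
  · subst hy
    have c0 := rst_coeff_cont g v 0
    have c1 := rst_coeff_cont g v 1
    have c2 := rst_coeff_cont g v 2
    have h00 : (rst g x₁ v).coeff 0 = 0 := by
      have h1 := rst_expand hv x₁ 0
      have e : (fun a => x₁ a + 0 * v a) = x₁ := by funext a; ring
      rw [e, ← (show (0 : F) ^ 2 = MvPolynomial.eval x₁ g from hxy)] at h1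
      linear_combination -h1
    have hb : (rst g x₁ v).coeff 1 ≠ 0 := by
      intro h0
      apply hD
      rw [dv, h0, h00]
      ring
    set b₁ := (rst g x₁ v).coeff 1 with hb₁
    -- square roots of the discriminants
    have hb1' : 0 < ‖b₁‖ := norm_pos_iff.2 hb
    have h2b : 2 * b₁ ≠ 0 := mul_ne_zero two_ne_zero hb
    -- the continuous function of `x` and `r`
    let G : (α → F) × F → F := fun e => -2 * (rst g e.1 v).coeff 0 / ((rst g e.1 v).coeff 1 + e.2)
    have hG : ContinuousAt G (x₁, b₁) := by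
      refine ContinuousAt.div ?_ ?_ ?_
      · exact (continuous_const.mul (c0.comp continuous_fst)).continuousAt
      · exact ((c1.comp continuous_fst).add continuous_snd).continuousAt
      · change (rst g x₁ v).coeff 1 + b₁ ≠ 0
        rw [← hb₁, ← two_mul]; exact h2b
    have hG0 : G (x₁, b₁) = 0 := by
      change -2 * (rst g x₁ v).coeff 0 / ((rst g x₁ v).coeff 1 + b₁) = 0
      rw [h00, mul_zero, zero_div]
    have hden : ContinuousAt (fun e : (α → F) × F => (rst g e.1 v).coeff 1 + e.2) (x₁, b₁) :=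
      ((c1.comp continuous_fst).add continuous_snd).continuousAt
    have ev1 : ∀ᶠ e in 𝓝 (x₁, b₁), ‖G e‖ < κ := by
      have := hG.tendsto.norm
      rw [hG0, norm_zero] at this
      exact this.eventually_lt_const hκ
    have ev2 : ∀ᶠ e : (α → F) × F in 𝓝 (x₁, b₁), (rst g e.1 v).coeff 1 + e.2 ≠ 0 :=
      hden.eventually_ne (by
        change (rst g x₁ v).coeff 1 + b₁ ≠ 0
        rw [← hb₁, ← two_mul]; exact h2b)
    obtain ⟨ε, hε, hball⟩ := Metric.eventually_nhds_iff_ball.1 (ev1.and ev2)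
    obtain ⟨δ, hδ, hs⟩ := exists_sqrt hb hε
    have ev3 : ∀ᶠ x in 𝓝 x₁, ‖(rst g x v).coeff 1 ^ 2 -
        4 * (rst g x v).coeff 0 * (rst g x v).coeff 2 - b₁ ^ 2‖ < δ := by
      have h2 : Tendsto (fun x => ‖(rst g x v).coeff 1 ^ 2 -
        4 * (rst g x v).coeff 0 * (rst g x v).coeff 2 - b₁ ^ 2‖) (𝓝 x₁) (𝓝 0) := by
        have := ((((c1.tendsto x₁).pow 2).sub (((c0.tendsto x₁).const_mul 4).mul
          (c2.tendsto x₁))).sub_const (b₁ ^ 2)).norm
        have e1 : (rst g x₁ v).coeff 1 ^ 2 - 4 * (rst g x₁ v).coeff 0 * (rst g x₁ v).coeff 2 -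
            b₁ ^ 2 = 0 := by rw [h00, ← hb₁]; ring
        rwa [e1, norm_zero] at this
      exact h2.eventually_lt_const hδ
    obtain ⟨ρ₁, hρ₁, hb3⟩ := Metric.eventually_nhds_iff_ball.1 ev3
    refine ⟨min ρ₁ ε, lt_min hρ₁ hε, fun x hx => ?_⟩
    have hx1 : x ∈ Metric.ball x₁ ρ₁ := by
      rw [Metric.mem_ball, dist_pi_lt_iff hρ₁]
      intro a
      rw [dist_eq_norm]
      exact (hx a).trans_le (min_le_left _ _)
    obtain ⟨r, hr1, hr2⟩ := hs _ (hb3 x hx1)
    obtain ⟨k1, k2⟩ := hball (x, r) (by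
      rw [Metric.mem_ball, Prod.dist_eq]
      refine max_lt ?_ ?_
      · rw [dist_pi_lt_iff hε]
        intro a
        rw [dist_eq_norm]
        exact (hx a).trans_le (min_le_right _ _)
      · rw [dist_eq_norm]; exact hr1)
    refine ⟨G (x, r), 0, k1, by rw [sub_self, norm_zero]; exact hκ, ?_⟩
    unfold onX
    rw [rst_expand hv]
    have k2' : (rst g x v).coeff 1 + r ≠ 0 := k2
    change 0 ^ 2 = (rst g x v).coeff 0 + (rst g x v).coeff 1 *
      (-2 * (rst g x v).coeff 0 / ((rst g x v).coeff 1 + r)) + (rst g x v).coeff 2 *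
      (-2 * (rst g x v).coeff 0 / ((rst g x v).coeff 1 + r)) ^ 2
    field_simp
    linear_combination (-(rst g x v).coeff 0) * hr2
  · obtain ⟨ρ, hρ, hs⟩ := sq_near hxy hy hκ
    refine ⟨ρ, hρ, fun x hx => ?_⟩
    obtain ⟨y', h1, h2⟩ := hs x hx
    refine ⟨0, y', by rw [norm_zero]; exact hκ, h1, ?_⟩
    have e : (fun a => x a + 0 * v a) = x := by funext a; ring
    rw [e]; exact h2

/-- another point of a smooth conic -/
lemma exists_pt {g : MvPolynomial α F} {v : α → F} (hv : ∀ z, (rst g z v).natDegree ≤ 2)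
    {x₁ : α → F} {y : F} (hxy : onX g x₁ y) (hD : dv g x₁ v ≠ 0) :
    ∃ u Z : F, u ≠ 0 ∧ Z ≠ 0 ∧ onX g (fun a => x₁ a + u * v a) Z := by
  by_cases hy : y = 0
  · subst hy
    have h00 : (rst g x₁ v).coeff 0 = 0 := by
      have h1 := rst_expand hv x₁ 0
      have e : (fun a => x₁ a + 0 * v a) = x₁ := by funext a; ring
      rw [e, ← (show (0 : F) ^ 2 = MvPolynomial.eval x₁ g from hxy)] at h1
      linear_combination -h1
    have hb : (rst g x₁ v).coeff 1 ≠ 0 := by
      intro h0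
      apply hD
      rw [dv, h0, h00]
      ring
    set b₁ := (rst g x₁ v).coeff 1 with hb₁
    set c₁ := (rst g x₁ v).coeff 2 with hc₁
    -- `m² u = b + c u`
    obtain ⟨m, hm⟩ : ∃ m : F, m ≠ 0 ∧ m ^ 2 ≠ c₁ := by
      have h1 : {m : F | m = 0 ∨ m ^ 2 = c₁}.Finite := by
        have : {m : F | m = 0 ∨ m ^ 2 = c₁} ⊆ {m | (Polynomial.X *
            (Polynomial.X ^ 2 - Polynomial.C c₁)).IsRoot m} := by
          rintro m (h | h)
          · simp [h]
          · simp [h]
        exact (Polynomial.finite_setOf_isRoot (mul_ne_zero Polynomial.X_ne_zero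
          (Polynomial.X_pow_sub_C_ne_zero (by norm_num) c₁))).subset this
      have : Infinite F := CharZero.infinite F
      obtain ⟨m, hm⟩ := h1.infinite_compl.nonempty
      rw [Set.mem_compl_iff, Set.mem_setOf_eq, not_or] at hm
      exact ⟨m, hm⟩
    have hd : m ^ 2 - c₁ ≠ 0 := sub_ne_zero.2 hm.2
    refine ⟨b₁ / (m ^ 2 - c₁), m * (b₁ / (m ^ 2 - c₁)), div_ne_zero hb hd,
      mul_ne_zero hm.1 (div_ne_zero hb hd), ?_⟩
    unfold onX
    rw [rst_expand hv, h00, ← hb₁, ← hc₁]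
    field_simp
    ring
  · obtain ⟨ρ, hρ, hs⟩ := sq_near hxy hy (norm_pos_iff.2 hy)
    obtain ⟨ρ', hρ', -, hdir⟩ := dir_bound (s := fun _ : Unit => RingHom.id F) v hρ
    obtain ⟨u, hu0, hu⟩ := NormedField.exists_norm_lt F hρ'
    obtain ⟨Z, h1, h2⟩ := hs (fun a => x₁ a + u * v a) (fun a => by
      rw [add_sub_cancel_left]; exact hdir () a _ hu)
    refine ⟨u, Z, norm_pos_iff.1 hu0, ?_, h2⟩
    rintro rfl
    rw [zero_sub, norm_neg] at h1
    exact lt_irrefl _ h1

end loc

section glob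

variable {K : Type*} [Field K] [CharZero K] {V : Type*} [Finite V] {L : V → Type*}
  [∀ v, NontriviallyNormedField (L v)] [∀ v, CompleteSpace (L v)] {s : ∀ v, K →+* L v}
  {α : Type*}

/-- weak approximation on a smooth conic, the base point may be a branch point -/
lemma conic_wa' (hden : Dn s) {w q₀ q₁ : K} {t Y : ∀ v, L v}
    (hdisc : q₀ ^ 2 - 4 * w ^ 2 * q₁ ≠ 0) (ht0 : ∀ v, t v ≠ 0)
    (he : ∀ v, Y v ^ 2 = s v w ^ 2 + s v q₀ * t v + s v q₁ * t v ^ 2) {η : ℝ} (hη : 0 < η) :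
    ∃ u Z : K, Z ^ 2 = w ^ 2 + q₀ * u + q₁ * u ^ 2 ∧
      ∀ v, ‖s v u - t v‖ < η ∧ ‖s v Z - Y v‖ < η := by
  have hcz : ∀ v, CharZero (L v) := fun v => charZero_of_injective_ringHom (s v).injective
  set m : ∀ v, L v := fun v => (Y v - s v w) / t v with hm
  have hmt : ∀ v, m v * t v = Y v - s v w := fun v => div_mul_cancel₀ _ (ht0 v)
  have key : ∀ v, t v * (m v ^ 2 - s v q₁) = s v q₀ - 2 * s v w * m v := by
    intro v
    apply mul_left_cancel₀ (ht0 v)
    have h1 : Y v = s v w + m v * t v := by rw [hmt v]; ring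
    have h2 := he v
    rw [h1] at h2
    linear_combination h2
  have hD : ∀ v, m v ^ 2 - s v q₁ ≠ 0 := by
    intro v h0
    have h1 := key v
    rw [h0, mul_zero] at h1
    apply hdisc
    apply (map_eq_zero (s v)).1
    simp only [map_sub, map_pow, map_mul, map_ofNat]
    linear_combination -(s v q₀ + 2 * s v w * m v) * h1 + 4 * s v w ^ 2 * h0
  have ht' : ∀ v, t v = (s v q₀ - 2 * s v w * m v) / (m v ^ 2 - s v q₁) := fun v => by
    rw [eq_div_iff (hD v), key v]
  have hρ : ∀ v, ∃ ρ : ℝ, 0 < ρ ∧ ∀ x : L v, ‖x - m v‖ < ρ → x ^ 2 - s v q₁ ≠ 0 ∧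
      ‖(s v q₀ - 2 * s v w * x) / (x ^ 2 - s v q₁) - t v‖ < η ∧
      ‖s v w + x * ((s v q₀ - 2 * s v w * x) / (x ^ 2 - s v q₁)) - Y v‖ < η := by
    intro v
    have c1 : ContinuousAt (fun x : L v => (s v q₀ - 2 * s v w * x) / (x ^ 2 - s v q₁)) (m v) :=
      ContinuousAt.div (by fun_prop) (by fun_prop) (hD v)
    have c2 : ContinuousAt (fun x : L v => s v w + x *
        ((s v q₀ - 2 * s v w * x) / (x ^ 2 - s v q₁))) (m v) :=
      continuousAt_const.add (continuousAt_id.mul c1)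
    have c3 : ContinuousAt (fun x : L v => x ^ 2 - s v q₁) (m v) := by fun_prop
    have e1 : ∀ᶠ x in 𝓝 (m v), x ^ 2 - s v q₁ ≠ 0 := c3.eventually_ne (hD v)
    have e2 : ∀ᶠ x in 𝓝 (m v), ‖(s v q₀ - 2 * s v w * x) / (x ^ 2 - s v q₁) - t v‖ < η := by
      have := (c1.tendsto.sub_const (t v)).norm
      rw [← ht' v, sub_self, norm_zero] at this
      exact this.eventually_lt_const hη
    have e3 : ∀ᶠ x in 𝓝 (m v), ‖s v w + x * ((s v q₀ - 2 * s v w * x) / (x ^ 2 - s v q₁)) -
        Y v‖ < η := by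
      have := (c2.tendsto.sub_const (Y v)).norm
      rw [← ht' v, hmt v, add_sub_cancel, sub_self, norm_zero] at this
      exact this.eventually_lt_const hη
    obtain ⟨ρ, hρ, hb⟩ := Metric.eventually_nhds_iff_ball.1 (e1.and (e2.and e3))
    exact ⟨ρ, hρ, fun x hx => hb x (by rw [Metric.mem_ball, dist_eq_norm]; exact hx)⟩
  choose ρ hρ0 hρb using hρ
  obtain ⟨ρ', hρ', hρm⟩ := fin_min hρ0
  obtain ⟨x, hx⟩ := hden m ρ' hρ'
  have hg := fun v => hρb v (s v x) ((hx v).trans_le (hρm v))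
  by_cases hV : IsEmpty V
  · exact ⟨0, w, by ring, fun v => (hV.false v).elim⟩
  rw [not_isEmpty_iff] at hV
  have hx0 : x ^ 2 - q₁ ≠ 0 := by
    intro h0
    obtain ⟨v⟩ := hV
    apply (hg v).1
    rw [← map_pow, ← map_sub, h0, map_zero]
  refine ⟨(q₀ - 2 * w * x) / (x ^ 2 - q₁), w + x * ((q₀ - 2 * w * x) / (x ^ 2 - q₁)), ?_,
    fun v => ⟨?_, ?_⟩⟩
  · field_simp
    ring
  · have h1 := (hg v).2.1
    have e : s v ((q₀ - 2 * w * x) / (x ^ 2 - q₁)) =
        (s v q₀ - 2 * s v w * s v x) / (s v x ^ 2 - s v q₁) := by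
      simp only [map_div₀, map_sub, map_mul, map_pow, map_ofNat]
    rw [← e] at h1
    exact h1
  · have h1 := (hg v).2.2
    have e : s v (w + x * ((q₀ - 2 * w * x) / (x ^ 2 - q₁))) =
        s v w + s v x * ((s v q₀ - 2 * s v w * s v x) / (s v x ^ 2 - s v q₁)) := by
      simp only [map_add, map_div₀, map_sub, map_mul, map_pow, map_ofNat]
    rw [← e] at h1
    exact h1

variable [Fintype α]

/-- rational points on a smooth conic close to a local one -/
lemma conic_pts' (hden : Dn s) {f : MvPolynomial α K} {z e : α → K}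
    (he : (rst f z e).natDegree ≤ 2) {w : K} (hzw : onX f z w) {t Y : ∀ v, L v}
    (hD : dv f z e ≠ 0) (ht : ∀ v, t v ≠ 0)
    (h : ∀ v, onX (MvPolynomial.map (s v) f) (fun a => s v (z a) + t v * s v (e a)) (Y v))
    {η : ℝ} (hη : 0 < η) : ∃ (z' : α → K) (Z : K), onX f z' Z ∧
      nr s η z' Z (fun v a => s v (z a) + t v * s v (e a)) Y := by
  obtain ⟨η', hη', hη'le, hdir⟩ := dir_bound (s := s) e hη
  obtain ⟨u, Z, g1, g2⟩ := conic_wa' hden (by rw [← dv_cq hzw]; exact hD) ht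
    (fun v => conic_place he hzw (h v)) hη'
  refine ⟨fun a => z a + u * e a, Z, ?_, fun v => ⟨fun a => ?_, ((g2 v).2).trans_le hη'le⟩⟩
  · unfold onX
    rw [g1, conic_eval he hzw]
  · have e1 : s v (z a + u * e a) - (s v (z a) + t v * s v (e a)) =
        (s v u - t v) * s v (e a) := by
      rw [map_add, map_mul]; ring
    rw [e1]
    exact hdir v a _ (g2 v).1

lemma dv_map {f : MvPolynomial α K} {z e : α → K} (v : V) :
    s v (dv f z e) = dv (MvPolynomial.map (s v) f) (fun a => s v (z a)) (fun a => s v (e a)) := by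
  have : CharZero (L v) := charZero_of_injective_ringHom (s v).injective
  simp only [dv, ← rst_map, Polynomial.coeff_map, map_sub, map_mul, map_pow, map_ofNat]

/-- the discriminant does not vanish close to a point where it does not vanish -/
lemma dv_near {f : MvPolynomial α K} {e : α → K} {x₀ : ∀ v, α → L v}
    (hD : ∀ v, dv (MvPolynomial.map (s v) f) (x₀ v) (fun a => s v (e a)) ≠ 0) :
    ∃ δ : ℝ, 0 < δ ∧ (∀ z : α → K, Nonempty V → (∀ v a, ‖s v (z a) - x₀ v a‖ < δ) →
      dv f z e ≠ 0) ∧ ∀ (v : V) (x : α → L v), (∀ a, ‖x a - x₀ v a‖ < δ) →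
        dv (MvPolynomial.map (s v) f) x (fun a => s v (e a)) ≠ 0 := by
  have h1 : ∀ v, ∃ δ : ℝ, 0 < δ ∧ ∀ x : α → L v, (∀ a, ‖x a - x₀ v a‖ < δ) →
      dv (MvPolynomial.map (s v) f) x (fun a => s v (e a)) ≠ 0 := by
    intro v
    have : CharZero (L v) := charZero_of_injective_ringHom (s v).injective
    have c0 := rst_coeff_cont (MvPolynomial.map (s v) f) (fun a => s v (e a)) 0
    have c1 := rst_coeff_cont (MvPolynomial.map (s v) f) (fun a => s v (e a)) 1
    have c2 := rst_coeff_cont (MvPolynomial.map (s v) f) (fun a => s v (e a)) 2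
    have hc : Continuous fun x : α → L v =>
        dv (MvPolynomial.map (s v) f) x (fun a => s v (e a)) :=
      (c1.pow 2).sub ((continuous_const.mul c0).mul c2)
    obtain ⟨δ, hδ, hb⟩ := Metric.eventually_nhds_iff_ball.1 (hc.continuousAt.eventually_ne (hD v))
    refine ⟨δ, hδ, fun x hx => hb x ?_⟩
    rw [Metric.mem_ball, dist_pi_lt_iff hδ]
    intro a
    rw [dist_eq_norm]
    exact hx a
  choose δ hδ hb using h1
  obtain ⟨δ', hδ', hm⟩ := fin_min hδ
  refine ⟨δ', hδ', fun z hV hz h0 => ?_, fun v x hx => hb v x fun a => (hx a).trans_le (hm v)⟩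
  obtain ⟨v⟩ := hV
  apply hb v (fun a => s v (z a)) (fun a => (hz v a).trans_le (hm v))
  rw [← dv_map, h0, map_zero]

/-- **The conic principle.** -/
theorem int_conic (hden : Dn s) {f : MvPolynomial α K} {v : α → K}
    (hv : ∀ z, (rst f z v).natDegree ≤ 2)
    (hv' : ∀ (v' : V) z, (rst (MvPolynomial.map (s v') f) z (fun a => s v' (v a))).natDegree ≤ 2)
    {x₀ : ∀ v, α → L v} {y₀ : ∀ v, L v}
    (hP : ∀ v, onX (MvPolynomial.map (s v) f) (x₀ v) (y₀ v))
    (hD : ∀ v', dv (MvPolynomial.map (s v') f) (x₀ v') (fun a => s v' (v a)) ≠ 0)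
    {u Z : ∀ v, L v} (hu : ∀ v, u v ≠ 0) (hZ : ∀ v, Z v ≠ 0)
    (hPZ : ∀ v', onX (MvPolynomial.map (s v') f) (fun a => x₀ v' a + u v' * s v' (v a)) (Z v'))
    (hI : IntL s f (fun v' a => x₀ v' a + u v' * s v' (v a)) Z) : IntL s f x₀ y₀ := by
  by_cases hV : IsEmpty V
  · exact ⟨1, one_pos, fun z w hzw hn x y hxy hT η hη => ⟨z, w, hzw,
      fun v => (hV.false v).elim⟩⟩
  rw [not_isEmpty_iff] at hV
  have hcz : ∀ v, CharZero (L v) := fun v => charZero_of_injective_ringHom (s v).injective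
  obtain ⟨ε', hε', hint⟩ := hI
  obtain ⟨δ₁, hδ₁, hd1, hd1'⟩ := dv_near (s := s) (f := f) (e := v) hD
  have hD' : ∀ v', dv (MvPolynomial.map (s v') f) (fun a => x₀ v' a + u v' * s v' (v a))
      (fun a => s v' (v a)) ≠ 0 := by
    intro v'
    have := hcz v'
    rw [dv_shift (hv' v')]
    exact hD v'
  obtain ⟨δ₂, hδ₂, hd2, -⟩ := dv_near (s := s) (f := f) (e := v)
    (x₀ := fun v' a => x₀ v' a + u v' * s v' (v a)) hD'
  -- square roots close to the second point
  have hsq : ∀ v', ∃ ρ : ℝ, 0 < ρ ∧ ∀ x' : α → L v',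
      (∀ a, ‖x' a - (x₀ v' a + u v' * s v' (v a))‖ < ρ) →
      ∃ y' : L v', ‖y' - Z v'‖ < ε' / 2 ∧ onX (MvPolynomial.map (s v') f) x' y' := by
    intro v'
    have := hcz v'
    exact sq_near (hPZ v') (hZ v') (half_pos hε')
  choose ρ hρ hρb using hsq
  obtain ⟨ρ₀, hρ₀, hρm⟩ := fin_min hρ
  set ε := min (min (ε' / 2) (δ₂ / 2)) (min ρ₀ δ₁) with hε
  have hε0 : 0 < ε := lt_min (lt_min (by positivity) (by positivity)) (lt_min hρ₀ hδ₁)
  have a1 : ε ≤ ε' / 2 := (min_le_left _ _).trans (min_le_left _ _)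
  have a2 : ε ≤ δ₂ / 2 := (min_le_left _ _).trans (min_le_right _ _)
  have a3 : ε ≤ ρ₀ := (min_le_right _ _).trans (min_le_left _ _)
  have a4 : ε ≤ δ₁ := (min_le_right _ _).trans (min_le_right _ _)
  refine ⟨ε, hε0, fun z w hzw hn x y hxy hT η hη => ?_⟩
  -- a rational point close to the second point
  choose Y₁ hY₁a hY₁b using fun v' => hρb v' (fun a => s v' (z a) + u v' * s v' (v a))
    (fun a => by
      have e1 : s v' (z a) + u v' * s v' (v a) - (x₀ v' a + u v' * s v' (v a)) =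
          s v' (z a) - x₀ v' a := by ring
      rw [e1]
      exact ((hn v').1 a).trans_le (a3.trans (hρm v')))
  obtain ⟨z₁, w₁, hzw₁, hn₁⟩ := conic_pts' hden (hv z) hzw
    (hd1 z hV fun v' a => ((hn v').1 a).trans_le a4) hu hY₁b (show (0 : ℝ) < ε' / 2 by positivity)
  -- the target close to the second point
  choose Y₂ hY₂a hY₂b using fun v' => hρb v' (fun a => x v' a + u v' * s v' (v a))
    (fun a => by
      have e1 : x v' a + u v' * s v' (v a) - (x₀ v' a + u v' * s v' (v a)) =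
          x v' a - x₀ v' a := by ring
      rw [e1]
      exact ((hT v').1 a).trans_le (a3.trans (hρm v')))
  -- the points of the conics close to the target
  obtain ⟨κ, hκ, hκle, hdir⟩ := dir_bound (s := s) v (show (0 : ℝ) < η / 4 by positivity)
  obtain ⟨ω, hω, hωm⟩ := fin_min (f := fun v' : V => ‖u v'‖) fun v' => norm_pos_iff.2 (hu v')
  have hrn : ∀ v', ∃ ρ₀ : ℝ, 0 < ρ₀ ∧ ∀ x' : α → L v', (∀ a, ‖x' a - x v' a‖ < ρ₀) →
      ∃ ρ y' : L v', ‖ρ‖ < min κ ω ∧ ‖y' - y v'‖ < min κ ω ∧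
        onX (MvPolynomial.map (s v') f) (fun a => x' a + ρ * s v' (v a)) y' := by
    intro v'
    have := hcz v'
    exact root_near (hv' v') (hxy v') (hd1' v' (x v') fun a => ((hT v').1 a).trans_le a4)
      (lt_min hκ hω)
  choose r₀ hr₀ hr using hrn
  obtain ⟨r₁, hr₁, hr₁m⟩ := fin_min hr₀
  set η₁ := min (min r₁ (η / 4)) (δ₂ / 2) with hη₁
  have hη₁0 : 0 < η₁ := lt_min (lt_min hr₁ (by positivity)) (by positivity)
  have b1 : η₁ ≤ r₁ := (min_le_left _ _).trans (min_le_left _ _)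
  have b2 : η₁ ≤ η / 4 := (min_le_left _ _).trans (min_le_right _ _)
  have b3 : η₁ ≤ δ₂ / 2 := min_le_right _ _
  obtain ⟨z₂, w₂, hzw₂, hn₂⟩ := hint z₁ w₁ hzw₁ (fun v' => ⟨fun a => by
      have k1 := (hn₁ v').1 a
      have k2 := (hn v').1 a
      have e1 : s v' (z₁ a) - (x₀ v' a + u v' * s v' (v a)) =
          (s v' (z₁ a) - (s v' (z a) + u v' * s v' (v a))) + (s v' (z a) - x₀ v' a) := by ring
      have k3 := norm_add_le (s v' (z₁ a) - (s v' (z a) + u v' * s v' (v a)))
        (s v' (z a) - x₀ v' a)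
      rw [e1]
      linarith, by
      have k1 := (hn₁ v').2
      have k2 := hY₁a v'
      have k3 := norm_sub_le_norm_sub_add_norm_sub (s v' w₁) (Y₁ v') (Z v')
      linarith⟩) (fun v' a => x v' a + u v' * s v' (v a)) Y₂ hY₂b (fun v' => ⟨fun a => by
      have e1 : x v' a + u v' * s v' (v a) - (x₀ v' a + u v' * s v' (v a)) =
          x v' a - x₀ v' a := by ring
      rw [e1]
      exact ((hT v').1 a).trans_le (a1.trans (by linarith)), (hY₂a v').trans (by linarith)⟩)
    η₁ hη₁0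
  -- back along the conic
  choose r y' hr1 hr2 hr3 using fun v' => hr v' (fun a => s v' (z₂ a) + (-u v') * s v' (v a))
    (fun a => by
      have e1 : s v' (z₂ a) + (-u v') * s v' (v a) - x v' a =
          s v' (z₂ a) - (x v' a + u v' * s v' (v a)) := by ring
      rw [e1]
      exact ((hn₂ v').1 a).trans_le (b1.trans (hr₁m v')))
  obtain ⟨z₃, w₃, hzw₃, hn₃⟩ := conic_pts' hden (hv z₂) hzw₂ (hd2 z₂ hV fun v' a => by
      have e1 : s v' (z₂ a) - (x₀ v' a + u v' * s v' (v a)) =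
          (s v' (z₂ a) - (x v' a + u v' * s v' (v a))) + (x v' a - x₀ v' a) := by ring
      have k1 := (hn₂ v').1 a
      have k2 := (hT v').1 a
      have k3 := norm_add_le (s v' (z₂ a) - (x v' a + u v' * s v' (v a))) (x v' a - x₀ v' a)
      rw [e1]
      linarith) (t := fun v' => -u v' + r v') (Y := y') (fun v' h0 => by
      have h1 : r v' = u v' := by linear_combination h0
      have h2 := (hr1 v').trans_le (min_le_right _ _)
      rw [h1] at h2
      exact absurd h2 (not_lt.2 (hωm v'))) (fun v' => by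
      have h1 := hr3 v'
      have e1 : (fun a => s v' (z₂ a) + -u v' * s v' (v a) + r v' * s v' (v a)) =
          fun a => s v' (z₂ a) + (-u v' + r v') * s v' (v a) := by
        funext a; ring
      rwa [e1] at h1) (show (0 : ℝ) < η / 4 by positivity)
  refine ⟨z₃, w₃, hzw₃, fun v' => ⟨fun a => ?_, ?_⟩⟩
  · have e1 : s v' (z₃ a) - x v' a =
        (s v' (z₃ a) - (s v' (z₂ a) + (-u v' + r v') * s v' (v a))) +
        (s v' (z₂ a) - (x v' a + u v' * s v' (v a))) + r v' * s v' (v a) := by ring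
    have k1 := (hn₃ v').1 a
    have k2 := (hn₂ v').1 a
    have k3 := hdir v' a _ ((hr1 v').trans_le (min_le_left _ _))
    have k4 := norm_add_le ((s v' (z₃ a) - (s v' (z₂ a) + (-u v' + r v') * s v' (v a))) +
        (s v' (z₂ a) - (x v' a + u v' * s v' (v a)))) (r v' * s v' (v a))
    have k5 := norm_add_le (s v' (z₃ a) - (s v' (z₂ a) + (-u v' + r v') * s v' (v a)))
        (s v' (z₂ a) - (x v' a + u v' * s v' (v a)))
    rw [e1]
    linarith
  · have k1 := (hn₃ v').2
    have k2 := ((hr2 v').trans_le (min_le_left _ _)).trans_le hκle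
    have k3 := norm_sub_le_norm_sub_add_norm_sub (s v' w₃) (y' v') (y v')
    linarith

end glob

end Pool.Agent.Y720.MZ
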