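import Pool.Agent.Y720.WL.Cont

/-!
# From local points of a quartic to local points of its resolvent, close to a local point
(helper720)
-/

set_option autoImplicit false
set_option linter.unusedVariables false
set_option linter.unusedSectionVars false

open Filter Topology

namespace Pool.Agent.Y720.MZ

variable {K : Type*} [Field K] [CharZero K] {L : Type*} [NontriviallyNormedField L]

/-- **From the quartic to the resolvent, close to the origin.** -/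
theorem convL (σ : K →+* L) {w₀ : L} {q₀ : Fin 4 → L} (hw : w₀ ≠ 0) {r ρ : ℝ} (hr : 0 < r)
    (hρ : 0 < ρ) : ∃ δ : ℝ, 0 < δ ∧ ∀ (w : K) (q : Fin 4 → K), ‖σ w - w₀‖ < δ →
      (∀ j, ‖σ (q j) - q₀ j‖ < δ) → ∀ t Y : L, t ≠ 0 → ‖t‖ < δ → ‖Y - w₀‖ < δ →
      Y ^ 2 = σ w ^ 2 + σ (q 0) * t + σ (q 1) * t ^ 2 + σ (q 2) * t ^ 3 + σ (q 3) * t ^ 4 →
      w ≠ 0 ∧ ∃ x y : L, y ^ 2 = x ^ 3 + σ (q 1) * x ^ 2 +
        rb (σ w) (σ (q 0)) (σ (q 2)) (σ (q 3)) * x +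
        rc (σ w) (σ (q 0)) (σ (q 1)) (σ (q 2)) (σ (q 3)) ∧ x ≠ 0 ∧ y ≠ 0 ∧ ‖x / y‖ ≤ r ∧ ‖1 / y‖ ≤ ρ ∧
        Df (σ w) (σ (q 0)) (σ (q 2)) x y ≠ 0 ∧
        t = tf (σ w) (σ (q 0)) (σ (q 1)) (σ (q 2)) x y ∧
        Y = Yf (σ w) (σ (q 0)) (σ (q 1)) (σ (q 2)) x y := by
  have : CharZero L := charZero_of_injective_ringHom σ.injective
  have hw' : w₀ ≠ 0 := hw
  -- the functions
  let Xt : (L × (Fin 4 → L) × L × L) → L := fun e => 2 * e.1 * (e.2.2.2 + e.1) + e.2.1 0 * e.2.2.1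
  let Nt : (L × (Fin 4 → L) × L × L) → L := fun e => 4 * e.1 ^ 2 * (Xt e + e.2.1 1 * e.2.2.1 ^ 2) -
    e.2.1 0 ^ 2 * e.2.2.1 ^ 2
  let Yt : (L × (Fin 4 → L) × L × L) → L := fun e => (Nt e + e.2.1 0 * Xt e * e.2.2.1 +
    2 * e.1 ^ 2 * e.2.1 2 * e.2.2.1 ^ 3) / (2 * e.1)
  let e₀ : L × (Fin 4 → L) × L × L := (w₀, q₀, 0, w₀)
  have hXc : Continuous Xt := by fun_prop
  have hNc : Continuous Nt := by fun_prop
  have h2w : 2 * w₀ ≠ 0 := mul_ne_zero two_ne_zero hw'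
  have hYc : ContinuousAt Yt e₀ := by
    refine ContinuousAt.div (by fun_prop) (by fun_prop) h2w
  have hX0 : Xt e₀ = 4 * w₀ ^ 2 := by simp [Xt, e₀]; ring
  have hN0 : Nt e₀ = 16 * w₀ ^ 4 := by
    simp only [Nt, hX0]
    simp only [e₀]
    ring
  have hY0 : Yt e₀ = 8 * w₀ ^ 3 := by
    simp only [Yt, hN0, hX0]
    simp only [e₀]
    field_simp
    ring
  have hYne : Yt e₀ ≠ 0 := by
    rw [hY0]; exact mul_ne_zero (by norm_num) (pow_ne_zero 3 hw')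
  have hNne : Nt e₀ ≠ 0 := by
    rw [hN0]; exact mul_ne_zero (by norm_num) (pow_ne_zero 4 hw')
  have c1 : ContinuousAt (fun e : L × (Fin 4 → L) × L × L => e.2.2.1 * Xt e / Yt e) e₀ :=
    ContinuousAt.div (by fun_prop) hYc hYne
  have c2 : ContinuousAt (fun e : L × (Fin 4 → L) × L × L => e.2.2.1 ^ 3 / Yt e) e₀ :=
    ContinuousAt.div (by fun_prop) hYc hYne
  have v1 : ∀ᶠ e in 𝓝 e₀, ‖e.2.2.1 * Xt e / Yt e‖ < r := by
    have h1 := c1.tendsto.norm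
    have e1 : ‖e₀.2.2.1 * Xt e₀ / Yt e₀‖ = 0 := by simp [e₀]
    rw [e1] at h1
    exact h1.eventually_lt_const hr
  have v2 : ∀ᶠ e in 𝓝 e₀, ‖e.2.2.1 ^ 3 / Yt e‖ < ρ := by
    have h1 := c2.tendsto.norm
    have e1 : ‖e₀.2.2.1 ^ 3 / Yt e₀‖ = 0 := by simp [e₀]
    rw [e1] at h1
    exact h1.eventually_lt_const hρ
  have v3 : ∀ᶠ e in 𝓝 e₀, Yt e ≠ 0 := hYc.eventually_ne hYne
  have v4 : ∀ᶠ e in 𝓝 e₀, Nt e ≠ 0 := hNc.continuousAt.eventually_ne hNne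
  have v6 : ∀ᶠ e in 𝓝 e₀, Xt e ≠ 0 := hXc.continuousAt.eventually_ne (by
    rw [hX0]; exact mul_ne_zero (by norm_num) (pow_ne_zero 2 hw'))
  have v5 : ∀ᶠ e : L × (Fin 4 → L) × L × L in 𝓝 e₀, e.1 ≠ 0 := continuousAt_fst.eventually_ne hw'
  obtain ⟨δ, hδ, hb⟩ := Metric.eventually_nhds_iff_ball.1 (v1.and (v2.and (v3.and (v4.and (v5.and v6)))))
  refine ⟨δ, hδ, fun w q hww hq t Y ht0 ht hY hYe => ?_⟩
  obtain ⟨b1, b2, b3, b4, b5, b6⟩ := hb (σ w, fun j => σ (q j), t, Y) (by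
    rw [Metric.mem_ball, Prod.dist_eq, Prod.dist_eq, Prod.dist_eq]
    refine max_lt ?_ (max_lt ?_ (max_lt ?_ ?_))
    · rw [dist_eq_norm]; exact hww
    · rw [dist_pi_lt_iff hδ]
      intro j
      rw [dist_eq_norm]
      exact hq j
    · rw [dist_eq_norm, sub_zero]; exact ht
    · rw [dist_eq_norm]; exact hY)
  simp only at b1 b2 b3 b4 b5 b6
  set e : L × (Fin 4 → L) × L × L := (σ w, fun j => σ (q j), t, Y) with he
  have h2w' : 2 * σ w ≠ 0 := mul_ne_zero two_ne_zero b5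
  set x : L := Xt e / t ^ 2 with hx
  set y : L := Yt e / t ^ 3 with hy
  have hxe : t ^ 2 * x = 2 * σ w * (Y + σ w) + σ (q 0) * t := by
    rw [hx, mul_div_cancel₀ _ (pow_ne_zero 2 ht0)]
  have hXe : Xt e = t ^ 2 * x := by rw [hxe]
  have hNe : Nt e = t ^ 2 * Nf (σ w) (σ (q 0)) (σ (q 1)) x := by
    have : Nt e = 4 * σ w ^ 2 * (Xt e + σ (q 1) * t ^ 2) - σ (q 0) ^ 2 * t ^ 2 := rfl
    rw [this, hXe, Nf]; ring
  have hYe' : 2 * σ w * Yt e = Nt e + σ (q 0) * Xt e * t + 2 * σ w ^ 2 * σ (q 2) * t ^ 3 := by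
    have : Yt e = (Nt e + σ (q 0) * Xt e * t + 2 * σ w ^ 2 * σ (q 2) * t ^ 3) / (2 * σ w) := rfl
    rw [this, mul_div_cancel₀ _ h2w']
  have hye : Yt e = t ^ 3 * y := by rw [hy, mul_div_cancel₀ _ (pow_ne_zero 3 ht0)]
  have hDf : t * Df (σ w) (σ (q 0)) (σ (q 2)) x y = Nf (σ w) (σ (q 0)) (σ (q 1)) x := by
    apply mul_left_cancel₀ (pow_ne_zero 2 ht0)
    rw [← hNe, Df]
    rw [hye, hXe] at hYe'
    linear_combination hYe'
  obtain ⟨g1, g2⟩ := from_quartic b5 ht0 hYe hxe hDf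
  have hNf : Nf (σ w) (σ (q 0)) (σ (q 1)) x ≠ 0 := by
    intro h0
    apply b4
    rw [hNe, h0, mul_zero]
  have hDf0 : Df (σ w) (σ (q 0)) (σ (q 2)) x y ≠ 0 := by
    intro h0
    rw [h0, mul_zero] at hDf
    exact hNf hDf.symm
  have htf : t = tf (σ w) (σ (q 0)) (σ (q 1)) (σ (q 2)) x y := by
    rw [tf, ← hDf, mul_div_assoc, div_self hDf0, mul_one]
  refine ⟨fun h0 => b5 (by rw [h0, map_zero]), x, y, g1, ?_, ?_, ?_, ?_, hDf0, htf, ?_⟩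
  · rw [hx]; exact div_ne_zero b6 (pow_ne_zero 2 ht0)
  · rw [hy]; exact div_ne_zero b3 (pow_ne_zero 3 ht0)
  · have : x / y = t * Xt e / Yt e := by rw [hx, hy]; field_simp
    rw [this]; exact b1.le
  · have : 1 / y = t ^ 3 / Yt e := by rw [hy]; field_simp
    rw [this]; exact b2.le
  · rw [Yf, ← htf]; exact g2

end Pool.Agent.Y720.MZ
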