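import Pool.Agent.Y720.WL.Np
import Pool.Agent.Y720.WL.LemR

/-!
# Double covers of products of projective lines with trivial canonical class (helper720)
-/

set_option autoImplicit false
set_option linter.unusedVariables false
set_option linter.unusedSectionVars false

open Filter Topology

namespace Pool.Agent.Y720.MZ

section alg

variable {F : Type*} [Field F] [CharZero F] {α : Type*} [Fintype α]

/-- a double root on a line makes the discriminant zero -/
lemma Tq_root {f : MvPolynomial α F} {z e : α → F} (h : (rst f z e).natDegree ≤ 4)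
    (hT : Tq f e z ≠ 0) {M : Type*} [Field M] [Algebra F M] {s : M}
    (h0 : Polynomial.aeval s (rst f z e) = 0) :
    Polynomial.aeval s (Polynomial.derivative (rst f z e)) ≠ 0 := by
  intro h1
  rw [rst_qpol h, qpol] at h0 h1
  simp only [Polynomial.derivative_add, Polynomial.derivative_mul, Polynomial.derivative_C,
    Polynomial.derivative_X, Polynomial.derivative_X_pow, zero_mul, zero_add, mul_one, map_add,
    map_mul, map_pow, Polynomial.aeval_C, Polynomial.aeval_X, Polynomial.aeval_natCast,
    Nat.cast_ofNat, map_ofNat, Nat.add_one_sub_one, pow_one] at h0 h1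
  set φ := algebraMap F M
  set q₀ := MvPolynomial.eval z f
  set q₁ := cq f z e 0
  set q₂ := cq f z e 1
  set q₃ := cq f z e 2
  set q₄ := cq f z e 3
  have h2 := dc_shift s (φ q₀) (φ q₁) (φ q₂) (φ q₃) (φ q₄)
  have e0 : φ q₀ + s * φ q₁ + s ^ 2 * φ q₂ + s ^ 3 * φ q₃ + s ^ 4 * φ q₄ = 0 := by
    linear_combination h0
  have e1 : φ q₁ + 2 * s * φ q₂ + 3 * s ^ 2 * φ q₃ + 4 * s ^ 3 * φ q₄ = 0 := by
    linear_combination h1
  rw [e0, e1, map_dc] at h2
  have e2 : ∀ a b c : M, dc 0 0 a b c = 0 := by
    intro a b c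
    rw [dc, dsc]
    ring
  rw [e2] at h2
  apply hT
  exact (map_eq_zero φ).1 h2.symm

lemma degreeOf_pderiv_le {f : MvPolynomial α F} {i j : α} {n : ℕ} (h : f.degreeOf i ≤ n) :
    (MvPolynomial.pderiv j f).degreeOf i ≤ n := by
  rw [MvPolynomial.degreeOf_le_iff] at h ⊢
  intro m hm
  rw [MvPolynomial.mem_support_iff, MvPolynomial.coeff_pderiv] at hm
  have h1 := h (m + Finsupp.single j 1) (MvPolynomial.mem_support_iff.2 (left_ne_zero_of_mul hm))
  rw [Finsupp.add_apply] at h1
  omega

lemma degreeOf_map_le {S : Type*} [Field S] (φ : F →+* S) {f : MvPolynomial α F} {i : α} {n : ℕ}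
    (h : f.degreeOf i ≤ n) : (MvPolynomial.map φ f).degreeOf i ≤ n := by
  rw [MvPolynomial.degreeOf_le_iff] at h ⊢
  intro m hm
  exact h m (MvPolynomial.support_map_subset _ _ hm)

variable [DecidableEq α]

/-- the condition for the transfer -/
lemma Tr_gen {g : MvPolynomial α F} {a j : α} {z : α → F} {d : ℕ}
    (hd : (rst g z (Pi.single a 1)).natDegree = d) (hd4 : d ≤ 4)
    (hj : (rst (MvPolynomial.pderiv j g) z (Pi.single a 1)).natDegree ≤ d)
    (hT : Tq g (Pi.single a 1) z ≠ 0)
    (hW : MvPolynomial.eval z g * MvPolynomial.eval z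
      (MvPolynomial.pderiv a (MvPolynomial.pderiv j g)) ≠
      MvPolynomial.eval z (MvPolynomial.pderiv a g) * MvPolynomial.eval z (MvPolynomial.pderiv j g))
    (hTj : Tq g (Pi.single j 1) z ≠ 0) : Tr g (Pi.single a 1) (Pi.single j 1) z := by
  constructor
  · by_contra hcon
    push Not at hcon
    set φ := algebraMap F (AlgebraicClosure F) with hφ
    set Q := rst g z (Pi.single a 1) with hQ
    set P := rst (MvPolynomial.pderiv j g) z (Pi.single a 1) with hP
    have hQe : ∀ s : AlgebraicClosure F, (Q.map φ).eval s = Polynomial.aeval s Q := fun s => by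
      rw [hφ, Polynomial.eval_map_algebraMap]
    have hPe : ∀ s : AlgebraicClosure F, (P.map φ).eval s = Polynomial.aeval s P := fun s => by
      rw [hφ, Polynomial.eval_map_algebraMap]
    have hQ4 : Q.natDegree ≤ 4 := by omega
    have hroots : ∀ s : AlgebraicClosure F, (Q.map φ).eval s = 0 → (P.map φ).eval s = 0 := by
      intro s hs
      rw [hQe] at hs
      have h1 := Tq_root hQ4 hT hs
      rw [rst_deriv, aeval_rst] at h1
      rw [hQ, aeval_rst] at hs
      have h2 := hcon s hs h1
      rw [hPe, hP, aeval_rst]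
      rwa [dd_single] at h2
    have z0 : z + (0 : F) • (Pi.single a 1 : α → F) = z := by simp
    have hQ0 : Q.eval 0 = MvPolynomial.eval z g := by rw [hQ, rst_eval, z0]
    have hQ1 : (Polynomial.derivative Q).eval 0 = MvPolynomial.eval z (MvPolynomial.pderiv a g) := by
      rw [hQ, rst_deriv, rst_eval, z0, dd_single]
    have hP0 : P.eval 0 = MvPolynomial.eval z (MvPolynomial.pderiv j g) := by
      rw [hP, rst_eval, z0]
    have hP1 : (Polynomial.derivative P).eval 0 =
        MvPolynomial.eval z (MvPolynomial.pderiv a (MvPolynomial.pderiv j g)) := by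
      rw [hP, rst_deriv, rst_eval, z0, dd_single]
    have hQne : Q ≠ 0 := by
      intro h0
      exact Tq_root (M := F) (s := 0) hQ4 hT (by rw [← hQ, h0, map_zero])
        (by rw [← hQ, h0, Polynomial.derivative_zero, map_zero])
    have hPne : P ≠ 0 := by
      intro h0
      apply hW
      rw [← hP1, ← hP0, h0, Polynomial.derivative_zero, Polynomial.eval_zero, mul_zero, mul_zero]
    have hQm : Q.map φ ≠ 0 := (Polynomial.map_ne_zero_iff φ.injective).2 hQne
    have hPm : P.map φ ≠ 0 := (Polynomial.map_ne_zero_iff φ.injective).2 hPne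
    have hnd : (Q.map φ).roots.Nodup := by
      classical
      rw [Multiset.nodup_iff_count_le_one]
      intro r
      rw [Polynomial.count_roots]
      by_contra hlt
      push Not at hlt
      obtain ⟨h1, h2⟩ := (Polynomial.one_lt_rootMultiplicity_iff_isRoot hQm).1 hlt
      rw [Polynomial.IsRoot.def, hQe] at h1
      apply Tq_root hQ4 hT h1
      rw [Polynomial.derivative_map, Polynomial.IsRoot.def, hφ,
        Polynomial.eval_map_algebraMap] at h2
      exact h2
    obtain ⟨R, hR⟩ := (IsAlgClosed.dvd_iff_roots_le_roots hQm hPm).2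
      ((Multiset.le_iff_subset hnd).2 fun r hr => by
        rw [Polynomial.mem_roots hPm]
        exact hroots r ((Polynomial.mem_roots hQm).1 hr))
    have hRne : R ≠ 0 := by
      rintro rfl
      rw [mul_zero] at hR
      exact hPm hR
    have hRd : R.natDegree = 0 := by
      have h1 : (P.map φ).natDegree = (Q.map φ).natDegree + R.natDegree := by
        rw [hR, Polynomial.natDegree_mul hQm hRne]
      rw [Polynomial.natDegree_map, Polynomial.natDegree_map, hd] at h1
      omega
    obtain ⟨c, hc⟩ : ∃ c, R = Polynomial.C c := ⟨_, Polynomial.eq_C_of_natDegree_eq_zero hRd⟩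
    rw [hc] at hR
    apply hW
    apply φ.injective
    rw [map_mul, map_mul, ← hQ0, ← hQ1, ← hP0, ← hP1]
    have k1 : φ (P.eval 0) = φ (Q.eval 0) * c := by
      have h1 := congrArg (Polynomial.eval 0) hR
      rw [Polynomial.eval_mul, Polynomial.eval_C] at h1
      rw [← map_zero φ, Polynomial.eval_map_apply, Polynomial.eval_map_apply] at h1
      exact h1
    have k2 : φ ((Polynomial.derivative P).eval 0) = φ ((Polynomial.derivative Q).eval 0) * c := by
      have h1 := congrArg (fun p => (Polynomial.derivative p).eval 0) hR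
      simp only [Polynomial.derivative_mul, Polynomial.derivative_C, mul_zero, add_zero,
        Polynomial.eval_mul, Polynomial.eval_C, Polynomial.derivative_map] at h1
      rw [← map_zero φ, Polynomial.eval_map_apply, Polynomial.eval_map_apply] at h1
      exact h1
    rw [k1, k2]
    ring
  · exact ⟨0, by
      have : (fun b => z b + 0 * (Pi.single a 1 : α → F) b) = z := by funext b; ring
      rw [this]; exact hTj⟩

end alg

section pol

variable {K : Type*} [Field K] [CharZero K] {α : Type*} [Fintype α] [DecidableEq α]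

/-- the factor for two variables -/
noncomputable def Wf (f : MvPolynomial α K) (i j : α) : MvPolynomial α K :=
  if i = j then 1 else
    f * MvPolynomial.pderiv i (MvPolynomial.pderiv j f) -
      MvPolynomial.pderiv i f * MvPolynomial.pderiv j f

/-- the bad divisor of a double cover -/
noncomputable def NK (f : MvPolynomial α K) : MvPolynomial α K :=
  f * (∏ j, TqP f (Pi.single j 1) * gk f (Pi.single j 1) (f.degreeOf j)) * ∏ i, ∏ j, Wf f i j

lemma NK_ne {f : MvPolynomial α K} [Nonempty α]
    (hd : ∀ j, 3 ≤ f.degreeOf j ∧ f.degreeOf j ≤ 4 ∧ ∃ z : α → K,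
      (rst f z (Pi.single j 1)).Separable ∧ (rst f z (Pi.single j 1)).natDegree = f.degreeOf j)
    (hW : ∀ i j, i ≠ j → f * MvPolynomial.pderiv i (MvPolynomial.pderiv j f) ≠
      MvPolynomial.pderiv i f * MvPolynomial.pderiv j f) : NK f ≠ 0 := by
  refine mul_ne_zero (mul_ne_zero ?_ (Finset.prod_ne_zero_iff.2 fun j _ => ?_))
    (Finset.prod_ne_zero_iff.2 fun i _ => Finset.prod_ne_zero_iff.2 fun j _ => ?_)
  · rintro rfl
    obtain ⟨j⟩ := ‹Nonempty α›
    have := (hd j).1
    rw [MvPolynomial.degreeOf_zero] at this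
    omega
  · obtain ⟨h1, h2, z, h3, h4⟩ := hd j
    refine mul_ne_zero (fun h0 => ?_) fun h0 => ?_
    · apply Tq_ne (by omega) h3 (by omega)
      rw [← TqP_eval, h0, map_zero]
    · have h5 : (rst f z (Pi.single j 1)).coeff (rst f z (Pi.single j 1)).natDegree = 0 := by
        rw [h4, ← gk_eval, h0, map_zero]
      rw [Polynomial.coeff_natDegree, Polynomial.leadingCoeff_eq_zero] at h5
      rw [h5, Polynomial.natDegree_zero] at h4
      omega
  · unfold Wf
    by_cases h : i = j
    · rw [if_pos h]; exact one_ne_zero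
    · rw [if_neg h]; exact sub_ne_zero.2 (hW i j h)

lemma NK_spec {f : MvPolynomial α K} (hd : ∀ j, f.degreeOf j ≤ 4) {S : Type*} [Field S]
    [CharZero S] (φ : K →+* S) {z : α → S}
    (h : MvPolynomial.eval z (MvPolynomial.map φ (NK f)) ≠ 0) :
    MvPolynomial.eval z (MvPolynomial.map φ f) ≠ 0 ∧
    (∀ j, Tq (MvPolynomial.map φ f) (Pi.single j 1) z ≠ 0) ∧
    ∀ i j, i ≠ j → Tr (MvPolynomial.map φ f) (Pi.single i 1) (Pi.single j 1) z := by
  have hs : ∀ i : α, (fun a => φ ((Pi.single i 1 : α → K) a)) = Pi.single i 1 := by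
    intro i
    funext a
    by_cases h : a = i
    · subst h; simp
    · rw [Pi.single_eq_of_ne h, Pi.single_eq_of_ne h, map_zero]
  simp only [NK, map_mul, map_prod] at h
  obtain ⟨h1, h3⟩ := ne_zero_and_ne_zero_of_mul h
  obtain ⟨h1, h2⟩ := ne_zero_and_ne_zero_of_mul h1
  have h4 : ∀ j, Tq (MvPolynomial.map φ f) (Pi.single j 1) z ≠ 0 ∧
      (rst (MvPolynomial.map φ f) z (Pi.single j 1)).coeff (f.degreeOf j) ≠ 0 := by
    intro j
    obtain ⟨h5, h6⟩ := ne_zero_and_ne_zero_of_mul
      (Finset.prod_ne_zero_iff.1 h2 j (Finset.mem_univ j))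
    rw [TqP_map, hs, TqP_eval] at h5
    rw [gk_map, hs, gk_eval] at h6
    exact ⟨h5, h6⟩
  refine ⟨h1, fun j => (h4 j).1, fun i j hij => ?_⟩
  have h7 := Finset.prod_ne_zero_iff.1 (Finset.prod_ne_zero_iff.1 h3 i (Finset.mem_univ i)) j
    (Finset.mem_univ j)
  rw [Wf, if_neg hij, map_sub, map_sub, map_mul, map_mul, map_mul, map_mul,
    ← MvPolynomial.pderiv_map, ← MvPolynomial.pderiv_map, ← MvPolynomial.pderiv_map] at h7
  refine Tr_gen (d := f.degreeOf i) ?_ (hd i)
    (deg_rst (degreeOf_pderiv_le (degreeOf_map_le φ le_rfl)) z) (h4 i).1 (sub_ne_zero.1 h7) (h4 j).1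
  refine le_antisymm (deg_rst (degreeOf_map_le φ le_rfl) z) ?_
  exact Polynomial.le_natDegree_of_ne_zero (h4 i).2

end pol

end Pool.Agent.Y720.MZ
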