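import Pool.Agent.Y720.WL.Cy2
import Pool.Agent.Y720.MZ.Tw

/-!
# Double covers of Kummer type (helper720)
-/

set_option autoImplicit false
set_option linter.unusedVariables false
set_option linter.unusedSectionVars false

open WeierstrassCurve Filter Topology

namespace Pool.Agent.Y720.MZ

section alg

variable {K : Type*} [Field K] [CharZero K]

lemma qpol_comp (q₀ q₁ q₂ q₃ q₄ t : K) :
    (qpol q₀ q₁ q₂ q₃ q₄).comp (Polynomial.C t + Polynomial.X) =
      qpol (q₀ + q₁ * t + q₂ * t ^ 2 + q₃ * t ^ 3 + q₄ * t ^ 4)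
        (q₁ + 2 * q₂ * t + 3 * q₃ * t ^ 2 + 4 * q₄ * t ^ 3)
        (q₂ + 3 * q₃ * t + 6 * q₄ * t ^ 2) (q₃ + 4 * q₄ * t) q₄ := by
  simp only [qpol, Polynomial.add_comp, Polynomial.mul_comp, Polynomial.C_comp,
    Polynomial.X_comp, Polynomial.pow_comp, map_add, map_mul, map_pow, map_ofNat]
  ring

lemma coeff_qpol (q₀ q₁ q₂ q₃ q₄ : K) :
    (qpol q₀ q₁ q₂ q₃ q₄).coeff 1 = q₁ ∧ (qpol q₀ q₁ q₂ q₃ q₄).coeff 2 = q₂ ∧
    (qpol q₀ q₁ q₂ q₃ q₄).coeff 3 = q₃ ∧ (qpol q₀ q₁ q₂ q₃ q₄).coeff 4 = q₄ := by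
  refine ⟨?_, ?_, ?_, ?_⟩ <;>
    simp [qpol, Polynomial.coeff_X, Polynomial.coeff_C, Polynomial.coeff_X_pow]

lemma eq_qpol {q : Polynomial K} (h : q.natDegree ≤ 4) :
    q = qpol (q.coeff 0) (q.coeff 1) (q.coeff 2) (q.coeff 3) (q.coeff 4) := by
  conv_lhs => rw [q.as_sum_range_C_mul_X_pow' (n := 5) (by omega)]
  simp [Finset.sum_range_succ, qpol]

end alg

section tor

variable {K : Type*} [Field K] [NumberField K]

/-- **Infinite order on all the twists**, outside a finite set of abscissas. -/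
theorem io_twist {q : Polynomial K} (hs : q.Separable) (hd : 3 ≤ q.natDegree)
    (hd4 : q.natDegree ≤ 4) : ∃ T : Set K, T.Finite ∧ ∀ t₀ ∉ T, ∀ C' w : K, w ≠ 0 →
      w ^ 2 = C' * q.eval t₀ → IOt (w, fun j : Fin 4 =>
        (Polynomial.C C' * q.comp (Polynomial.C t₀ + Polynomial.X)).coeff ((j : ℕ) + 1)) := by
  classical
  obtain ⟨q₀, q₁, q₂, q₃, q₄, rfl⟩ : ∃ q₀ q₁ q₂ q₃ q₄, q = qpol q₀ q₁ q₂ q₃ q₄ :=
    ⟨_, _, _, _, _, eq_qpol hd4⟩
  letI : DecidableEq K := Classical.decEq K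
  have hdc := dc_ne_zero hs hd
  obtain ⟨Ξ, hΞ, htors⟩ := torsion_finite (K := K) (a := q₂) (b := q₁ * q₃ - 4 * q₀ * q₄)
    (c := q₁ ^ 2 * q₄ + q₀ * q₃ ^ 2 - 4 * q₀ * q₂ * q₄) hdc
  set P := qpol q₀ q₁ q₂ q₃ q₄ with hP
  have hPe : ∀ t, P.eval t = q₀ + q₁ * t + q₂ * t ^ 2 + q₃ * t ^ 3 + q₄ * t ^ 4 :=
    eval_qpol q₀ q₁ q₂ q₃ q₄
  have hP0 : P ≠ 0 := by
    intro h
    rw [h, Polynomial.natDegree_zero] at hd
    omega
  have hP1 : ∀ t, (Polynomial.derivative P).eval t =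
      q₁ + 2 * q₂ * t + 3 * q₃ * t ^ 2 + 4 * q₄ * t ^ 3 := by
    intro t
    simp only [hP, qpol, Polynomial.derivative_add, Polynomial.derivative_C_mul,
      Polynomial.derivative_C, Polynomial.derivative_X, Polynomial.derivative_X_pow,
      Polynomial.eval_add, Polynomial.eval_mul, Polynomial.eval_C, Polynomial.eval_pow,
      Polynomial.eval_X, Polynomial.eval_one, Polynomial.eval_zero]
    push_cast
    ring
  -- the exceptional set
  set M : K → Polynomial K := fun ξ => Polynomial.C (q₂ + ξ) +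
    Polynomial.C (2 * q₃) * Polynomial.X + Polynomial.C (4 * q₄) * Polynomial.X ^ 2 with hM
  have hMe : ∀ ξ t, (M ξ).eval t = (q₂ + 3 * q₃ * t + 6 * q₄ * t ^ 2) -
      (q₃ * t + 2 * q₄ * t ^ 2) + ξ := by
    intro ξ t
    simp only [hM, Polynomial.eval_add, Polynomial.eval_mul, Polynomial.eval_C,
      Polynomial.eval_X, Polynomial.eval_pow]
    ring
  have hfin : ∀ ξ : K, {t : K | (Polynomial.derivative P).eval t ^ 2 =
      4 * P.eval t * (M ξ).eval t}.Finite := by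
    intro ξ
    by_contra hinf
    have e : Polynomial.derivative P ^ 2 = Polynomial.C 4 * P * M ξ := by
      apply Polynomial.eq_of_infinite_eval_eq
      refine Set.Infinite.mono ?_ hinf
      intro t ht
      change (Polynomial.derivative P ^ 2).eval t = (Polynomial.C 4 * P * M ξ).eval t
      rw [Polynomial.eval_pow, Polynomial.eval_mul, Polynomial.eval_mul, Polynomial.eval_C]
      exact ht
    have h1 : P ∣ Polynomial.derivative P ^ 2 := ⟨Polynomial.C 4 * M ξ, by rw [e]; ring⟩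
    have h2 : IsCoprime P (Polynomial.derivative P) := hs
    have h3 : IsCoprime P (Polynomial.derivative P ^ 2) := h2.pow_right
    have h4 : IsUnit P := h3.isUnit_of_dvd' dvd_rfl h1
    have h5 := Polynomial.natDegree_eq_zero_of_isUnit h4
    omega
  refine ⟨⋃ ξ ∈ Ξ, {t : K | (Polynomial.derivative P).eval t ^ 2 =
    4 * P.eval t * (M ξ).eval t}, hΞ.biUnion fun ξ _ => hfin ξ, ?_⟩
  intro t₀ ht2 C' w hw hwC
  rw [Set.mem_iUnion₂] at ht2
  have hC' : C' ≠ 0 := by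
    rintro rfl
    rw [zero_mul] at hwC
    exact hw (pow_eq_zero_iff two_ne_zero |>.1 hwC)
  have hq0 : P.eval t₀ ≠ 0 := by
    intro h0
    rw [h0, mul_zero] at hwC
    exact hw (pow_eq_zero_iff two_ne_zero |>.1 hwC)
  set a0 := q₀ + q₁ * t₀ + q₂ * t₀ ^ 2 + q₃ * t₀ ^ 3 + q₄ * t₀ ^ 4 with ha0
  set a1 := q₁ + 2 * q₂ * t₀ + 3 * q₃ * t₀ ^ 2 + 4 * q₄ * t₀ ^ 3 with ha1
  set a2 := q₂ + 3 * q₃ * t₀ + 6 * q₄ * t₀ ^ 2 with ha2
  set a3 := q₃ + 4 * q₄ * t₀ with ha3
  have hPa : P.eval t₀ = a0 := hPe t₀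
  have hcomp : P.comp (Polynomial.C t₀ + Polynomial.X) = qpol a0 a1 a2 a3 q₄ :=
    qpol_comp q₀ q₁ q₂ q₃ q₄ t₀
  rw [hPa] at hwC hq0
  have hθ : (w, fun j : Fin 4 => (Polynomial.C C' *
      P.comp (Polynomial.C t₀ + Polynomial.X)).coeff ((j : ℕ) + 1)) =
      (w, ![C' * a1, C' * a2, C' * a3, C' * q₄]) := by
    rw [hcomp]
    ext1
    · rfl
    · obtain ⟨e1, e2, e3, e4⟩ := coeff_qpol a0 a1 a2 a3 q₄
      funext j
      change (Polynomial.C C' * qpol a0 a1 a2 a3 q₄).coeff ((j : ℕ) + 1) =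
        ![C' * a1, C' * a2, C' * a3, C' * q₄] j
      rw [Polynomial.coeff_C_mul]
      fin_cases j
      · exact congrArg _ e1
      · exact congrArg _ e2
      · exact congrArg _ e3
      · exact congrArg _ e4
  rw [hθ]
  refine ⟨?_, ?_⟩
  · have h1 := dq_eq w (C' * a1) (C' * a2) (C' * a3) (C' * q₄)
    rw [dq] at h1
    change dsc (C' * a2) (rb w (C' * a1) (C' * a3) (C' * q₄))
      (rc w (C' * a1) (C' * a2) (C' * a3) (C' * q₄)) ≠ 0
    rw [h1, hwC, dc_smul]
    have h2 := dc_shift t₀ q₀ q₁ q₂ q₃ q₄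
    have h3 : dc a0 a1 a2 a3 q₄ = dc q₀ q₁ q₂ q₃ q₄ := by
      rw [← h2]
      congr 1 <;> simp only [ha0, ha1, ha2, ha3] <;> ring
    rw [h3]
    exact mul_ne_zero (pow_ne_zero 6 hC') hdc
  · intro h n hn
    refine htors C' hC' (q₃ * t₀ + 2 * q₄ * t₀ ^ 2) _ _ _ ?_ ?_ ?_ _ _ h ?_ n hn
    · change C' * a2 = _
      rw [ha2]; ring
    · change rb w (C' * a1) (C' * a3) (C' * q₄) = _
      rw [rb, hwC, ← shift_b, ha0, ha1, ha3]
      ring
    · change rc w (C' * a1) (C' * a2) (C' * a3) (C' * q₄) = _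
      rw [rc, hwC, ← shift_c, ha0, ha1, ha2, ha3]
      ring
    · intro hmem
      apply ht2
      refine ⟨_, hmem, ?_⟩
      change (Polynomial.derivative P).eval t₀ ^ 2 = 4 * P.eval t₀ * (M _).eval t₀
      rw [hMe, hP1, hPa, ← ha1, ← ha2]
      change a1 ^ 2 = 4 * a0 * (a2 - (q₃ * t₀ + 2 * q₄ * t₀ ^ 2) +
        (xs w (C' * a1) (C' * a2) / C' + (q₃ * t₀ + 2 * q₄ * t₀ ^ 2)))
      rw [xs, hwC]
      field_simp
      ring

end tor

section kf

variable {K : Type*} [Field K] [CharZero K] {α : Type*} [Fintype α] [DecidableEq α]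

/-- the polynomial `c ∏ q_j(z_j)` -/
noncomputable def kf (c : K) (q : α → Polynomial K) : MvPolynomial α K :=
  MvPolynomial.C c * ∏ j, Polynomial.aeval (MvPolynomial.X j) (q j)

lemma kf_eval (c : K) (q : α → Polynomial K) (z : α → K) :
    MvPolynomial.eval z (kf c q) = c * ∏ j, (q j).eval (z j) := by
  rw [kf, map_mul, MvPolynomial.eval_C, map_prod]
  congr 1
  refine Finset.prod_congr rfl fun j _ => ?_
  rw [Polynomial.aeval_def, Polynomial.hom_eval₂, MvPolynomial.eval_X]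
  have : (MvPolynomial.eval z).comp (algebraMap K (MvPolynomial α K)) = RingHom.id K := by
    ext a; simp
  rw [this, Polynomial.eval₂_id]

lemma kf_map {S : Type*} [Field S] [CharZero S] (φ : K →+* S) (c : K) (q : α → Polynomial K) :
    MvPolynomial.map φ (kf c q) = kf (φ c) (fun j => (q j).map φ) := by
  rw [kf, kf, map_mul, MvPolynomial.map_C, map_prod]
  congr 1
  refine Finset.prod_congr rfl fun j _ => ?_
  rw [Polynomial.aeval_def, Polynomial.hom_eval₂, MvPolynomial.map_X, Polynomial.aeval_def,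
    Polynomial.eval₂_map]
  congr 1
  ext a; simp

lemma kf_rst (c : K) (q : α → Polynomial K) (z : α → K) (j : α) :
    rst (kf c q) z (Pi.single j 1) =
      Polynomial.C (c * ∏ i ∈ Finset.univ.erase j, (q i).eval (z i)) *
        (q j).comp (Polynomial.C (z j) + Polynomial.X) := by
  rw [rst, kf, map_mul, MvPolynomial.aeval_C, map_prod, ← Finset.mul_prod_erase _ _
    (Finset.mem_univ j), map_mul, map_prod]
  have h1 : ∀ i, MvPolynomial.aeval (fun i => Polynomial.C (z i) +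
      Polynomial.C ((Pi.single j 1 : α → K) i) * Polynomial.X)
      (Polynomial.aeval (MvPolynomial.X i : MvPolynomial α K) (q i)) =
      (q i).comp (Polynomial.C (z i) + Polynomial.C ((Pi.single j 1 : α → K) i) *
        Polynomial.X) := by
    intro i
    rw [← Polynomial.aeval_algHom_apply, MvPolynomial.aeval_X, Polynomial.comp,
      Polynomial.aeval_def]
    rfl
  rw [h1]
  have h2 : ∏ i ∈ Finset.univ.erase j, MvPolynomial.aeval (fun i => Polynomial.C (z i) +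
      Polynomial.C ((Pi.single j 1 : α → K) i) * Polynomial.X)
      (Polynomial.aeval (MvPolynomial.X i : MvPolynomial α K) (q i)) =
      ∏ i ∈ Finset.univ.erase j, Polynomial.C ((q i).eval (z i)) := by
    refine Finset.prod_congr rfl fun i hi => ?_
    rw [h1, Pi.single_eq_of_ne (Finset.ne_of_mem_erase hi), Polynomial.C_0, zero_mul, add_zero,
      Polynomial.comp_C]
  rw [h2, Pi.single_eq_same, Polynomial.C_1, one_mul]
  change Polynomial.C c * _ = _
  ring

end kf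

end Pool.Agent.Y720.MZ
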