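import Pool.Agent.Y720.WL.Ku

/-!
# Double covers of Kummer type, II (helper720)
-/

set_option autoImplicit false
set_option linter.unusedVariables false
set_option linter.unusedSectionVars false

open Filter Topology

namespace Pool.Agent.Y720.MZ

section sep

variable {K : Type*} [Field K] [CharZero K]

lemma sep_shift {q : Polynomial K} (hs : q.Separable) {c : K} (hc : c ≠ 0) (t : K) :
    (Polynomial.C c * q.comp (Polynomial.C t + Polynomial.X)).Separable := by
  have h1 : IsCoprime q (Polynomial.derivative q) := hs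
  have h2 := h1.map (Polynomial.compRingHom (Polynomial.C t + Polynomial.X))
  have hu : IsUnit (Polynomial.C c) := Polynomial.isUnit_C.2 (isUnit_iff_ne_zero.2 hc)
  have h3 : IsCoprime (Polynomial.C c * q.comp (Polynomial.C t + Polynomial.X))
      (Polynomial.C c * (Polynomial.derivative q).comp (Polynomial.C t + Polynomial.X)) :=
    (isCoprime_mul_unit_left hu _ _).2 h2
  have h4 : Polynomial.derivative (Polynomial.C c * q.comp (Polynomial.C t + Polynomial.X)) =
      Polynomial.C c * (Polynomial.derivative q).comp (Polynomial.C t + Polynomial.X) := by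
    rw [Polynomial.derivative_C_mul, Polynomial.derivative_comp]
    simp
  rw [Polynomial.Separable, h4]
  exact h3

lemma deg_shift {q : Polynomial K} {c : K} (hc : c ≠ 0) (t : K) :
    (Polynomial.C c * q.comp (Polynomial.C t + Polynomial.X)).natDegree = q.natDegree := by
  rw [Polynomial.natDegree_C_mul hc, Polynomial.natDegree_comp]
  have : (Polynomial.C t + Polynomial.X : Polynomial K).natDegree = 1 := by
    rw [add_comm]
    exact Polynomial.natDegree_X_add_C t
  rw [this, mul_one]

variable {α : Type*} [Fintype α] [DecidableEq α]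

lemma kf_deg {c : K} {q : α → Polynomial K} {j : α} {n : ℕ} (h : (q j).natDegree ≤ n) (z : α → K) :
    (rst (kf c q) z (Pi.single j 1)).natDegree ≤ n := by
  rw [kf_rst]
  by_cases h0 : c * ∏ i ∈ Finset.univ.erase j, (q i).eval (z i) = 0
  · rw [h0]; simp
  · rw [deg_shift h0]; exact h

lemma kf_Tq {c : K} {q : α → Polynomial K} {j : α} (hs : (q j).Separable) (h3 : 3 ≤ (q j).natDegree)
    (h4 : (q j).natDegree ≤ 4) {z : α → K} {w : K} (hP : onX (kf c q) z w) (hw : w ≠ 0) :
    Tq (kf c q) (Pi.single j 1) z ≠ 0 := by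
  have h0 : c * ∏ i ∈ Finset.univ.erase j, (q i).eval (z i) ≠ 0 := by
    intro h0
    apply hw
    have h1 : w ^ 2 = _ := hP
    rw [kf_eval, ← Finset.mul_prod_erase _ _ (Finset.mem_univ j)] at h1
    have h2 : w ^ 2 = 0 := by linear_combination h1 + (q j).eval (z j) * h0
    exact pow_eq_zero_iff two_ne_zero |>.1 h2
  apply Tq_ne (kf_deg h4 z)
  · rw [kf_rst]; exact sep_shift hs h0 _
  · rw [kf_rst, deg_shift h0]; exact h3

end sep

section tor

variable {K : Type*} [Field K] [NumberField K] {α : Type*} [Fintype α] [DecidableEq α]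

/-- infinite order in all directions outside finitely many fibres -/
theorem kf_io {q : α → Polynomial K} (hq : ∀ j, (q j).Separable ∧ 3 ≤ (q j).natDegree ∧
    (q j).natDegree ≤ 4) : ∃ T : α → Set K, (∀ j, (T j).Finite) ∧ ∀ (c : K) (z : α → K) (w : K),
      onX (kf c q) z w → w ≠ 0 → ∀ j, z j ∉ T j → IOt (th (kf c q) (Pi.single j 1) z w) := by
  choose T hT hb using fun j => io_twist (hq j).1 (hq j).2.1 (hq j).2.2
  refine ⟨T, hT, fun c z w hP hw j hj => ?_⟩
  have h1 := hb j (z j) hj (c * ∏ i ∈ Finset.univ.erase j, (q i).eval (z i)) w hw (by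
    rw [show w ^ 2 = _ from hP, kf_eval, ← Finset.mul_prod_erase _ _ (Finset.mem_univ j)]
    ring)
  rw [← kf_rst] at h1
  exact h1

end tor

section places

variable {K : Type*} [Field K] [CharZero K] {ι : Type*} [Finite ι] {p : ι → ℕ}
  [hp : ∀ i, Fact (p i).Prime] {α : Type*} [Fintype α] [DecidableEq α]

/-- p-adic places, infinite order in all the directions -/
theorem all_p [Nonempty ι] (hinj : Function.Injective p) (σ : ∀ i, K →+* ℚ_[p i])
    {f : MvPolynomial α K} (hd : ∀ j z, (rst f z (Pi.single j 1)).natDegree ≤ 4)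
    {x₀ : ∀ i, α → ℚ_[p i]} {y₀ : ∀ i, ℚ_[p i]}
    (hP : ∀ i, onX (MvPolynomial.map (σ i) f) (x₀ i) (y₀ i)) (hw : ∀ i, y₀ i ≠ 0)
    (h : ∀ j i, IOt (th (MvPolynomial.map (σ i) f) (Pi.single j 1) (x₀ i) (y₀ i))) :
    IntL σ f x₀ y₀ := by
  refine int_of_mvL hP hw fun j => mv_ioL (hw_p hinj σ) (hd j) hw fun i => ?_
  rw [single_mapα]; exact h j i

/-- the real place and p-adic places -/
theorem all_r [Nonempty ι] (hinj : Function.Injective p) (σ : ∀ i, K →+* ℚ_[p i]) (τ : K →+* ℝ)
    {f : MvPolynomial α K} (hd : ∀ j z, (rst f z (Pi.single j 1)).natDegree ≤ 4)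
    {x₀ : ∀ v, α → Lv p v} {y₀ : ∀ v, Lv p v}
    (hP : ∀ v, onX (MvPolynomial.map (sv σ τ v) f) (x₀ v) (y₀ v)) (hw : ∀ v, y₀ v ≠ 0)
    (hT : ∀ j, Tq (MvPolynomial.map (sv σ τ none) f) (Pi.single j 1) (x₀ none) ≠ 0)
    (h : ∀ j i, IOt (th (MvPolynomial.map (sv σ τ (some i)) f) (Pi.single j 1)
      (x₀ (some i)) (y₀ (some i)))) :
    IntL (sv σ τ) f x₀ y₀ := by
  refine int_of_mvL hP hw fun j => mv_ior hinj (hd j) hP hw ?_ fun i => ?_
  · rw [single_mapα]
    exact hT j
  · rw [single_mapα]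
    exact h j i

end places

end Pool.Agent.Y720.MZ
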