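import Pool.Agent.Y720.WL.Conv

/-!
# Rational points of a genus one curve near a local point, uniformly in a family (helper720)
-/

set_option autoImplicit false
set_option linter.unusedVariables false
set_option linter.unusedSectionVars false

open WeierstrassCurve Filter Topology

namespace Pool.Agent.Y720.MZ

section tend

variable {K : Type*} [Field K] [CharZero K]

/-- the filter of the parameters is finer than the neighbourhoods of a local parameter -/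
def TnL {L : Type*} [NormedField L] (σ : K →+* L) (l : Filter (K × (Fin 4 → K)))
    (θ₀ : L × (Fin 4 → L)) : Prop :=
  Tendsto (fun θ => σ θ.1) l (𝓝 θ₀.1) ∧ ∀ j, Tendsto (fun θ => σ (θ.2 j)) l (𝓝 (θ₀.2 j))

variable {L : Type*} [NontriviallyNormedField L] {σ : K →+* L} {l : Filter (K × (Fin 4 → K))}
  {θ₀ : L × (Fin 4 → L)}

lemma TnL.tA (h : TnL σ l θ₀) : Tendsto (fun θ => σ (tA θ)) l (𝓝 (tA θ₀)) := h.2 1

lemma TnL.tB (h : TnL σ l θ₀) : Tendsto (fun θ => σ (tB θ)) l (𝓝 (tB θ₀)) := by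
  simp only [MZ.tB, rb, map_sub, map_mul, map_pow, map_ofNat]
  exact ((h.2 0).mul (h.2 2)).sub (((h.1.pow 2).const_mul 4).mul (h.2 3))

lemma TnL.tC (h : TnL σ l θ₀) : Tendsto (fun θ => σ (tC θ)) l (𝓝 (tC θ₀)) := by
  simp only [MZ.tC, rc, map_sub, map_add, map_mul, map_pow, map_ofNat]
  exact ((((h.2 0).pow 2).mul (h.2 3)).add ((h.1.pow 2).mul ((h.2 2).pow 2))).sub
    ((((h.1.pow 2).const_mul 4).mul (h.2 1)).mul (h.2 3))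

lemma TnL.tX (h : TnL σ l θ₀) (hw : θ₀.1 ≠ 0) :
    Tendsto (fun θ => σ (tX θ)) l (𝓝 (tX θ₀)) := by
  have : CharZero L := charZero_of_injective_ringHom σ.injective
  simp only [MZ.tX, xs, map_sub, map_div₀, map_mul, map_pow, map_ofNat]
  exact (((h.2 0).pow 2).div ((h.1.pow 2).const_mul 4)
    (mul_ne_zero (by norm_num) (pow_ne_zero 2 hw))).sub (h.2 1)

lemma TnL.tY (h : TnL σ l θ₀) (hw : θ₀.1 ≠ 0) :
    Tendsto (fun θ => σ (tY θ)) l (𝓝 (tY θ₀)) := by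
  have : CharZero L := charZero_of_injective_ringHom σ.injective
  have h1 := h.tX hw
  have e : ∀ θ : K × (Fin 4 → K), σ (MZ.tY θ) =
      (σ (θ.2 0) * σ (MZ.tX θ) + 2 * σ θ.1 ^ 2 * σ (θ.2 2)) / (2 * σ θ.1) := by
    intro θ
    simp only [MZ.tY, ys, MZ.tX, map_add, map_div₀, map_mul, map_pow, map_ofNat]
  have e' : MZ.tY θ₀ = (θ₀.2 0 * MZ.tX θ₀ + 2 * θ₀.1 ^ 2 * θ₀.2 2) / (2 * θ₀.1) := rfl
  simp only [e]
  rw [e']
  exact ((((h.2 0).mul h1).add (((h.1.pow 2).const_mul 2).mul (h.2 2)))).div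
    (h.1.const_mul 2) (mul_ne_zero (by norm_num) hw)

lemma TnL.dsc (h : TnL σ l θ₀) : Tendsto (fun θ => σ (dsc (MZ.tA θ) (MZ.tB θ) (MZ.tC θ))) l
    (𝓝 (dsc (MZ.tA θ₀) (MZ.tB θ₀) (MZ.tC θ₀))) := by
  simp only [MZ.dsc, map_sub, map_add, map_mul, map_pow, map_ofNat]
  have ha := h.tA
  have hb := h.tB
  have hc := h.tC
  exact (((((ha.pow 2).mul (hb.pow 2)).sub ((hb.pow 3).const_mul 4)).sub
    (((ha.pow 3).const_mul 4).mul hc)).sub ((hc.pow 2).const_mul 27)).add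
    (((ha.const_mul 18).mul hb).mul hc)

lemma TnL.ne (h : TnL σ l θ₀) (hw : θ₀.1 ≠ 0) : ∀ᶠ θ in l, θ.1 ≠ 0 := by
  filter_upwards [h.1.eventually_ne hw] with θ h1 h2
  apply h1
  rw [h2, map_zero]

lemma TnL.dsc_ne (h : TnL σ l θ₀) (hD : MZ.dsc (MZ.tA θ₀) (MZ.tB θ₀) (MZ.tC θ₀) ≠ 0) :
    ∀ᶠ θ in l, MZ.dsc (MZ.tA θ) (MZ.tB θ) (MZ.tC θ) ≠ 0 := by
  filter_upwards [h.dsc.eventually_ne hD] with θ h1 h2
  apply h1
  rw [h2, map_zero]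

/-- the constant of the family -/
noncomputable def CL (θ₀ : L × (Fin 4 → L)) : ℝ := 1 + ‖tA θ₀‖ + ‖tB θ₀‖ + ‖tC θ₀‖

lemma CL_ge (θ₀ : L × (Fin 4 → L)) : 1 ≤ CL θ₀ := by
  unfold CL
  have := norm_nonneg (tA θ₀)
  have := norm_nonneg (tB θ₀)
  have := norm_nonneg (tC θ₀)
  linarith

lemma Bd_baseL (θ₀ : L × (Fin 4 → L)) : Bd (av (RingHom.id L)) (tA θ₀) (tB θ₀) (tC θ₀)
    (CL θ₀) (1 / (100 * CL θ₀)) := by
  have h1 := CL_ge θ₀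
  have a1 := norm_nonneg (tA θ₀)
  have a2 := norm_nonneg (tB θ₀)
  have a3 := norm_nonneg (tC θ₀)
  refine ⟨h1, ?_, ?_, ?_, by positivity, ?_⟩
  · change ‖tA θ₀‖ ≤ 1 + ‖tA θ₀‖ + ‖tB θ₀‖ + ‖tC θ₀‖
    linarith
  · change ‖tB θ₀‖ ≤ 1 + ‖tA θ₀‖ + ‖tB θ₀‖ + ‖tC θ₀‖
    linarith
  · change ‖tC θ₀‖ ≤ 1 + ‖tA θ₀‖ + ‖tB θ₀‖ + ‖tC θ₀‖
    linarith
  · have : CL θ₀ ≠ 0 := by linarith
    field_simp
    norm_num

lemma TnL.Bd (h : TnL σ l θ₀) : ∀ᶠ θ in l, Bd (av σ) (MZ.tA θ) (MZ.tB θ) (MZ.tC θ)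
    (CL θ₀) (1 / (100 * CL θ₀)) := by
  have hb := Bd_baseL θ₀
  have a1 := norm_nonneg (MZ.tA θ₀)
  have a2 := norm_nonneg (MZ.tB θ₀)
  have a3 := norm_nonneg (MZ.tC θ₀)
  have e : ‖MZ.tA θ₀‖ < CL θ₀ ∧ ‖MZ.tB θ₀‖ < CL θ₀ ∧ ‖MZ.tC θ₀‖ < CL θ₀ := by
    unfold CL
    refine ⟨?_, ?_, ?_⟩ <;> linarith
  filter_upwards [h.tA.norm.eventually_lt_const e.1, h.tB.norm.eventually_lt_const e.2.1,
    h.tC.norm.eventually_lt_const e.2.2] with θ h1 h2 h3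
  exact ⟨hb.hC, h1.le, h2.le, h3.le, hb.hρ, hb.hCρ⟩

end tend

section pl

variable {K : Type*} [Field K] [CharZero K] [DecidableEq K] {l : Filter (K × (Fin 4 → K))}

/-- the multiple of the point in the family, at a p-adic place -/
lemma ev_pL {p : ℕ} [Fact p.Prime] [DecidableEq ℚ_[p]] {σ : K →+* ℚ_[p]}
    {θ₀ : ℚ_[p] × (Fin 4 → ℚ_[p])} (hT : TnL σ l θ₀) (hw : θ₀.1 ≠ 0)
    (h₀ : (cv (tA θ₀) (tB θ₀) (tC θ₀)).toAffine.Nonsingular (tX θ₀) (tY θ₀))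
    (hinf : ∀ n : ℕ, n ≠ 0 → n • (.some _ _ h₀ : Pt (tA θ₀) (tB θ₀) (tC θ₀)) ≠ 0) {N : ℕ}
    (hN : N ≠ 0) {r : ℝ} (hr : r ≤ 1 / (100 * CL θ₀))
    (hNb : Nb (av (RingHom.id _)) (1 / (100 * CL θ₀)) r
      (N • (.some _ _ h₀ : Pt (tA θ₀) (tB θ₀) (tC θ₀)))) :
    ∀ᶠ θ in l, ∀ h : (cv (tA θ) (tB θ) (tC θ)).toAffine.Nonsingular (tX θ) (tY θ),
      Nb (av σ) (1 / (100 * CL θ₀))
        (av (RingHom.id _) (TT (N • (.some _ _ h₀ : Pt (tA θ₀) (tB θ₀) (tC θ₀)))))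
        (N • (.some _ _ h : Pt (tA θ) (tB θ) (tC θ))) ∧
      av σ (TT (N • (.some _ _ h : Pt (tA θ) (tB θ) (tC θ)))) =
        av (RingHom.id _) (TT (N • (.some _ _ h₀ : Pt (tA θ₀) (tB θ₀) (tC θ₀)))) := by
  obtain ⟨X, Y, X₀, Y₀, ⟨h', he⟩, hev, hX, hY⟩ := cont_multL σ hT.tA hT.tB hT.tC (hT.tX hw)
    (hT.tY hw) h₀ hinf N hN
  have hne := TT_ne (Bd_baseL θ₀) hr hNb (hinf N hN)
  rw [he] at hNb hne ⊢
  rw [TT_some] at hne ⊢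
  obtain ⟨k1, k2, k3⟩ := (Nb_some h').1 hNb
  have t1 : Tendsto (fun θ => σ (X θ / Y θ)) l (𝓝 (X₀ / Y₀)) := by
    simp only [map_div₀]
    exact hX.div hY k1
  have t2 : Tendsto (fun θ => σ (1 / Y θ)) l (𝓝 (1 / Y₀)) := by
    simp only [map_div₀, map_one]
    exact tendsto_const_nhds.div hY k1
  filter_upwards [hev, padic_lc t1 hne, padic_lc t2 (one_div_ne_zero k1),
    hY.eventually_ne k1] with θ e1 e2 e3 e4 h
  obtain ⟨h2, e5⟩ := e1 h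
  rw [e5, TT_some, Nb_some]
  have e6 : Y θ ≠ 0 := fun h0 => e4 (by rw [h0, map_zero])
  exact ⟨⟨e6, e2.le, e3.le.trans k3⟩, e2⟩

/-- the multiple of the point in the family, at a real place -/
lemma ev_rL [DecidableEq ℝ] {σ : K →+* ℝ} {θ₀ : ℝ × (Fin 4 → ℝ)} (hT : TnL σ l θ₀)
    (hw : θ₀.1 ≠ 0)
    (h₀ : (cv (tA θ₀) (tB θ₀) (tC θ₀)).toAffine.Nonsingular (tX θ₀) (tY θ₀))
    (hinf : ∀ n : ℕ, n ≠ 0 → n • (.some _ _ h₀ : Pt (tA θ₀) (tB θ₀) (tC θ₀)) ≠ 0) {N : ℕ}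
    (hN : N ≠ 0)
    (hNb : Nb (av (RingHom.id _)) (1 / (100 * CL θ₀)) (1 / (100 * CL θ₀) / 6)
      (N • (.some _ _ h₀ : Pt (tA θ₀) (tB θ₀) (tC θ₀)))) :
    ∀ᶠ θ in l, ∀ h : (cv (tA θ) (tB θ) (tC θ)).toAffine.Nonsingular (tX θ) (tY θ),
      Nb (av σ) (1 / (100 * CL θ₀)) (1 / (100 * CL θ₀) / 3)
        (N • (.some _ _ h : Pt (tA θ) (tB θ) (tC θ))) := by
  obtain ⟨X, Y, X₀, Y₀, ⟨h', he⟩, hev, hX, hY⟩ := cont_multL σ hT.tA hT.tB hT.tC (hT.tX hw)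
    (hT.tY hw) h₀ hinf N hN
  have hB := Bd_baseL θ₀
  set ρ := 1 / (100 * CL θ₀) with hρ
  have hρ0 := hB.hρ
  have hρ1 := hB.ρ_le
  rw [he] at hNb
  obtain ⟨k1, k2, k3⟩ := (Nb_some h').1 hNb
  have k4 := s_small hB (k2.trans (by linarith)) k3 (ts_eqn k1 (cv_ns.1 h').1)
  have k5 : ‖1 / Y₀‖ < ρ := by
    refine lt_of_le_of_lt k4 ?_
    have k6 := (av (RingHom.id ℝ)).nonneg (X₀ / Y₀)
    calc 2 * (av (RingHom.id ℝ)) (X₀ / Y₀) ^ 3 ≤ 2 * (ρ / 6) ^ 3 := by gcongr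
      _ < ρ := by nlinarith [mul_pos hρ0 hρ0]
  have k7 : ‖X₀ / Y₀‖ < ρ / 3 := lt_of_le_of_lt k2 (by linarith)
  have t1 : Tendsto (fun θ => σ (X θ / Y θ)) l (𝓝 (X₀ / Y₀)) := by
    simp only [map_div₀]
    exact hX.div hY k1
  have t2 : Tendsto (fun θ => σ (1 / Y θ)) l (𝓝 (1 / Y₀)) := by
    simp only [map_div₀, map_one]
    exact tendsto_const_nhds.div hY k1
  filter_upwards [hev, t1.norm.eventually_lt_const k7, t2.norm.eventually_lt_const k5,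
    hY.eventually_ne k1] with θ e1 e2 e3 e4 h
  obtain ⟨h2, e5⟩ := e1 h
  rw [e5, Nb_some]
  have e6 : Y θ ≠ 0 := fun h0 => e4 (by rw [h0, map_zero])
  exact ⟨e6, e2.le, e3.le⟩

end pl

section main

variable {K : Type*} [Field K] [CharZero K] {ι : Type*} [Fintype ι] {p : ι → ℕ}
  [hp : ∀ i, Fact (p i).Prime]

/-- the filter of the parameters close to given local ones -/
noncomputable def lL (σ : ∀ i, K →+* ℚ_[p i]) (τ : K →+* ℝ)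
    (θ₀ : ∀ i, ℚ_[p i] × (Fin 4 → ℚ_[p i])) (θ' : ℝ × (Fin 4 → ℝ)) :
    Filter (K × (Fin 4 → K)) := comap (gT σ τ) (𝓝 (θ₀, θ'))

variable {σ : ∀ i, K →+* ℚ_[p i]} {τ : K →+* ℝ} {θ₀ : ∀ i, ℚ_[p i] × (Fin 4 → ℚ_[p i])}
  {θ' : ℝ × (Fin 4 → ℝ)}

lemma TnL_p (i : ι) : TnL (σ i) (lL σ τ θ₀ θ') (θ₀ i) := by
  have h0 : Tendsto (gT σ τ) (lL σ τ θ₀ θ') (𝓝 (θ₀, θ')) := tendsto_comap
  have h1 : Continuous fun e : (∀ i, ℚ_[p i] × (Fin 4 → ℚ_[p i])) × (ℝ × (Fin 4 → ℝ)) =>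
      (e.1 i).1 := (continuous_fst.comp ((continuous_apply i).comp continuous_fst))
  have h2 : ∀ j, Continuous fun e : (∀ i, ℚ_[p i] × (Fin 4 → ℚ_[p i])) × (ℝ × (Fin 4 → ℝ)) =>
      (e.1 i).2 j := fun j => (continuous_apply j).comp
        (continuous_snd.comp ((continuous_apply i).comp continuous_fst))
  exact ⟨(h1.tendsto _).comp h0, fun j => ((h2 j).tendsto _).comp h0⟩

lemma TnL_r : TnL τ (lL σ τ θ₀ θ') θ' := by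
  have h0 : Tendsto (gT σ τ) (lL σ τ θ₀ θ') (𝓝 (θ₀, θ')) := tendsto_comap
  have h1 : Continuous fun e : (∀ i, ℚ_[p i] × (Fin 4 → ℚ_[p i])) × (ℝ × (Fin 4 → ℝ)) =>
      e.2.1 := continuous_fst.comp continuous_snd
  have h2 : ∀ j, Continuous fun e : (∀ i, ℚ_[p i] × (Fin 4 → ℚ_[p i])) × (ℝ × (Fin 4 → ℝ)) =>
      e.2.2 j := fun j => (continuous_apply j).comp (continuous_snd.comp continuous_snd)
  exact ⟨(h1.tendsto _).comp h0, fun j => ((h2 j).tendsto _).comp h0⟩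

lemma lL_ev {Φ : K × (Fin 4 → K) → Prop} (h : ∀ᶠ θ in lL σ τ θ₀ θ', Φ θ) :
    ∃ δ : ℝ, 0 < δ ∧ ∀ θ : K × (Fin 4 → K), (∀ i, ‖σ i θ.1 - (θ₀ i).1‖ < δ) →
      (∀ i j, ‖σ i (θ.2 j) - (θ₀ i).2 j‖ < δ) → |τ θ.1 - θ'.1| < δ →
      (∀ j, |τ (θ.2 j) - θ'.2 j| < δ) → Φ θ := by
  obtain ⟨U, hU, hs⟩ := mem_comap.1 h
  obtain ⟨δ, hδ, hb⟩ := Metric.mem_nhds_iff.1 hU
  refine ⟨δ, hδ, fun θ h1 h2 h3 h4 => ?_⟩
  apply hs
  apply hb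
  rw [Metric.mem_ball, Prod.dist_eq]
  refine max_lt ?_ ?_
  · rw [dist_pi_lt_iff hδ]
    intro i
    rw [Prod.dist_eq]
    refine max_lt ?_ ?_
    · rw [dist_eq_norm]; exact h1 i
    · rw [dist_pi_lt_iff hδ]
      intro j
      rw [dist_eq_norm]; exact h2 i j
  · rw [Prod.dist_eq]
    refine max_lt ?_ ?_
    · rw [dist_eq_norm]; exact h3
    · rw [dist_pi_lt_iff hδ]
      intro j
      rw [dist_eq_norm]; exact h4 j

/-- a multiple which is close to the origin at all the places, for local points -/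
lemma near_allL [∀ i, DecidableEq ℚ_[p i]] [DecidableEq ℝ]
    (hD : ∀ i, dsc (tA (θ₀ i)) (tB (θ₀ i)) (tC (θ₀ i)) ≠ 0)
    (hD' : dsc (tA θ') (tB θ') (tC θ') ≠ 0)
    {S : ∀ i, Pt (tA (θ₀ i)) (tB (θ₀ i)) (tC (θ₀ i))}
    {S' : Pt (tA θ') (tB θ') (tC θ')} (hS : ∀ i, ∀ n : ℕ, n ≠ 0 → n • S i ≠ 0)
    (hS' : ∀ n : ℕ, n ≠ 0 → n • S' ≠ 0) {r : ι → ℝ} (hr0 : ∀ i, 0 < r i)
    (hr : ∀ i, r i ≤ 1 / (100 * CL (θ₀ i))) {r' : ℝ} (hr' : 0 < r') :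
    ∃ N : ℕ, N ≠ 0 ∧ (∀ i, Nb (av (RingHom.id _)) (1 / (100 * CL (θ₀ i))) (r i) (N • S i)) ∧
      Nb (av (RingHom.id _)) (1 / (100 * CL θ')) r' (N • S') := by
  classical
  have h1 : ∀ s : Finset ι, ∃ N : ℕ, N ≠ 0 ∧ ∀ i ∈ s,
      Nb (av (RingHom.id _)) (1 / (100 * CL (θ₀ i))) (r i) (N • S i) := by
    intro s
    induction s using Finset.induction_on with
    | empty => exact ⟨1, one_ne_zero, by simp⟩
    | insert i s hi ih =>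
      obtain ⟨N, hN, hNs⟩ := ih
      obtain ⟨m, hm, hmN⟩ := accum_near (RingHom.id ℚ_[p i]) (hD i) (Bd_baseL (θ₀ i))
        (P := N • S i) (fun n hn => by
          rw [← mul_smul]; exact hS i _ (mul_ne_zero hn hN)) (hr0 i)
      refine ⟨m * N, mul_ne_zero hm hN, fun j hj => ?_⟩
      rw [mul_smul]
      rcases Finset.mem_insert.1 hj with rfl | hj
      · exact hmN
      · exact U2 (Bd_baseL (θ₀ j)) (hr j) (hNs j hj) m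
  obtain ⟨N, hN, hNs⟩ := h1 Finset.univ
  obtain ⟨m, hm, hmN⟩ := accum_near (RingHom.id ℝ) hD' (Bd_baseL θ') (P := N • S')
    (fun n hn => by rw [← mul_smul]; exact hS' _ (mul_ne_zero hn hN)) hr'
  refine ⟨m * N, mul_ne_zero hm hN, fun i => ?_, ?_⟩
  · rw [mul_smul]; exact U2 (Bd_baseL (θ₀ i)) (hr i) (hNs i (Finset.mem_univ i)) m
  · rw [mul_smul]; exact hmN

/-- **Rational points of a genus one curve close to a local point, uniformly.** -/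
theorem lemEL [DecidableEq K] [Nonempty ι] [∀ i, DecidableEq ℚ_[p i]] [DecidableEq ℝ]
    (hinj : Function.Injective p) (hw : ∀ i, (θ₀ i).1 ≠ 0) (hwr : θ'.1 ≠ 0)
    (hD : ∀ i, dsc (tA (θ₀ i)) (tB (θ₀ i)) (tC (θ₀ i)) ≠ 0)
    (hD' : dsc (tA θ') (tB θ') (tC θ') ≠ 0)
    (hS : ∀ i, ∀ h, ∀ n : ℕ, n ≠ 0 → n • (.some (tX (θ₀ i)) (tY (θ₀ i)) h :
      Pt (tA (θ₀ i)) (tB (θ₀ i)) (tC (θ₀ i))) ≠ 0)
    (hS' : ∀ h, ∀ n : ℕ, n ≠ 0 → n • (.some (tX θ') (tY θ') h :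
      Pt (tA θ') (tB θ') (tC θ')) ≠ 0) :
    ∃ δ : ℝ, 0 < δ ∧ ∀ θ : K × (Fin 4 → K), (∀ i, ‖σ i θ.1 - (θ₀ i).1‖ < δ) →
      (∀ i j, ‖σ i (θ.2 j) - (θ₀ i).2 j‖ < δ) → |τ θ.1 - θ'.1| < δ →
      (∀ j, |τ (θ.2 j) - θ'.2 j| < δ) →
      ∀ (t Y : ∀ i, ℚ_[p i]) (t' Y' : ℝ), (∀ i, ‖t i‖ < δ) → (∀ i, ‖Y i - (θ₀ i).1‖ < δ) →
      |t'| < δ → |Y' - θ'.1| < δ →
      (∀ i, Y i ^ 2 = qv (σ i θ.1) (fun j => σ i (θ.2 j)) (t i)) →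
      Y' ^ 2 = qv (τ θ.1) (fun j => τ (θ.2 j)) t' → ∀ η : ℝ, 0 < η →
      ∃ s Z : K, Z ^ 2 = qv θ.1 θ.2 s ∧ (∀ i, ‖σ i s - t i‖ < η ∧ ‖σ i Z - Y i‖ < η) ∧
        |τ s - t'| < η ∧ |τ Z - Y'| < η := by
  have hns := fun i => tns (hw i) (hD i)
  have hns' := tns hwr hD'
  have hinf := fun i => hS i (hns i)
  have hinf' := hS' hns'
  obtain ⟨N, hN, hNp, hNr⟩ := near_allL hD hD' hinf hinf'
    (r := fun i => min (1 / (100 * CL (θ₀ i))) ‖(p i : ℚ_[p i])‖)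
    (fun i => lt_min (Bd_baseL (θ₀ i)).hρ norm_p_pos) (fun i => min_le_left _ _)
    (r' := 1 / (100 * CL θ') / 6) (div_pos (Bd_baseL θ').hρ (by norm_num))
  set S₀ : ∀ i, Pt (tA (θ₀ i)) (tB (θ₀ i)) (tC (θ₀ i)) := fun i => .some _ _ (hns i) with hS₀
  set r : ι → ℝ := fun i => av (RingHom.id _) (TT (N • S₀ i)) with hr
  have hrm : ∀ i, r i ≤ min (1 / (100 * CL (θ₀ i))) ‖(p i : ℚ_[p i])‖ := fun i => (hNp i).le
  have hr1 : ∀ i, r i ≤ 1 / (100 * CL (θ₀ i)) := fun i => (hrm i).trans (min_le_left _ _)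
  have hrp : ∀ i, r i ≤ ‖(p i : ℚ_[p i])‖ := fun i => (hrm i).trans (min_le_right _ _)
  have hr0 : ∀ i, 0 < r i := fun i => (av (RingHom.id _)).pos
    (TT_ne (Bd_baseL (θ₀ i)) (min_le_left _ _) (hNp i) (hinf i N hN))
  have ev1 : ∀ᶠ θ in lL σ τ θ₀ θ', θ.1 ≠ 0 := TnL_r.ne hwr
  have ev2 : ∀ᶠ θ in lL σ τ θ₀ θ', dsc (tA θ) (tB θ) (tC θ) ≠ 0 := TnL_r.dsc_ne hD'
  have ev3 : ∀ᶠ θ in lL σ τ θ₀ θ', ∀ i, Bd (av (σ i)) (tA θ) (tB θ) (tC θ)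
      (CL (θ₀ i)) (1 / (100 * CL (θ₀ i))) := eventually_all.2 fun i => (TnL_p i).Bd
  have ev4 : ∀ᶠ θ in lL σ τ θ₀ θ', Bd (av τ) (tA θ) (tB θ) (tC θ)
      (CL θ') (1 / (100 * CL θ')) := TnL_r.Bd
  have ev5 := eventually_all.2 fun i => ev_pL (σ := σ i) (l := lL σ τ θ₀ θ') (TnL_p i) (hw i)
    (hns i) (hinf i) hN (min_le_left _ _) (hNp i)
  have ev6 := ev_rL (σ := τ) (l := lL σ τ θ₀ θ') TnL_r hwr hns' hinf' hN hNr
  obtain ⟨δ₁, hδ₁, hb⟩ := lL_ev (ev1.and (ev2.and (ev3.and (ev4.and (ev5.and ev6)))))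
  choose δp hδp hcp using fun i => convL (σ i) (w₀ := (θ₀ i).1) (q₀ := (θ₀ i).2) (hw i) (hr0 i)
    (Bd_baseL (θ₀ i)).hρ
  obtain ⟨δr, hδr, hcr⟩ := convL τ (w₀ := θ'.1) (q₀ := θ'.2) hwr
    (div_pos (Bd_baseL θ').hρ (by norm_num : (0 : ℝ) < 12)) (Bd_baseL θ').hρ
  obtain ⟨δ₂, hδ₂, hδ₂p⟩ := fin_min hδp
  obtain ⟨δ₃, hδ₃, hδ₃p⟩ := fin_min (f := fun i => ‖(θ₀ i).1‖) fun i =>
    norm_pos_iff.2 (hw i)
  have hw' : 0 < |θ'.1| := abs_pos.2 hwr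
  set δ := min (min δ₁ δ₂) (min δ₃ (min δr |θ'.1|)) with hδ
  have d1 : δ ≤ δ₁ := (min_le_left _ _).trans (min_le_left _ _)
  have d2 : δ ≤ δ₂ := (min_le_left _ _).trans (min_le_right _ _)
  have d3 : δ ≤ δ₃ := (min_le_right _ _).trans (min_le_left _ _)
  have d4 : δ ≤ δr := (min_le_right _ _).trans ((min_le_right _ _).trans (min_le_left _ _))
  have d5 : δ ≤ |θ'.1| := (min_le_right _ _).trans ((min_le_right _ _).trans (min_le_right _ _))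
  refine ⟨δ, lt_min (lt_min hδ₁ hδ₂) (lt_min hδ₃ (lt_min hδr hw')), ?_⟩
  intro θ h1 h2 h3 h4 t Y t' Y' ht hY ht' hY' he he' η hη
  obtain ⟨g1, g2, g3, g4, g5, g6⟩ := hb θ (fun i => (h1 i).trans_le d1)
    (fun i j => (h2 i j).trans_le d1) (h3.trans_le d1) (fun j => (h4 j).trans_le d1)
  have hnsθ := tns g1 g2
  -- the targets are moved away from zero
  have hp1 : ∀ i, ∃ s Z : ℚ_[p i], s ≠ 0 ∧ ‖s‖ < δ ∧ ‖Z - (θ₀ i).1‖ < δ ∧ ‖s - t i‖ < η / 2 ∧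
      ‖Z - Y i‖ < η / 2 ∧ Z ^ 2 = qv (σ i θ.1) (fun j => σ i (θ.2 j)) s := by
    intro i
    have hYne : Y i ≠ 0 := by
      intro h0
      have := hY i
      rw [h0, zero_sub, norm_neg] at this
      exact absurd (this.trans_le (d3.trans (hδ₃p i))) (lt_irrefl _)
    obtain ⟨s, Z, k1, k2, k3, k4⟩ := perturb (g := qv (σ i θ.1) (fun j => σ i (θ.2 j)))
      (by unfold qv; fun_prop) (he i) hYne
      (η := min (η / 2) (min (δ - ‖t i‖) (δ - ‖Y i - (θ₀ i).1‖)))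
      (lt_min (half_pos hη) (lt_min (sub_pos.2 (ht i)) (sub_pos.2 (hY i))))
    have k5 := k2.trans_le (min_le_left _ _)
    have k6 := k3.trans_le (min_le_left _ _)
    have k7 := k2.trans_le ((min_le_right _ _).trans (min_le_left _ _))
    have k8 := k3.trans_le ((min_le_right _ _).trans (min_le_right _ _))
    refine ⟨s, Z, k1, ?_, ?_, k5, k6, k4⟩
    · have : ‖s‖ ≤ ‖s - t i‖ + ‖t i‖ := by
        have := norm_add_le (s - t i) (t i)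
        rwa [sub_add_cancel] at this
      linarith
    · have : ‖Z - (θ₀ i).1‖ ≤ ‖Z - Y i‖ + ‖Y i - (θ₀ i).1‖ := by
        have := norm_add_le (Z - Y i) (Y i - (θ₀ i).1)
        rwa [sub_add_sub_cancel] at this
      linarith
  obtain ⟨s', Z', m1, m2, m3, m4, m5, m6⟩ : ∃ s Z : ℝ, s ≠ 0 ∧ |s| < δ ∧ |Z - θ'.1| < δ ∧
      |s - t'| < η / 2 ∧ |Z - Y'| < η / 2 ∧ Z ^ 2 = qv (τ θ.1) (fun j => τ (θ.2 j)) s := by
    have hYne : Y' ≠ 0 := by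
      intro h0
      have := hY'
      rw [h0, zero_sub, abs_neg] at this
      exact absurd (this.trans_le d5) (lt_irrefl _)
    obtain ⟨s, Z, k1, k2, k3, k4⟩ := perturb (g := qv (τ θ.1) (fun j => τ (θ.2 j)))
      (by unfold qv; fun_prop) he' hYne
      (η := min (η / 2) (min (δ - |t'|) (δ - |Y' - θ'.1|)))
      (lt_min (half_pos hη) (lt_min (sub_pos.2 ht') (sub_pos.2 hY')))
    rw [Real.norm_eq_abs] at k2 k3
    have k5 := k2.trans_le (min_le_left _ _)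
    have k6 := k3.trans_le (min_le_left _ _)
    have k7 := k2.trans_le ((min_le_right _ _).trans (min_le_left _ _))
    have k8 := k3.trans_le ((min_le_right _ _).trans (min_le_right _ _))
    refine ⟨s, Z, k1, ?_, ?_, k5, k6, k4⟩
    · have : |s| ≤ |s - t'| + |t'| := by
        have := abs_add_le (s - t') t'
        rwa [sub_add_cancel] at this
      linarith
    · have : |Z - θ'.1| ≤ |Z - Y'| + |Y' - θ'.1| := by
        have := abs_add_le (Z - Y') (Y' - θ'.1)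
        rwa [sub_add_sub_cancel] at this
      linarith
  choose s Z n1 n2 n3 n4 n5 n6 using hp1
  -- the points of the resolvents
  have hx1 : ∀ i, ∃ x y : ℚ_[p i], y ^ 2 = x ^ 3 + σ i (θ.2 1) * x ^ 2 +
      rb (σ i θ.1) (σ i (θ.2 0)) (σ i (θ.2 2)) (σ i (θ.2 3)) * x +
      rc (σ i θ.1) (σ i (θ.2 0)) (σ i (θ.2 1)) (σ i (θ.2 2)) (σ i (θ.2 3)) ∧ x ≠ 0 ∧ y ≠ 0 ∧
      ‖x / y‖ ≤ r i ∧ ‖1 / y‖ ≤ 1 / (100 * CL (θ₀ i)) ∧
      Df (σ i θ.1) (σ i (θ.2 0)) (σ i (θ.2 2)) x y ≠ 0 ∧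
      s i = tf (σ i θ.1) (σ i (θ.2 0)) (σ i (θ.2 1)) (σ i (θ.2 2)) x y ∧
      Z i = Yf (σ i θ.1) (σ i (θ.2 0)) (σ i (θ.2 1)) (σ i (θ.2 2)) x y := fun i =>
    (hcp i θ.1 θ.2 ((h1 i).trans_le (d2.trans (hδ₂p i)))
      (fun j => (h2 i j).trans_le (d2.trans (hδ₂p i))) (s i) (Z i) (n1 i)
      ((n2 i).trans_le (d2.trans (hδ₂p i))) ((n3 i).trans_le (d2.trans (hδ₂p i))) (n6 i)).2
  choose x y c1 c0 c2 c3 c4 c5 c6 c7 using hx1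
  obtain ⟨x', y', b1, b0, b2, b3, b4, b5, b6, b7⟩ := (hcr θ.1 θ.2 (h3.trans_le d4)
    (fun j => (h4 j).trans_le d4) s' Z' m1 (m2.trans_le d4) (m3.trans_le d4) m6).2
  choose ηp hηp hcc using fun i => conv_cont (σ i) (w := θ.1) (q₁ := θ.2 0) (q₂ := θ.2 1)
    (q₃ := θ.2 2) (q₄ := θ.2 3) (g3 i) g1 (c1 i) (c2 i) ((c3 i).trans (hr1 i)) (c4 i) (c5 i)
    (half_pos hη)
  have hρ' := (Bd_baseL θ').hρ
  obtain ⟨ηr, hηr, hccr⟩ := conv_cont τ (w := θ.1) (q₁ := θ.2 0) (q₂ := θ.2 1)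
    (q₃ := θ.2 2) (q₄ := θ.2 3) g4 g1 b1 b2 (b3.trans (by linarith)) b4 b5 (half_pos hη)
  obtain ⟨η₁, hη₁, hη₁p⟩ := fin_min hηp
  have hxy' : 0 < |x' / y'| := abs_pos.2 (div_ne_zero b0 b2)
  set ηη := min η₁ (min ηr |x' / y'|) with hηη
  have hηη0 : 0 < ηη := lt_min hη₁ (lt_min hηr hxy')
  -- the multiple
  set R := N • (.some _ _ hnsθ : Pt (tA θ) (tB θ) (tC θ)) with hR
  have hRi : ∀ n : ℕ, n ≠ 0 → n • R ≠ 0 := by
    obtain ⟨i⟩ := ‹Nonempty ι›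
    exact U7 (g3 i) (hr1 i) (hr0 i) (hrp i) (g5 i hnsθ).1 (g5 i hnsθ).2
  obtain ⟨n, hn1, hn2, hn3⟩ := fill_all (σ := σ) (τ := τ) hinj g2 g3 g4 hRi hr0 hr1 hrp
    (fun i => (g5 i hnsθ).1) (fun i => (g5 i hnsθ).2) (g6 hnsθ) (fun i => x i / y i) c3 (x' / y')
    (by rw [← Real.norm_eq_abs]; exact b3) hηη0
  have hTT : TT (n • R) ≠ 0 := by
    intro h0
    rw [h0, map_zero, zero_sub, abs_neg] at hn3
    exact absurd (hn3.trans_le ((min_le_right _ _).trans (min_le_right _ _))) (lt_irrefl _)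
  revert hn1 hn2 hn3 hTT
  generalize n • R = Q
  intro hn1 hn2 hn3 hTT
  rcases Q with _ | ⟨X, W, hQ⟩
  · exact absurd rfl hTT
  have hXW := (cv_ns.1 hQ).1
  simp only [TT_some] at hn1 hn3
  obtain ⟨hW, -, -⟩ := (Nb_some hQ).1 hn2
  have hA : ∀ i, _ := fun i => hcc i X W hXW hW
    (((Nb_some hQ).1 (hn1 i).1).2.1.trans (hr1 i)) ((Nb_some hQ).1 (hn1 i).1).2.2
    ((hn1 i).2.trans_le ((min_le_left _ _).trans (hη₁p i)))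
  obtain ⟨hB1, hB2, hB3⟩ := hccr X W hXW hW
    (((Nb_some hQ).1 hn2).2.1.trans (by linarith)) ((Nb_some hQ).1 hn2).2.2
    (hn3.trans_le ((min_le_right _ _).trans (min_le_left _ _)))
  refine ⟨tf θ.1 (θ.2 0) (θ.2 1) (θ.2 2) X W, Yf θ.1 (θ.2 0) (θ.2 1) (θ.2 2) X W,
    Yf_eqn g1 hXW hB1, fun i => ⟨?_, ?_⟩, ?_, ?_⟩
  · obtain ⟨-, a2, a3⟩ := hA i
    rw [← c6 i] at a2
    have := norm_sub_le_norm_sub_add_norm_sub (σ i (tf θ.1 (θ.2 0) (θ.2 1) (θ.2 2) X W)) (s i) (t i)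
    have := n4 i
    linarith
  · obtain ⟨-, a2, a3⟩ := hA i
    rw [← c7 i] at a3
    have := norm_sub_le_norm_sub_add_norm_sub (σ i (Yf θ.1 (θ.2 0) (θ.2 1) (θ.2 2) X W)) (Z i) (Y i)
    have := n5 i
    linarith
  · rw [← b6, Real.norm_eq_abs] at hB2
    have := abs_sub_le (τ (tf θ.1 (θ.2 0) (θ.2 1) (θ.2 2) X W)) s' t'
    linarith
  · rw [← b7, Real.norm_eq_abs] at hB3
    have := abs_sub_le (τ (Yf θ.1 (θ.2 0) (θ.2 1) (θ.2 2) X W)) Z' Y'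
    linarith

end main

end Pool.Agent.Y720.MZ
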