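import Pool.Agent.Y720.WL.LemE

/-!
# Rational points of a genus one curve near a local point, p-adic places only (helper720)
-/

set_option autoImplicit false
set_option linter.unusedVariables false
set_option linter.unusedSectionVars false

open WeierstrassCurve Filter Topology

namespace Pool.Agent.Y720.MZ

section fill

variable {K : Type*} [Field K] [CharZero K] [DecidableEq K] {a b c : K}
  {ι : Type*} [Fintype ι] {p : ι → ℕ} [hp : ∀ i, Fact (p i).Prime]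
  {σ : ∀ i, K →+* ℚ_[p i]} {C ρ : ι → ℝ}

/-- **Simultaneous filling, p-adic places only.** -/
theorem fill_p (hinj : Function.Injective p)
    (hB : ∀ i, Bd (av (σ i)) a b c (C i) (ρ i)) {R : Pt a b c}
    {r : ι → ℝ} (hr0 : ∀ i, 0 < r i) (hr : ∀ i, r i ≤ ρ i)
    (hrp : ∀ i, r i ≤ ‖(p i : ℚ_[p i])‖) (hR : ∀ i, Nb (av (σ i)) (ρ i) (r i) R)
    (hRr : ∀ i, av (σ i) (TT R) = r i)
    (ξ : ∀ i, ℚ_[p i]) (hξ : ∀ i, ‖ξ i‖ ≤ r i) {η : ℝ}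
    (hη : 0 < η) :
    ∃ n : ℤ, ∀ i, Nb (av (σ i)) (ρ i) (r i) (n • R) ∧ ‖σ i (TT (n • R)) - ξ i‖ < η := by
  classical
  -- the exponent
  obtain ⟨J, hJ⟩ : ∃ J : ℕ, ∀ i, ‖(p i : ℚ_[p i])‖ ^ J * r i < η := by
    have h1 : ∀ᶠ J : ℕ in atTop, ∀ i, ‖(p i : ℚ_[p i])‖ ^ J * r i < η := by
      rw [Filter.eventually_all]
      intro i
      have h2 := (tendsto_pow_atTop_nhds_zero_of_lt_one (norm_nonneg _)
        (norm_p_lt (p := p i))).mul_const (r i)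
      rw [zero_mul] at h2
      exact h2.eventually_lt_const hη
    exact h1.exists
  choose nn hnn using fun i => U5 (hB i) (hr i) (hr0 i) (hrp i) (hR i) (hRr i) (ξ i) (hξ i) J
  -- the remainder
  obtain ⟨n0, hn0⟩ := Nat.chineseRemainderOfFinset nn (fun i => p i ^ J) Finset.univ
    (fun i _ => pow_ne_zero _ (hp i).out.ne_zero) (by
      intro i _ j _ hij
      exact Nat.Coprime.pow _ _ ((Nat.coprime_primes (hp i).out (hp j).out).2 fun h =>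
        hij (hinj h)))
  refine ⟨(n0 : ℤ), fun i => ⟨U2z (hB i) (hr i) (hR i) n0, ?_⟩⟩
  obtain ⟨k, hk⟩ : ∃ k : ℤ, (n0 : ℤ) = (nn i : ℤ) + k * (p i : ℤ) ^ J := by
    have h1 : ((p i : ℤ) ^ J) ∣ (n0 : ℤ) - nn i := by
      have := (Nat.modEq_iff_dvd.1 (hn0 i (Finset.mem_univ i)).symm)
      push_cast at this
      exact this
    obtain ⟨k1, hk1⟩ := h1
    refine ⟨k1, ?_⟩
    linear_combination hk1
  have h3 := U6 (hB i) (hr i) (hr0 i) (hrp i) (hR i) (hRr i) J hk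
  have e : σ i (TT ((n0 : ℤ) • R)) - ξ i = (σ i (TT ((n0 : ℤ) • R)) - σ i (TT (nn i • R))) +
      (σ i (TT (nn i • R)) - ξ i) := by ring
  rw [e]
  rw [natCast_zsmul] at h3
  exact (Padic.nonarchimedean _ _).trans_lt (max_lt (h3.trans_lt (hJ i))
    ((hnn i).trans_lt (hJ i)))

end fill

section main

variable {K : Type*} [Field K] [CharZero K] {ι : Type*} [Fintype ι] {p : ι → ℕ}
  [hp : ∀ i, Fact (p i).Prime]

/-- the p-adic images of the parameters -/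
noncomputable def gTp (σ : ∀ i, K →+* ℚ_[p i]) (θ : K × (Fin 4 → K)) : ∀ i, ℚ_[p i] × (Fin 4 → ℚ_[p i]) :=
  fun i => (σ i θ.1, fun j => σ i (θ.2 j))

/-- the filter of the parameters close to given local ones -/
noncomputable def lLp (σ : ∀ i, K →+* ℚ_[p i])
    (θ₀ : ∀ i, ℚ_[p i] × (Fin 4 → ℚ_[p i])) :
    Filter (K × (Fin 4 → K)) := comap (gTp σ) (𝓝 θ₀)

variable {σ : ∀ i, K →+* ℚ_[p i]} {θ₀ : ∀ i, ℚ_[p i] × (Fin 4 → ℚ_[p i])}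

lemma TnLp_p (i : ι) : TnL (σ i) (lLp σ θ₀) (θ₀ i) := by
  have h0 : Tendsto (gTp σ) (lLp σ θ₀) (𝓝 θ₀) := tendsto_comap
  have h1 : Continuous fun e : (∀ i, ℚ_[p i] × (Fin 4 → ℚ_[p i])) =>
      (e i).1 := continuous_fst.comp (continuous_apply i)
  have h2 : ∀ j, Continuous fun e : (∀ i, ℚ_[p i] × (Fin 4 → ℚ_[p i])) =>
      (e i).2 j := fun j => (continuous_apply j).comp (continuous_snd.comp (continuous_apply i))
  exact ⟨(h1.tendsto _).comp h0, fun j => ((h2 j).tendsto _).comp h0⟩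

lemma lLp_ev {Φ : K × (Fin 4 → K) → Prop} (h : ∀ᶠ θ in lLp σ θ₀, Φ θ) :
    ∃ δ : ℝ, 0 < δ ∧ ∀ θ : K × (Fin 4 → K), (∀ i, ‖σ i θ.1 - (θ₀ i).1‖ < δ) →
      (∀ i j, ‖σ i (θ.2 j) - (θ₀ i).2 j‖ < δ) → Φ θ := by
  obtain ⟨U, hU, hs⟩ := mem_comap.1 h
  obtain ⟨δ, hδ, hb⟩ := Metric.mem_nhds_iff.1 hU
  refine ⟨δ, hδ, fun θ h1 h2 => ?_⟩
  apply hs
  apply hb
  rw [Metric.mem_ball, dist_pi_lt_iff hδ]
  intro i
  rw [Prod.dist_eq]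
  refine max_lt ?_ ?_
  · rw [dist_eq_norm]; exact h1 i
  · rw [dist_pi_lt_iff hδ]
    intro j
    rw [dist_eq_norm]; exact h2 i j

/-- a multiple which is close to the origin at all the places, for local points -/
lemma near_pL [∀ i, DecidableEq ℚ_[p i]]
    (hD : ∀ i, dsc (tA (θ₀ i)) (tB (θ₀ i)) (tC (θ₀ i)) ≠ 0)
    {S : ∀ i, Pt (tA (θ₀ i)) (tB (θ₀ i)) (tC (θ₀ i))}
    (hS : ∀ i, ∀ n : ℕ, n ≠ 0 → n • S i ≠ 0) {r : ι → ℝ} (hr0 : ∀ i, 0 < r i)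
    (hr : ∀ i, r i ≤ 1 / (100 * CL (θ₀ i))) :
    ∃ N : ℕ, N ≠ 0 ∧ (∀ i, Nb (av (RingHom.id _)) (1 / (100 * CL (θ₀ i))) (r i) (N • S i)) := by
  classical
  have h1 : ∀ s : Finset ι, ∃ N : ℕ, N ≠ 0 ∧ ∀ i ∈ s,
      Nb (av (RingHom.id _)) (1 / (100 * CL (θ₀ i))) (r i) (N • S i) := by
    intro s
    induction s using Finset.induction_on with
    | empty => exact ⟨1, one_ne_zero, by simp⟩
    | insert i s hi ih =>
      obtain ⟨N, hN, hNs⟩ := ih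
      obtain ⟨m, hm, hmN⟩ := accum_near (RingHom.id ℚ_[p i]) (hD i) (Bd_baseL (θ₀ i))
        (P := N • S i) (fun n hn => by
          rw [← mul_smul]; exact hS i _ (mul_ne_zero hn hN)) (hr0 i)
      refine ⟨m * N, mul_ne_zero hm hN, fun j hj => ?_⟩
      rw [mul_smul]
      rcases Finset.mem_insert.1 hj with rfl | hj
      · exact hmN
      · exact U2 (Bd_baseL (θ₀ j)) (hr j) (hNs j hj) m
  obtain ⟨N, hN, hNs⟩ := h1 Finset.univ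
  exact ⟨N, hN, fun i => hNs i (Finset.mem_univ i)⟩

/-- **Rational points of a genus one curve close to a local point, uniformly.** -/
theorem lemEp [DecidableEq K] [Nonempty ι] [∀ i, DecidableEq ℚ_[p i]]
    (hinj : Function.Injective p) (hw : ∀ i, (θ₀ i).1 ≠ 0)
    (hD : ∀ i, dsc (tA (θ₀ i)) (tB (θ₀ i)) (tC (θ₀ i)) ≠ 0)
    (hS : ∀ i, ∀ h, ∀ n : ℕ, n ≠ 0 → n • (.some (tX (θ₀ i)) (tY (θ₀ i)) h :
      Pt (tA (θ₀ i)) (tB (θ₀ i)) (tC (θ₀ i))) ≠ 0) :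
    ∃ δ : ℝ, 0 < δ ∧ ∀ θ : K × (Fin 4 → K), (∀ i, ‖σ i θ.1 - (θ₀ i).1‖ < δ) →
      (∀ i j, ‖σ i (θ.2 j) - (θ₀ i).2 j‖ < δ) →
      ∀ (t Y : ∀ i, ℚ_[p i]), (∀ i, ‖t i‖ < δ) → (∀ i, ‖Y i - (θ₀ i).1‖ < δ) →
      (∀ i, Y i ^ 2 = qv (σ i θ.1) (fun j => σ i (θ.2 j)) (t i)) → ∀ η : ℝ, 0 < η →
      ∃ s Z : K, Z ^ 2 = qv θ.1 θ.2 s ∧ ∀ i, ‖σ i s - t i‖ < η ∧ ‖σ i Z - Y i‖ < η := by
  have hns := fun i => tns (hw i) (hD i)
  have hinf := fun i => hS i (hns i)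
  obtain ⟨i₀⟩ := ‹Nonempty ι›
  obtain ⟨N, hN, hNp⟩ := near_pL hD hinf
    (r := fun i => min (1 / (100 * CL (θ₀ i))) ‖(p i : ℚ_[p i])‖)
    (fun i => lt_min (Bd_baseL (θ₀ i)).hρ norm_p_pos) (fun i => min_le_left _ _)
  set S₀ : ∀ i, Pt (tA (θ₀ i)) (tB (θ₀ i)) (tC (θ₀ i)) := fun i => .some _ _ (hns i) with hS₀
  set r : ι → ℝ := fun i => av (RingHom.id _) (TT (N • S₀ i)) with hr
  have hrm : ∀ i, r i ≤ min (1 / (100 * CL (θ₀ i))) ‖(p i : ℚ_[p i])‖ := fun i => (hNp i).le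
  have hr1 : ∀ i, r i ≤ 1 / (100 * CL (θ₀ i)) := fun i => (hrm i).trans (min_le_left _ _)
  have hrp : ∀ i, r i ≤ ‖(p i : ℚ_[p i])‖ := fun i => (hrm i).trans (min_le_right _ _)
  have hr0 : ∀ i, 0 < r i := fun i => (av (RingHom.id _)).pos
    (TT_ne (Bd_baseL (θ₀ i)) (min_le_left _ _) (hNp i) (hinf i N hN))
  have ev1 : ∀ᶠ θ in lLp σ θ₀, θ.1 ≠ 0 := (TnLp_p i₀).ne (hw i₀)
  have ev2 : ∀ᶠ θ in lLp σ θ₀, dsc (tA θ) (tB θ) (tC θ) ≠ 0 := (TnLp_p i₀).dsc_ne (hD i₀)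
  have ev3 : ∀ᶠ θ in lLp σ θ₀, ∀ i, Bd (av (σ i)) (tA θ) (tB θ) (tC θ)
      (CL (θ₀ i)) (1 / (100 * CL (θ₀ i))) := eventually_all.2 fun i => (TnLp_p i).Bd
  have ev5 := eventually_all.2 fun i => ev_pL (σ := σ i) (l := lLp σ θ₀) (TnLp_p i) (hw i)
    (hns i) (hinf i) hN (min_le_left _ _) (hNp i)
  obtain ⟨δ₁, hδ₁, hb⟩ := lLp_ev (ev1.and (ev2.and (ev3.and ev5)))
  choose δp hδp hcp using fun i => convL (σ i) (w₀ := (θ₀ i).1) (q₀ := (θ₀ i).2) (hw i) (hr0 i)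
    (Bd_baseL (θ₀ i)).hρ
  have : Nonempty ι := ⟨i₀⟩
  obtain ⟨δ₂, hδ₂, hδ₂p⟩ := fin_min hδp
  obtain ⟨δ₃, hδ₃, hδ₃p⟩ := fin_min (f := fun i => ‖(θ₀ i).1‖) fun i =>
    norm_pos_iff.2 (hw i)
  set δ := min (min δ₁ δ₂) δ₃ with hδ
  have d1 : δ ≤ δ₁ := (min_le_left _ _).trans (min_le_left _ _)
  have d2 : δ ≤ δ₂ := (min_le_left _ _).trans (min_le_right _ _)
  have d3 : δ ≤ δ₃ := min_le_right _ _
  refine ⟨δ, lt_min (lt_min hδ₁ hδ₂) hδ₃, ?_⟩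
  intro θ h1 h2 t Y ht hY he η hη
  obtain ⟨g1, g2, g3, g5⟩ := hb θ (fun i => (h1 i).trans_le d1)
    (fun i j => (h2 i j).trans_le d1)
  have hnsθ := tns g1 g2
  -- the targets are moved away from zero
  have hp1 : ∀ i, ∃ s Z : ℚ_[p i], s ≠ 0 ∧ ‖s‖ < δ ∧ ‖Z - (θ₀ i).1‖ < δ ∧ ‖s - t i‖ < η / 2 ∧
      ‖Z - Y i‖ < η / 2 ∧ Z ^ 2 = qv (σ i θ.1) (fun j => σ i (θ.2 j)) s := by
    intro i
    have hYne : Y i ≠ 0 := by
      intro h0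
      have := hY i
      rw [h0, zero_sub, norm_neg] at this
      exact absurd (this.trans_le (d3.trans (hδ₃p i))) (lt_irrefl _)
    obtain ⟨s, Z, k1, k2, k3, k4⟩ := perturb (g := qv (σ i θ.1) (fun j => σ i (θ.2 j)))
      (by unfold qv; fun_prop) (he i) hYne
      (η := min (η / 2) (min (δ - ‖t i‖) (δ - ‖Y i - (θ₀ i).1‖)))
      (lt_min (half_pos hη) (lt_min (sub_pos.2 (ht i)) (sub_pos.2 (hY i))))
    have k5 := k2.trans_le (min_le_left _ _)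
    have k6 := k3.trans_le (min_le_left _ _)
    have k7 := k2.trans_le ((min_le_right _ _).trans (min_le_left _ _))
    have k8 := k3.trans_le ((min_le_right _ _).trans (min_le_right _ _))
    refine ⟨s, Z, k1, ?_, ?_, k5, k6, k4⟩
    · have : ‖s‖ ≤ ‖s - t i‖ + ‖t i‖ := by
        have := norm_add_le (s - t i) (t i)
        rwa [sub_add_cancel] at this
      linarith
    · have : ‖Z - (θ₀ i).1‖ ≤ ‖Z - Y i‖ + ‖Y i - (θ₀ i).1‖ := by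
        have := norm_add_le (Z - Y i) (Y i - (θ₀ i).1)
        rwa [sub_add_sub_cancel] at this
      linarith
  choose s Z n1 n2 n3 n4 n5 n6 using hp1
  -- the points of the resolvents
  have hx1 : ∀ i, ∃ x y : ℚ_[p i], y ^ 2 = x ^ 3 + σ i (θ.2 1) * x ^ 2 +
      rb (σ i θ.1) (σ i (θ.2 0)) (σ i (θ.2 2)) (σ i (θ.2 3)) * x +
      rc (σ i θ.1) (σ i (θ.2 0)) (σ i (θ.2 1)) (σ i (θ.2 2)) (σ i (θ.2 3)) ∧ x ≠ 0 ∧ y ≠ 0 ∧
      ‖x / y‖ ≤ r i ∧ ‖1 / y‖ ≤ 1 / (100 * CL (θ₀ i)) ∧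
      Df (σ i θ.1) (σ i (θ.2 0)) (σ i (θ.2 2)) x y ≠ 0 ∧
      s i = tf (σ i θ.1) (σ i (θ.2 0)) (σ i (θ.2 1)) (σ i (θ.2 2)) x y ∧
      Z i = Yf (σ i θ.1) (σ i (θ.2 0)) (σ i (θ.2 1)) (σ i (θ.2 2)) x y := fun i =>
    (hcp i θ.1 θ.2 ((h1 i).trans_le (d2.trans (hδ₂p i)))
      (fun j => (h2 i j).trans_le (d2.trans (hδ₂p i))) (s i) (Z i) (n1 i)
      ((n2 i).trans_le (d2.trans (hδ₂p i))) ((n3 i).trans_le (d2.trans (hδ₂p i))) (n6 i)).2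
  choose x y c1 c0 c2 c3 c4 c5 c6 c7 using hx1
  choose ηp hηp hcc using fun i => conv_cont (σ i) (w := θ.1) (q₁ := θ.2 0) (q₂ := θ.2 1)
    (q₃ := θ.2 2) (q₄ := θ.2 3) (g3 i) g1 (c1 i) (c2 i) ((c3 i).trans (hr1 i)) (c4 i) (c5 i)
    (half_pos hη)
  obtain ⟨η₁, hη₁, hη₁p⟩ := fin_min hηp
  have hxy' : 0 < ‖x i₀ / y i₀‖ := norm_pos_iff.2 (div_ne_zero (c0 i₀) (c2 i₀))
  set ηη := min η₁ ‖x i₀ / y i₀‖ with hηη
  have hηη0 : 0 < ηη := lt_min hη₁ hxy'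
  -- the multiple
  set R := N • (.some _ _ hnsθ : Pt (tA θ) (tB θ) (tC θ)) with hR
  obtain ⟨n, hn1⟩ := fill_p (σ := σ) hinj g3 hr0 hr1 hrp
    (fun i => (g5 i hnsθ).1) (fun i => (g5 i hnsθ).2) (fun i => x i / y i) c3 hηη0
  have hTT : TT (n • R) ≠ 0 := by
    intro h0
    have h2 := (hn1 i₀).2
    rw [h0, map_zero, zero_sub, norm_neg] at h2
    exact absurd (h2.trans_le (min_le_right _ _)) (lt_irrefl _)
  revert hn1 hTT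
  generalize n • R = Q
  intro hn1 hTT
  rcases Q with _ | ⟨X, W, hQ⟩
  · exact absurd rfl hTT
  have hXW := (cv_ns.1 hQ).1
  simp only [TT_some] at hn1
  obtain ⟨hW, -, -⟩ := (Nb_some hQ).1 (hn1 i₀).1
  have hA : ∀ i, _ := fun i => hcc i X W hXW hW
    (((Nb_some hQ).1 (hn1 i).1).2.1.trans (hr1 i)) ((Nb_some hQ).1 (hn1 i).1).2.2
    ((hn1 i).2.trans_le ((min_le_left _ _).trans (hη₁p i)))
  refine ⟨tf θ.1 (θ.2 0) (θ.2 1) (θ.2 2) X W, Yf θ.1 (θ.2 0) (θ.2 1) (θ.2 2) X W,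
    Yf_eqn g1 hXW (hA i₀).1, fun i => ⟨?_, ?_⟩⟩
  · obtain ⟨-, a2, a3⟩ := hA i
    rw [← c6 i] at a2
    have := norm_sub_le_norm_sub_add_norm_sub (σ i (tf θ.1 (θ.2 0) (θ.2 1) (θ.2 2) X W)) (s i) (t i)
    have := n4 i
    linarith
  · obtain ⟨-, a2, a3⟩ := hA i
    rw [← c7 i] at a3
    have := norm_sub_le_norm_sub_add_norm_sub (σ i (Yf θ.1 (θ.2 0) (θ.2 1) (θ.2 2) X W)) (Z i) (Y i)
    have := n5 i
    linarith

end main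

end Pool.Agent.Y720.MZ
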