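import Pool.Agent.Y720.WL.LemE

/-!
# Moves close to a local point of `w² = f(z)` (helper720)
-/

set_option autoImplicit false
set_option linter.unusedVariables false
set_option linter.unusedSectionVars false

open Filter Topology

namespace Pool.Agent.Y720.MZ

variable {K : Type*} [Field K] [CharZero K] {V : Type*} [Finite V] {L : V → Type*}
  [∀ v, NontriviallyNormedField (L v)] [∀ v, CompleteSpace (L v)] (s : ∀ v, K →+* L v)
  {α : Type*}

/-- rational points on the quartics close to a given local one are dense close to the base point -/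
def WAqL (θ₀ : ∀ v, L v × (Fin 4 → L v)) : Prop :=
  ∃ δ : ℝ, 0 < δ ∧ ∀ θ : K × (Fin 4 → K), (∀ v, ‖s v θ.1 - (θ₀ v).1‖ < δ) →
    (∀ v j, ‖s v (θ.2 j) - (θ₀ v).2 j‖ < δ) → ∀ t Y : ∀ v, L v, (∀ v, ‖t v‖ < δ) →
    (∀ v, ‖Y v - (θ₀ v).1‖ < δ) → (∀ v, Y v ^ 2 = qv (s v θ.1) (fun j => s v (θ.2 j)) (t v)) →
    ∀ η : ℝ, 0 < η → ∃ u Z : K, Z ^ 2 = qv θ.1 θ.2 u ∧
      ∀ v, ‖s v u - t v‖ < η ∧ ‖s v Z - Y v‖ < η

/-- moves in the direction `e` close to a local point -/
def MvL (f : MvPolynomial α K) (e : α → K) (x₀ : ∀ v, α → L v) (y₀ : ∀ v, L v) : Prop :=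
  ∃ δ : ℝ, 0 < δ ∧ ∀ (z : α → K) (w : K), onX f z w → nr s δ z w x₀ y₀ →
    ∀ t Y : ∀ v, L v, (∀ v, ‖t v‖ < δ) → (∀ v, ‖Y v - y₀ v‖ < δ) →
    (∀ v, onX (MvPolynomial.map (s v) f) (fun a => s v (z a) + t v * s v (e a)) (Y v)) →
    ∀ η : ℝ, 0 < η → ∃ (z' : α → K) (w' : K), onX f z' w' ∧
      nr s η z' w' (fun v a => s v (z a) + t v * s v (e a)) Y

/-- the closure of the rational points is open at a local point, if it belongs to it -/
def IntL (f : MvPolynomial α K) (x₀ : ∀ v, α → L v) (y₀ : ∀ v, L v) : Prop :=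
  ∃ ε : ℝ, 0 < ε ∧ ∀ (z : α → K) (w : K), onX f z w → nr s ε z w x₀ y₀ →
    ∀ (x : ∀ v, α → L v) (y : ∀ v, L v), (∀ v, onX (MvPolynomial.map (s v) f) (x v) (y v)) →
    (∀ v, (∀ a, ‖x v a - x₀ v a‖ < ε) ∧ ‖y v - y₀ v‖ < ε) →
    ∀ η : ℝ, 0 < η → ∃ (z : α → K) (w : K), onX f z w ∧ nr s η z w x y

variable {s} [Fintype α]

/-- continuity of the coefficients -/
lemma cq_nearL (f : MvPolynomial α K) (e : α → K) (x₀ : ∀ v, α → L v) {δ : ℝ} (hδ : 0 < δ) :
    ∃ δ' : ℝ, 0 < δ' ∧ ∀ z : α → K, (∀ v a, ‖s v (z a) - x₀ v a‖ < δ') →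
      ∀ v j, ‖s v (cq f z e j) - cq (MvPolynomial.map (s v) f) (x₀ v) (fun a => s v (e a)) j‖ <
        δ := by
  have h0 : ∀ v : V, ∃ ρ : ℝ, 0 < ρ ∧ ∀ z : α → K, (∀ a, ‖s v (z a) - x₀ v a‖ < ρ) →
      ∀ j, ‖s v (cq f z e j) - cq (MvPolynomial.map (s v) f) (x₀ v) (fun a => s v (e a)) j‖ <
        δ := by
    intro v
    have : CharZero (L v) := charZero_of_injective_ringHom (s v).injective
    have h1 : ∀ j : Fin 4, ∀ z : α → K, s v (cq f z e j) =
        (rst (MvPolynomial.map (s v) f) (fun a => s v (z a)) (fun a => s v (e a))).coeff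
          ((j : ℕ) + 1) := by
      intro j z
      rw [← rst_map, Polynomial.coeff_map]
      rfl
    have h2 : ∀ᶠ x in 𝓝 (x₀ v), ∀ j : Fin 4,
        ‖(rst (MvPolynomial.map (s v) f) x (fun a => s v (e a))).coeff ((j : ℕ) + 1) -
          cq (MvPolynomial.map (s v) f) (x₀ v) (fun a => s v (e a)) j‖ < δ := by
      rw [Filter.eventually_all]
      intro j
      have h3 : Tendsto (fun x => ‖(rst (MvPolynomial.map (s v) f) x (fun a => s v (e a))).coeff
          ((j : ℕ) + 1) - cq (MvPolynomial.map (s v) f) (x₀ v) (fun a => s v (e a)) j‖)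
          (𝓝 (x₀ v)) (𝓝 0) := by
        have := (((rst_coeff_cont (MvPolynomial.map (s v) f) (fun a => s v (e a))
          ((j : ℕ) + 1)).tendsto (x₀ v)).sub_const
          (cq (MvPolynomial.map (s v) f) (x₀ v) (fun a => s v (e a)) j)).norm
        have e1 : (rst (MvPolynomial.map (s v) f) (x₀ v) (fun a => s v (e a))).coeff
            ((j : ℕ) + 1) - cq (MvPolynomial.map (s v) f) (x₀ v) (fun a => s v (e a)) j = 0 :=
          sub_self _
        rwa [e1, norm_zero] at this
      exact h3.eventually_lt_const hδ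
    obtain ⟨ρ, hρ, hb⟩ := Metric.eventually_nhds_iff_ball.1 h2
    refine ⟨ρ, hρ, fun z hz j => ?_⟩
    rw [h1 j z]
    exact hb (fun a => s v (z a)) (by
      rw [Metric.mem_ball, dist_pi_lt_iff hρ]
      intro a
      rw [dist_eq_norm]
      exact hz a) j
  choose ρ hρ hb using h0
  obtain ⟨δ', hδ', hm⟩ := fin_min hρ
  exact ⟨δ', hδ', fun z hz v j => hb v z (fun a => (hz v a).trans_le (hm v)) j⟩

/-- **Moves from the quartics.** -/
theorem mv_quarticL {f : MvPolynomial α K} {e : α → K}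
    (he : ∀ z, (rst f z e).natDegree ≤ 4) {x₀ : ∀ v, α → L v} {y₀ : ∀ v, L v}
    (hW : WAqL s fun v => (y₀ v, cq (MvPolynomial.map (s v) f) (x₀ v) (fun a => s v (e a)))) :
    MvL s f e x₀ y₀ := by
  obtain ⟨δ, hδ, hb⟩ := hW
  obtain ⟨δ', hδ', hc⟩ := cq_nearL (s := s) f e x₀ hδ
  refine ⟨min δ δ', lt_min hδ hδ', fun z w hzw hn t Y ht hY hYe η hη => ?_⟩
  obtain ⟨η', hη', hη'le, hdir⟩ := dir_bound (s := s) e hη
  have k1 : ∀ v, Y v ^ 2 = qv (s v w) (fun j => s v (cq f z e j)) (t v) := by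
    intro v
    have : CharZero (L v) := charZero_of_injective_ringHom (s v).injective
    have h1 := hYe v
    have h2 : (rst (MvPolynomial.map (s v) f) (fun a => s v (z a))
        (fun a => s v (e a))).natDegree ≤ 4 := by
      rw [← rst_map]
      exact Polynomial.natDegree_map_le.trans (he z)
    have h3 := cq_eval h2 (onX_map hzw v) (t v)
    have h4 : (fun j => s v (cq f z e j)) = cq (MvPolynomial.map (s v) f) (fun a => s v (z a))
        (fun a => s v (e a)) := by
      funext j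
      simp only [cq]
      rw [← rst_map, Polynomial.coeff_map]
    unfold onX at h1
    rw [h1, ← h3, h4]
  obtain ⟨u, Z, g1, g2⟩ := hb (w, cq f z e) (fun v => (hn v).2.trans_le (min_le_left _ _))
    (hc z fun v a => ((hn v).1 a).trans_le (min_le_right _ _)) t Y
    (fun v => (ht v).trans_le (min_le_left _ _)) (fun v => (hY v).trans_le (min_le_left _ _))
    k1 η' hη'
  refine ⟨fun a => z a + u * e a, Z, ?_, fun v => ⟨fun a => ?_, ((g2 v).2).trans_le hη'le⟩⟩
  · unfold onX
    rw [g1, cq_eval (he z) hzw]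
  · have e1 : s v (z a + u * e a) - (s v (z a) + t v * s v (e a)) =
        (s v u - t v) * s v (e a) := by
      rw [map_add, map_mul]; ring
    rw [e1]
    exact hdir v a _ (g2 v).1

/-- **Moves from the conics.** -/
theorem mv_conicL (hden : Dn s) {f : MvPolynomial α K} {e : α → K}
    (he : ∀ z, (rst f z e).natDegree ≤ 2) {x₀ : ∀ v, α → L v} {y₀ : ∀ v, L v}
    (hw : ∀ v, y₀ v ≠ 0) : MvL s f e x₀ y₀ := by
  -- the good branch
  have h1 : ∀ v, ∃ δ : ℝ, 0 < δ ∧ ∀ (w q t Y : L v), ‖w - y₀ v‖ < δ →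
      ‖q - cq (MvPolynomial.map (s v) f) (x₀ v) (fun a => s v (e a)) 0‖ < δ → ‖t‖ < δ →
      ‖Y - y₀ v‖ < δ → w ≠ 0 ∧ Y + w + q / (2 * w) * t ≠ 0 := by
    intro v
    have : CharZero (L v) := charZero_of_injective_ringHom (s v).injective
    set c := cq (MvPolynomial.map (s v) f) (x₀ v) (fun a => s v (e a)) 0
    let G : L v × L v × L v × L v → L v := fun e => e.2.2.2 + e.1 + e.2.1 / (2 * e.1) * e.2.2.1
    have hG : ContinuousAt G (y₀ v, c, 0, y₀ v) := by
      refine ContinuousAt.add (by fun_prop) (ContinuousAt.mul (ContinuousAt.div (by fun_prop)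
        (by fun_prop) (mul_ne_zero two_ne_zero (hw v))) (by fun_prop))
    have hG0 : G (y₀ v, c, 0, y₀ v) ≠ 0 := by
      simp only [G, mul_zero, add_zero]
      rw [← two_mul]
      exact mul_ne_zero two_ne_zero (hw v)
    have h2 : ContinuousAt (fun e : L v × L v × L v × L v => e.1) (y₀ v, c, 0, y₀ v) :=
      continuousAt_fst
    obtain ⟨δ, hδ, hb⟩ := Metric.eventually_nhds_iff_ball.1
      ((h2.eventually_ne (hw v)).and (hG.eventually_ne hG0))
    refine ⟨δ, hδ, fun w q t Y k1 k2 k3 k4 => hb (w, q, t, Y) ?_⟩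
    rw [Metric.mem_ball, Prod.dist_eq, Prod.dist_eq, Prod.dist_eq]
    refine max_lt ?_ (max_lt ?_ (max_lt ?_ ?_))
    · rw [dist_eq_norm]; exact k1
    · rw [dist_eq_norm]; exact k2
    · rw [dist_eq_norm, sub_zero]; exact k3
    · rw [dist_eq_norm]; exact k4
  choose δ hδ hb using h1
  obtain ⟨δ₁, hδ₁, hm⟩ := fin_min hδ
  obtain ⟨δ₂, hδ₂, hc⟩ := cq_nearL (s := s) f e x₀ hδ₁
  refine ⟨min δ₁ δ₂, lt_min hδ₁ hδ₂, fun z w hzw hn t Y ht hY hYe η hη => ?_⟩
  by_cases hV : IsEmpty V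
  · exact ⟨z, w, hzw, fun v => (hV.false v).elim⟩
  rw [not_isEmpty_iff] at hV
  have hg : ∀ v, s v w ≠ 0 ∧ Y v + s v w + s v (cq f z e 0) / (2 * s v w) * t v ≠ 0 := by
    intro v
    exact hb v _ _ _ _ ((hn v).2.trans_le ((min_le_left _ _).trans (hm v)))
      ((hc z (fun v a => ((hn v).1 a).trans_le (min_le_right _ _)) v 0).trans_le (hm v))
      ((ht v).trans_le ((min_le_left _ _).trans (hm v)))
      ((hY v).trans_le ((min_le_left _ _).trans (hm v)))
  have hw0 : w ≠ 0 := by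
    obtain ⟨v⟩ := hV
    exact (map_ne_zero (s v)).1 (hg v).1
  obtain ⟨u, Z, k1, -, k2⟩ := conic_pts hden (he z) hzw hw0 (t := t) (Y := Y) (Or.inr fun v => by
    have := (hg v).2
    rwa [map_div₀, map_mul, map_ofNat]) hYe hη
  exact ⟨_, _, k1, k2⟩

/-- **Assembly.** -/
theorem int_of_mvL [DecidableEq α] {f : MvPolynomial α K} {x₀ : ∀ v, α → L v} {y₀ : ∀ v, L v}
    (hP : ∀ v, onX (MvPolynomial.map (s v) f) (x₀ v) (y₀ v)) (hw : ∀ v, y₀ v ≠ 0)
    (hM : ∀ a, MvL s f (Pi.single a 1) x₀ y₀) : IntL s f x₀ y₀ := by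
  classical
  have hcz : ∀ v, CharZero (L v) := fun v => charZero_of_injective_ringHom (s v).injective
  have hw' : ∀ v, 0 < ‖y₀ v‖ := fun v => norm_pos_iff.2 (hw v)
  have hw2 : ∀ v, 0 < ‖2 * y₀ v‖ := fun v => by
    have := hcz v
    exact norm_pos_iff.2 (mul_ne_zero two_ne_zero (hw v))
  have claim : ∀ S : Finset α, ∃ ε : ℝ, 0 < ε ∧ ∀ (z : α → K) (w : K), onX f z w →
      nr s ε z w x₀ y₀ →
      ∀ (x : ∀ v, α → L v) (y : ∀ v, L v),
      (∀ v, onX (MvPolynomial.map (s v) f) (x v) (y v)) →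
      (∀ v, (∀ a, ‖x v a - x₀ v a‖ < ε) ∧ ‖y v - y₀ v‖ < ε) →
      (∀ v, ∀ a ∉ S, x v a = s v (z a)) → ∀ η : ℝ, 0 < η →
      ∃ (z' : α → K) (w' : K), onX f z' w' ∧ nr s η z' w' x y := by
    intro S
    induction S using Finset.induction_on with
    | empty =>
      obtain ⟨ε, hε, hm⟩ := fin_min (f := fun v : V => ‖2 * y₀ v‖ / 2) fun v => half_pos (hw2 v)
      refine ⟨ε, hε, fun z w hzw hn x y hxy hT hx η hη => ⟨z, w, hzw, fun v => ?_⟩⟩
      have h1 : x v = fun a => s v (z a) := by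
        funext a
        exact hx v a (Finset.notMem_empty a)
      have h2 := hxy v
      rw [h1] at h2
      have h3 : y v ^ 2 = s v w ^ 2 := h2.trans (onX_map (s := s) hzw v).symm
      have h4 : (y v - s v w) * (y v + s v w) = 0 := by linear_combination h3
      have h5 : y v + s v w ≠ 0 := by
        intro h0
        have h6 : 2 * y₀ v = -(y v - y₀ v) + -(s v w - y₀ v) := by
          linear_combination h0
        have h7 := norm_add_le (-(y v - y₀ v)) (-(s v w - y₀ v))
        rw [← h6, norm_neg, norm_neg] at h7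
        have h8 := (hT v).2
        have h9 := (hn v).2
        have := hm v
        linarith
      have h6 : y v = s v w := sub_eq_zero.1 ((mul_eq_zero.1 h4).resolve_right h5)
      refine ⟨fun a => ?_, ?_⟩
      · rw [h1, sub_self, norm_zero]; exact hη
      · rw [h6, sub_self, norm_zero]; exact hη
    | insert a S ha ih =>
      obtain ⟨ε', hε', hcl⟩ := ih
      obtain ⟨δ, hδ, hmv⟩ := hM a
      have hsq : ∀ v, ∃ ρ : ℝ, 0 < ρ ∧ ∀ x' : α → L v, (∀ a, ‖x' a - x₀ v a‖ < ρ) →
          ∃ y' : L v, ‖y' - y₀ v‖ < min δ (ε' / 2) ∧ onX (MvPolynomial.map (s v) f) x' y' := by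
        intro v
        have := hcz v
        exact sq_near (hP v) (hw v) (lt_min hδ (half_pos hε'))
      choose ρ hρ hρb using hsq
      obtain ⟨ε, hε, hm⟩ := fin_min (f := fun v : V => min (min (ε' / 2) (δ / 2))
        (min (ρ v) (‖y₀ v‖))) fun v => lt_min (lt_min (half_pos hε') (half_pos hδ))
          (lt_min (hρ v) (hw' v))
      by_cases hV : IsEmpty V
      · exact ⟨1, one_pos, fun z w hzw hn x y hxy hT hx η hη => ⟨z, w, hzw,
          fun v => (hV.false v).elim⟩⟩
      rw [not_isEmpty_iff] at hV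
      have hε1 : ε ≤ ε' / 2 := by
        obtain ⟨v⟩ := hV
        exact (hm v).trans ((min_le_left _ _).trans (min_le_left _ _))
      have hε2 : ε ≤ δ / 2 := by
        obtain ⟨v⟩ := hV
        exact (hm v).trans ((min_le_left _ _).trans (min_le_right _ _))
      have hε3 : ∀ v, ε ≤ ρ v := fun v => (hm v).trans ((min_le_right _ _).trans (min_le_left _ _))
      have hε4 : ∀ v, ε ≤ ‖y₀ v‖ := fun v =>
        (hm v).trans ((min_le_right _ _).trans (min_le_right _ _))
      refine ⟨ε, hε, fun z w hzw hn x y hxy hT hx η hη => ?_⟩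
      -- the first target
      set t : ∀ v, L v := fun v => x v a - s v (z a) with ht
      set x₁ : ∀ v, α → L v := fun v b => s v (z b) + t v * s v ((Pi.single a 1 : α → K) b) with hx₁
      have hx₁a : ∀ v, x₁ v a = x v a := by
        intro v
        simp only [hx₁, ht, Pi.single_eq_same, map_one, mul_one]
        ring
      have hx₁b : ∀ v b, b ≠ a → x₁ v b = s v (z b) := by
        intro v b hb
        simp only [hx₁, Pi.single_eq_of_ne hb, map_zero, mul_zero, add_zero]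
      have hx₁P : ∀ v b, ‖x₁ v b - x₀ v b‖ < ε := by
        intro v b
        by_cases hb : b = a
        · rw [hb, hx₁a]; exact (hT v).1 a
        · rw [hx₁b v b hb]; exact (hn v).1 b
      have hx₁S : ∀ v b, b ∉ S → x₁ v b = x v b := by
        intro v b hb
        by_cases hba : b = a
        · rw [hba, hx₁a]
        · rw [hx₁b v b hba, hx v b]
          rw [Finset.mem_insert, not_or]
          exact ⟨hba, hb⟩
      choose Y hY1 hY2 using fun v => hρb v (x₁ v) fun b => (hx₁P v b).trans_le (hε3 v)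
      -- the second target
      have hsq' : ∀ v, ∃ ρ : ℝ, 0 < ρ ∧ ∀ x' : α → L v, (∀ a, ‖x' a - x v a‖ < ρ) →
          ∃ y' : L v, ‖y' - y v‖ < min (η / 2) (ε' / 2) ∧
            onX (MvPolynomial.map (s v) f) x' y' := by
        intro v
        have := hcz v
        refine sq_near (hxy v) ?_ (lt_min (half_pos hη) (half_pos hε'))
        intro h0
        have h1 := (hT v).2
        rw [h0, zero_sub, norm_neg] at h1
        exact absurd h1 (not_lt.2 (hε4 v))
      choose ρ' hρ' hρb' using hsq'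
      obtain ⟨η₁, hη₁, hm₁⟩ := fin_min (f := fun v : V => min (min (ε' / 2) (η / 2)) (ρ' v))
        fun v => lt_min (lt_min (half_pos hε') (half_pos hη)) (hρ' v)
      have g1 : η₁ ≤ ε' / 2 := by
        obtain ⟨v⟩ := hV
        exact (hm₁ v).trans ((min_le_left _ _).trans (min_le_left _ _))
      have g2 : η₁ ≤ η / 2 := by
        obtain ⟨v⟩ := hV
        exact (hm₁ v).trans ((min_le_left _ _).trans (min_le_right _ _))
      have g3 : ∀ v, η₁ ≤ ρ' v := fun v => (hm₁ v).trans (min_le_right _ _)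
      obtain ⟨z₁, w₁, hzw₁, hn₁⟩ := hmv z w hzw (hn.mono (hε2.trans (by linarith))) t Y
        (fun v => by
          have h1 := (hT v).1 a
          have h2 := (hn v).1 a
          have h3 : t v = (x v a - x₀ v a) + -(s v (z a) - x₀ v a) := by
            simp only [ht]; ring
          have h4 := norm_add_le (x v a - x₀ v a) (-(s v (z a) - x₀ v a))
          rw [← h3, norm_neg] at h4
          linarith)
        (fun v => (hY1 v).trans_le (min_le_left _ _)) hY2 η₁ hη₁
      set x' : ∀ v, α → L v := fun v b => if b ∈ S then x v b else s v (z₁ b) with hx'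
      have hx'x : ∀ v b, ‖x' v b - x v b‖ < η₁ := by
        intro v b
        simp only [hx']
        by_cases hb : b ∈ S
        · rw [if_pos hb, sub_self, norm_zero]; exact hη₁
        · rw [if_neg hb, ← hx₁S v b hb]
          exact (hn₁ v).1 b
      choose y' hy1 hy2 using fun v => hρb' v (x' v) fun b => (hx'x v b).trans_le (g3 v)
      obtain ⟨z', w', h1, h2⟩ := hcl z₁ w₁ hzw₁ (fun v => ⟨fun b => by
          have k1 := (hn₁ v).1 b
          have k2 := hx₁P v b
          have k3 := norm_sub_le_norm_sub_add_norm_sub (s v (z₁ b)) (x₁ v b) (x₀ v b)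
          change ‖s v (z₁ b) - x₁ v b‖ < η₁ at k1
          linarith, by
          have k1 := (hn₁ v).2
          have k2 := (hY1 v).trans_le (min_le_right _ _)
          have k3 := norm_sub_le_norm_sub_add_norm_sub (s v w₁) (Y v) (y₀ v)
          linarith⟩) x' y' hy2 (fun v => ⟨fun b => by
          have k1 := (hT v).1 b
          have k2 := hx'x v b
          have k3 := norm_sub_le_norm_sub_add_norm_sub (x' v b) (x v b) (x₀ v b)
          linarith, by
          have k1 := (hT v).2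
          have k2 := (hy1 v).trans_le (min_le_right _ _)
          have k3 := norm_sub_le_norm_sub_add_norm_sub (y' v) (y v) (y₀ v)
          linarith⟩) (fun v b hb => by simp only [hx', if_neg hb]) (η / 2) (half_pos hη)
      refine ⟨z', w', h1, fun v => ⟨fun b => ?_, ?_⟩⟩
      · have k1 := (h2 v).1 b
        have k2 := hx'x v b
        have k3 := norm_sub_le_norm_sub_add_norm_sub (s v (z' b)) (x' v b) (x v b)
        linarith
      · have k1 := (h2 v).2
        have k2 := (hy1 v).trans_le (min_le_left _ _)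
        have k3 := norm_sub_le_norm_sub_add_norm_sub (s v w') (y' v) (y v)
        linarith
  -- the coordinates of the target may be taken rational one after another
  obtain ⟨ε, hε, h⟩ := claim Finset.univ
  exact ⟨ε, hε, fun z w hzw hn x y hxy hT η hη => h z w hzw hn x y hxy hT
    (fun v a ha => absurd (Finset.mem_univ a) ha) η hη⟩

/-- **Moves through another point.** -/
theorem mv_viaL {f : MvPolynomial α K} {v e : α → K} {x₀ : ∀ v, α → L v} {y₀ : ∀ v, L v}
    (hP : ∀ v, onX (MvPolynomial.map (s v) f) (x₀ v) (y₀ v)) (hw : ∀ v, y₀ v ≠ 0)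
    (hv : MvL s f v x₀ y₀) (h : ∀ δ : ℝ, 0 < δ → ∃ u Z : ∀ v, L v,
      (∀ v', onX (MvPolynomial.map (s v') f) (fun a => x₀ v' a + u v' * s v' (v a)) (Z v')) ∧
      (∀ v', Z v' ≠ 0) ∧ (∀ v', ‖u v'‖ < δ ∧ ‖Z v' - y₀ v'‖ < δ) ∧
      MvL s f e (fun v' a => x₀ v' a + u v' * s v' (v a)) Z) : MvL s f e x₀ y₀ := by
  by_cases hV : IsEmpty V
  · exact ⟨1, one_pos, fun z w hzw hn t Y ht hY hYe η hη => ⟨z, w, hzw,
      fun v => (hV.false v).elim⟩⟩
  rw [not_isEmpty_iff] at hV
  have hcz : ∀ v, CharZero (L v) := fun v => charZero_of_injective_ringHom (s v).injective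
  obtain ⟨δ₁, hδ₁, hmv⟩ := hv
  obtain ⟨κ, hκ, hκle, hdirv⟩ := dir_bound (s := s) v (show (0 : ℝ) < δ₁ / 4 by positivity)
  obtain ⟨u, Z', hzP', hZ', hnP', hMe⟩ := h (min κ (δ₁ / 4)) (lt_min hκ (by positivity))
  have hu1 : ∀ v', ‖u v'‖ < δ₁ / 4 := fun v' => (hnP' v').1.trans_le (min_le_right _ _)
  have hu2 : ∀ v' a, ‖u v' * s v' (v a)‖ < δ₁ / 4 := fun v' a =>
    hdirv v' a _ ((hnP' v').1.trans_le (min_le_left _ _))
  have hZ1 : ∀ v', ‖Z' v' - y₀ v'‖ < δ₁ / 4 := fun v' =>
    (hnP' v').2.trans_le (min_le_right _ _)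
  obtain ⟨δ', hδ', hme⟩ := hMe
  -- square roots close to the intermediate point
  have hsq : ∀ v', ∃ ρ : ℝ, 0 < ρ ∧ ∀ x' : α → L v',
      (∀ a, ‖x' a - (x₀ v' a + u v' * s v' (v a))‖ < ρ) →
      ∃ y' : L v', ‖y' - Z' v'‖ < min (δ' / 2) (δ₁ / 4) ∧
        onX (MvPolynomial.map (s v') f) x' y' := by
    intro v'
    have := hcz v'
    exact sq_near (hzP' v') (hZ' v') (lt_min (half_pos hδ') (by positivity))
  choose ρ hρ hρb using hsq
  obtain ⟨ρ₀, hρ₀, hρm⟩ := fin_min hρ
  -- the radius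
  set ε₀ := min (min (δ₁ / 8) (δ' / 4)) (ρ₀ / 4) with hε₀
  have hε₀0 : 0 < ε₀ := lt_min (lt_min (by positivity) (by positivity)) (by positivity)
  have a1 : ε₀ ≤ δ₁ / 8 := (min_le_left _ _).trans (min_le_left _ _)
  have a2 : ε₀ ≤ δ' / 4 := (min_le_left _ _).trans (min_le_right _ _)
  have a3 : ε₀ ≤ ρ₀ / 4 := min_le_right _ _
  obtain ⟨κ', hκ', hκ'le, hdire⟩ := dir_bound (s := s) e hε₀0
  obtain ⟨ω, hω, hωm⟩ := fin_min (f := fun v' : V => ‖y₀ v'‖) fun v' => norm_pos_iff.2 (hw v')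
  set ε := min κ' ω with hε
  have hε0 : 0 < ε := lt_min hκ' hω
  have b1 : ε ≤ ε₀ := (min_le_left _ _).trans hκ'le
  refine ⟨ε, hε0, fun z w hzw hn t Y ht hY hYe η hη => ?_⟩
  have hte : ∀ v' a, ‖t v' * s v' (e a)‖ < ε₀ := fun v' a =>
    hdire v' a _ ((ht v').trans_le (min_le_left _ _))
  -- square roots close to the target
  have hsq' : ∀ v', ∃ ρ : ℝ, 0 < ρ ∧ ∀ x' : α → L v',
      (∀ a, ‖x' a - (s v' (z a) + t v' * s v' (e a))‖ < ρ) →
      ∃ y' : L v', ‖y' - Y v'‖ < min (η / 2) (δ₁ / 4) ∧ onX (MvPolynomial.map (s v') f) x' y' := by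
    intro v'
    have := hcz v'
    refine sq_near (hYe v') ?_ (lt_min (half_pos hη) (by positivity))
    intro h0
    have h1 := (hY v').trans_le (min_le_right _ _)
    rw [h0, zero_sub, norm_neg] at h1
    exact absurd h1 (not_lt.2 (hωm v'))
  choose ρ' hρ' hρb' using hsq'
  obtain ⟨ρ₁, hρ₁, hρm'⟩ := fin_min hρ'
  set η₁ := min (min (δ₁ / 8) (δ' / 4)) (min (ρ₀ / 4) (min (ρ₁ / 2) (η / 8))) with hη₁
  have hη₁0 : 0 < η₁ := lt_min (lt_min (by positivity) (by positivity))
    (lt_min (by positivity) (lt_min (by positivity) (by positivity)))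
  have c1 : η₁ ≤ δ₁ / 8 := (min_le_left _ _).trans (min_le_left _ _)
  have c2 : η₁ ≤ δ' / 4 := (min_le_left _ _).trans (min_le_right _ _)
  have c3 : η₁ ≤ ρ₀ / 4 := (min_le_right _ _).trans (min_le_left _ _)
  have c4 : η₁ ≤ ρ₁ / 2 := (min_le_right _ _).trans ((min_le_right _ _).trans (min_le_left _ _))
  have c5 : η₁ ≤ η / 8 := (min_le_right _ _).trans ((min_le_right _ _).trans (min_le_right _ _))
  -- the first step
  choose Y₁ hY₁a hY₁b using fun v' => hρb v' (fun a => s v' (z a) + u v' * s v' (v a))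
    (fun a => by
      have e1 : s v' (z a) + u v' * s v' (v a) - (x₀ v' a + u v' * s v' (v a)) =
          s v' (z a) - x₀ v' a := by ring
      rw [e1]
      have := (hn v').1 a
      have := hρm v'
      linarith)
  obtain ⟨z₁, w₁, hzw₁, hn₁⟩ := hmv z w hzw (hn.mono (by linarith)) u Y₁
    (fun v' => (hu1 v').trans (by linarith)) (fun v' => by
      have k1 := (hY₁a v').trans_le (min_le_right _ _)
      have k2 := hZ1 v'
      have k3 := norm_sub_le_norm_sub_add_norm_sub (Y₁ v') (Z' v') (y₀ v')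
      linarith) hY₁b η₁ hη₁0
  have hz₁ : ∀ v' a, ‖s v' (z₁ a) - (x₀ v' a + u v' * s v' (v a))‖ < η₁ + ε := by
    intro v' a
    have k1 := (hn₁ v').1 a
    have k2 := (hn v').1 a
    have e1 : s v' (z₁ a) - (x₀ v' a + u v' * s v' (v a)) =
        (s v' (z₁ a) - (s v' (z a) + u v' * s v' (v a))) + (s v' (z a) - x₀ v' a) := by ring
    rw [e1]
    have := norm_add_le (s v' (z₁ a) - (s v' (z a) + u v' * s v' (v a)))
      (s v' (z a) - x₀ v' a)
    linarith
  -- the second step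
  choose Y₂ hY₂a hY₂b using fun v' => hρb v' (fun a => s v' (z₁ a) + t v' * s v' (e a))
    (fun a => by
      have e1 : s v' (z₁ a) + t v' * s v' (e a) - (x₀ v' a + u v' * s v' (v a)) =
          (s v' (z₁ a) - (x₀ v' a + u v' * s v' (v a))) + t v' * s v' (e a) := by ring
      rw [e1]
      have k1 := norm_add_le (s v' (z₁ a) - (x₀ v' a + u v' * s v' (v a))) (t v' * s v' (e a))
      have k2 := hz₁ v' a
      have k3 := hte v' a
      have := hρm v'
      linarith)
  obtain ⟨z₂, w₂, hzw₂, hn₂⟩ := hme z₁ w₁ hzw₁ (fun v' => ⟨fun a => by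
      have k1 := hz₁ v' a
      dsimp only
      linarith, by
      have k1 := (hn₁ v').2
      have k2 := (hY₁a v').trans_le (min_le_left _ _)
      have k3 := norm_sub_le_norm_sub_add_norm_sub (s v' w₁) (Y₁ v') (Z' v')
      linarith⟩) t Y₂ (fun v' => ((ht v').trans_le b1).trans_le (by linarith)) (fun v' => by
      have k2 := (hY₂a v').trans_le (min_le_left _ _)
      linarith) hY₂b η₁ hη₁0
  -- the third step
  choose Y₃ hY₃a hY₃b using fun v' => hρb' v' (fun a => s v' (z₂ a) + (-u v') * s v' (v a))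
    (fun a => by
      have e1 : s v' (z₂ a) + (-u v') * s v' (v a) - (s v' (z a) + t v' * s v' (e a)) =
          (s v' (z₂ a) - (s v' (z₁ a) + t v' * s v' (e a))) +
          (s v' (z₁ a) - (s v' (z a) + u v' * s v' (v a))) := by ring
      rw [e1]
      have k1 := norm_add_le (s v' (z₂ a) - (s v' (z₁ a) + t v' * s v' (e a)))
        (s v' (z₁ a) - (s v' (z a) + u v' * s v' (v a)))
      have k2 := (hn₁ v').1 a
      have k3 := (hn₂ v').1 a
      have := hρm' v'
      linarith)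
  obtain ⟨z₃, w₃, hzw₃, hn₃⟩ := hmv z₂ w₂ hzw₂ (fun v' => ⟨fun a => by
      have e1 : s v' (z₂ a) - x₀ v' a = (s v' (z₂ a) - (s v' (z₁ a) + t v' * s v' (e a))) +
          (s v' (z₁ a) - (x₀ v' a + u v' * s v' (v a))) + t v' * s v' (e a) +
            u v' * s v' (v a) := by ring
      have k1 := (hn₂ v').1 a
      have k2 := hz₁ v' a
      have k3 := hte v' a
      have k4 := hu2 v' a
      have k5 := norm_add_le ((s v' (z₂ a) - (s v' (z₁ a) + t v' * s v' (e a))) +
          (s v' (z₁ a) - (x₀ v' a + u v' * s v' (v a))) + t v' * s v' (e a)) (u v' * s v' (v a))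
      have k6 := norm_add_le ((s v' (z₂ a) - (s v' (z₁ a) + t v' * s v' (e a))) +
          (s v' (z₁ a) - (x₀ v' a + u v' * s v' (v a)))) (t v' * s v' (e a))
      have k7 := norm_add_le (s v' (z₂ a) - (s v' (z₁ a) + t v' * s v' (e a)))
          (s v' (z₁ a) - (x₀ v' a + u v' * s v' (v a)))
      rw [e1]
      linarith, by
      have k1 := (hn₂ v').2
      have k2 := (hY₂a v').trans_le (min_le_right _ _)
      have k3 := hZ1 v'
      have k4 := norm_sub_le_norm_sub_add_norm_sub (s v' w₂) (Y₂ v') (y₀ v')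
      have k5 := norm_sub_le_norm_sub_add_norm_sub (Y₂ v') (Z' v') (y₀ v')
      linarith⟩) (fun v' => -u v') Y₃ (fun v' => by
      rw [norm_neg]; have := hu1 v'; linarith) (fun v' => by
      have k1 := (hY₃a v').trans_le (min_le_right _ _)
      have k2 := (hY v').trans_le b1
      have k3 := norm_sub_le_norm_sub_add_norm_sub (Y₃ v') (Y v') (y₀ v')
      linarith) hY₃b η₁ hη₁0
  refine ⟨z₃, w₃, hzw₃, fun v' => ⟨fun a => ?_, ?_⟩⟩
  · have e1 : s v' (z₃ a) - (s v' (z a) + t v' * s v' (e a)) =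
        (s v' (z₃ a) - (s v' (z₂ a) + (-u v') * s v' (v a))) +
        (s v' (z₂ a) - (s v' (z₁ a) + t v' * s v' (e a))) +
          (s v' (z₁ a) - (s v' (z a) + u v' * s v' (v a))) := by ring
    have k1 := (hn₁ v').1 a
    have k2 := (hn₂ v').1 a
    have k3 := (hn₃ v').1 a
    have k4 := norm_add_le ((s v' (z₃ a) - (s v' (z₂ a) + (-u v') * s v' (v a))) +
        (s v' (z₂ a) - (s v' (z₁ a) + t v' * s v' (e a))))
          (s v' (z₁ a) - (s v' (z a) + u v' * s v' (v a)))
    have k5 := norm_add_le (s v' (z₃ a) - (s v' (z₂ a) + (-u v') * s v' (v a)))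
        (s v' (z₂ a) - (s v' (z₁ a) + t v' * s v' (e a)))
    rw [e1]
    linarith
  · have k1 := (hn₃ v').2
    have k2 := (hY₃a v').trans_le (min_le_left _ _)
    have k3 := norm_sub_le_norm_sub_add_norm_sub (s v' w₃) (Y₃ v') (Y v')
    linarith

end Pool.Agent.Y720.MZ
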