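import Pool.Agent.Y720.WL.Mv
import Pool.Agent.Y720.WL.LemEp

/-!
# Points of infinite order in a second direction, close to a local point (helper720)
-/

set_option autoImplicit false
set_option linter.unusedVariables false
set_option linter.unusedSectionVars false

open WeierstrassCurve Filter Topology

namespace Pool.Agent.Y720.MZ

section loc

variable {F : Type*} [NontriviallyNormedField F] [CompleteSpace F] [CharZero F] [DecidableEq F]
  {α : Type*} [Fintype α] [DecidableEq α]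

/-- **A second direction, locally.** -/
theorem loc_near {f : MvPolynomial α F} {v e x₀ : α → F} {y₀ : F}
    (hP : onX f x₀ y₀) (hw : y₀ ≠ 0) {M : Type*} [Field M] [Algebra F M] {s₀ : M}
    (h0 : MvPolynomial.aeval (fun a => algebraMap F M (x₀ a) + s₀ * algebraMap F M (v a)) f = 0)
    (h1 : MvPolynomial.aeval (fun a => algebraMap F M (x₀ a) + s₀ * algebraMap F M (v a))
      (dd f v) ≠ 0)
    (h2 : MvPolynomial.aeval (fun a => algebraMap F M (x₀ a) + s₀ * algebraMap F M (v a))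
      (dd f e) ≠ 0)
    (hT : ∃ u : F, Tq f e (fun a => x₀ a + u * v a) ≠ 0) {δ : ℝ} (hδ : 0 < δ) :
    ∃ u Z : F, onX f (fun a => x₀ a + u * v a) Z ∧ Z ≠ 0 ∧ ‖u‖ < δ ∧ ‖Z - y₀‖ < δ ∧
      IO f e (fun a => x₀ a + u * v a) Z := by
  classical
  -- the polynomials
  set W : Polynomial F := rst f x₀ v with hW
  set Q : Fin 4 → Polynomial F := fun j => rst (gk f e ((j : ℕ) + 1)) x₀ v with hQ
  have hWe : ∀ u, W.eval u = MvPolynomial.eval (fun a => x₀ a + u * v a) f := by
    intro u
    rw [hW, rst_eval]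
    congr 1
  have hQe : ∀ j u, (Q j).eval u = cq f (fun a => x₀ a + u * v a) e j := fun j u =>
    gk_line f x₀ v e j u
  set A : Polynomial F := Q 1 with hA
  set B : Polynomial F := Q 0 * Q 2 - 4 * W * Q 3 with hB
  set C : Polynomial F := Q 0 ^ 2 * Q 3 + W * Q 2 ^ 2 - 4 * W * Q 1 * Q 3 with hC
  set N : Polynomial F := Q 0 ^ 2 - 4 * W * Q 1 with hN
  have hW0 : Polynomial.aeval s₀ W = 0 := by rw [hW, aeval_rst]; exact h0
  have hW1 : Polynomial.aeval s₀ (Polynomial.derivative W) ≠ 0 := by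
    rw [hW, rst_deriv, aeval_rst]; exact h1
  have hN0 : Polynomial.aeval s₀ N ≠ 0 := by
    have e1 : Polynomial.aeval s₀ (Q 0) ≠ 0 := by
      rw [hQ]
      dsimp only
      have : ((0 : Fin 4) : ℕ) + 1 = 1 := rfl
      rw [this, gk_one, aeval_rst]
      exact h2
    rw [hN, map_sub, map_mul, map_mul, hW0, map_pow, mul_zero, zero_mul, sub_zero]
    exact pow_ne_zero 2 e1
  have hTe : ∀ u, Tq f e (fun a => x₀ a + u * v a) = (dsc A B C).eval u := by
    intro u
    have h3 : (dsc A B C).eval u = dsc (A.eval u) (B.eval u) (C.eval u) := by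
      simp only [dsc, Polynomial.eval_sub, Polynomial.eval_add, Polynomial.eval_mul,
        Polynomial.eval_pow, Polynomial.eval_ofNat]
    rw [h3, hA, hB, hC]
    simp only [Polynomial.eval_sub, Polynomial.eval_add, Polynomial.eval_mul,
        Polynomial.eval_pow, Polynomial.eval_ofNat, hQe, hWe, Tq]
  have hAe : ∀ u Z, tA (th f e (fun a => x₀ a + u * v a) Z) = A.eval u := by
    intro u Z
    rw [hA, hQe]; rfl
  have hBe : ∀ u Z, onX f (fun a => x₀ a + u * v a) Z →
      tB (th f e (fun a => x₀ a + u * v a) Z) = B.eval u := by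
    intro u Z hZ
    simp only [hB, Polynomial.eval_sub, Polynomial.eval_mul, Polynomial.eval_ofNat, hQe, hWe,
      ← (show Z ^ 2 = MvPolynomial.eval (fun a => x₀ a + u * v a) f from hZ)]
    rfl
  have hCe : ∀ u Z, onX f (fun a => x₀ a + u * v a) Z →
      tC (th f e (fun a => x₀ a + u * v a) Z) = C.eval u := by
    intro u Z hZ
    simp only [hC, Polynomial.eval_sub, Polynomial.eval_add, Polynomial.eval_mul,
      Polynomial.eval_pow, Polynomial.eval_ofNat, hQe, hWe,
      ← (show Z ^ 2 = MvPolynomial.eval (fun a => x₀ a + u * v a) f from hZ)]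
    rfl
  have hT0 : dsc A B C ≠ 0 := by
    obtain ⟨u, hu⟩ := hT
    intro h
    rw [hTe, h, Polynomial.eval_zero] at hu
    exact hu rfl
  have hWne : W ≠ 0 := by
    intro h
    apply hW1
    rw [h, Polynomial.derivative_zero, map_zero]
  have hfinT : {u : F | (dsc A B C).eval u = 0}.Finite := Polynomial.finite_setOf_isRoot hT0
  have hfinW : {u : F | W.eval u = 0}.Finite := Polynomial.finite_setOf_isRoot hWne
  have hcnt : (⋃ m : ℕ, {u : F | ¬((∀ i ≤ m, (itd (A.eval u) (B.eval u) (C.eval u)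
      (N.eval u, 4 * W.eval u) i).2 ≠ 0) ∧ ∀ i ≤ m, ∀ j ≤ m, i ≠ j →
        (itd (A.eval u) (B.eval u) (C.eval u) (N.eval u, 4 * W.eval u) i).1 *
          (itd (A.eval u) (B.eval u) (C.eval u) (N.eval u, 4 * W.eval u) j).2 -
        (itd (A.eval u) (B.eval u) (C.eval u) (N.eval u, 4 * W.eval u) j).1 *
          (itd (A.eval u) (B.eval u) (C.eval u) (N.eval u, 4 * W.eval u) i).2 ≠ 0)}).Countable :=
    Set.countable_iUnion fun m =>
      (itd_finite (a := A) (b := B) (c := C) hW0 hW1 hN0 m).countable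
  have hdense := (Set.Countable.dense_compl F
    (hcnt.union (hfinT.countable.union hfinW.countable)))
  obtain ⟨ρ, hρ, hsq⟩ := sq_near hP hw hδ
  obtain ⟨ρ', hρ', -, hdir⟩ := dir_bound (s := fun _ : Unit => RingHom.id F) v hρ
  obtain ⟨u, hu1, hu2⟩ := Metric.dense_iff.1 hdense 0 (min δ ρ') (lt_min hδ hρ')
  rw [mem_ball_zero_iff] at hu1
  rw [Set.mem_compl_iff, Set.mem_union, Set.mem_union, not_or, not_or] at hu2
  obtain ⟨g1, g2, g3⟩ := hu2
  obtain ⟨Z, hZ1, hZ2⟩ := hsq (fun a => x₀ a + u * v a) (fun a => by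
    rw [add_sub_cancel_left]
    exact hdir () a _ (hu1.trans_le (min_le_right _ _)))
  have hZ0 : Z ≠ 0 := by
    intro h
    apply g3
    change W.eval u = 0
    rw [hWe, ← hZ2, h, zero_pow two_ne_zero]
  refine ⟨u, Z, hZ2, hZ0, hu1.trans_le (min_le_left _ _), hZ1, ?_, ?_⟩
  · rw [Tq_eq hZ2, hTe]
    exact g2
  · intro h n hn
    have g4 : (∀ i ≤ n, (itd (A.eval u) (B.eval u) (C.eval u)
      (N.eval u, 4 * W.eval u) i).2 ≠ 0) ∧ ∀ i ≤ n, ∀ j ≤ n, i ≠ j →
        (itd (A.eval u) (B.eval u) (C.eval u) (N.eval u, 4 * W.eval u) i).1 *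
          (itd (A.eval u) (B.eval u) (C.eval u) (N.eval u, 4 * W.eval u) j).2 -
        (itd (A.eval u) (B.eval u) (C.eval u) (N.eval u, 4 * W.eval u) j).1 *
          (itd (A.eval u) (B.eval u) (C.eval u) (N.eval u, 4 * W.eval u) i).2 ≠ 0 := by
      by_contra hcon
      exact g1 (Set.mem_iUnion.2 ⟨n, hcon⟩)
    have hx : tX (th f e (fun a => x₀ a + u * v a) Z) * (4 * W.eval u) = N.eval u := by
      have e1 : W.eval u = Z ^ 2 := by rw [hWe, ← hZ2]
      have e2 : N.eval u = cq f (fun a => x₀ a + u * v a) e 0 ^ 2 -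
          4 * Z ^ 2 * cq f (fun a => x₀ a + u * v a) e 1 := by
        simp only [hN, Polynomial.eval_sub, Polynomial.eval_mul, Polynomial.eval_pow,
          Polynomial.eval_ofNat, hQe, e1]
      rw [e2, e1]
      simp only [tX, th, xs]
      field_simp
    revert h
    rw [hAe u Z, hBe u Z hZ2, hCe u Z hZ2]
    intro h
    exact nontor_of_itd (N := N.eval u) (D := 4 * W.eval u) h hx g4.1 g4.2 n hn le_rfl

end loc

/-- the difference of the two points has infinite order, with classical decidability -/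
def IOt {F : Type*} [Field F] [CharZero F] (θ : F × (Fin 4 → F)) : Prop :=
  letI : DecidableEq F := Classical.decEq F
  dsc (tA θ) (tB θ) (tC θ) ≠ 0 ∧
    ∀ h, ∀ n : ℕ, n ≠ 0 → n • (.some (tX θ) (tY θ) h : Pt (tA θ) (tB θ) (tC θ)) ≠ 0

section gen

lemma dd_map {R S : Type*} [Field R] [CharZero R] [Field S] [CharZero S] {α : Type*} [Fintype α]
    (φ : R →+* S) (f : MvPolynomial α R) (e : α → R) :
    dd (MvPolynomial.map φ f) (fun a => φ (e a)) = MvPolynomial.map φ (dd f e) := by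
  simp only [dd, map_sum, map_mul, MvPolynomial.map_C, MvPolynomial.pderiv_map]

/-- the condition for the transfer from the direction `v` to the direction `e`, at a place -/
def Tr {α : Type*} [Fintype α] {F : Type*} [Field F] [CharZero F] (f : MvPolynomial α F)
    (v e x₀ : α → F) : Prop :=
  (∃ s₀ : AlgebraicClosure F,
    MvPolynomial.aeval (fun a => algebraMap F (AlgebraicClosure F) (x₀ a) +
      s₀ * algebraMap F (AlgebraicClosure F) (v a)) f = 0 ∧
    MvPolynomial.aeval (fun a => algebraMap F (AlgebraicClosure F) (x₀ a) +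
      s₀ * algebraMap F (AlgebraicClosure F) (v a)) (dd f v) ≠ 0 ∧
    MvPolynomial.aeval (fun a => algebraMap F (AlgebraicClosure F) (x₀ a) +
      s₀ * algebraMap F (AlgebraicClosure F) (v a)) (dd f e) ≠ 0) ∧
  ∃ u : F, Tq f e (fun a => x₀ a + u * v a) ≠ 0

variable {K : Type*} [Field K] [CharZero K] {V : Type*} [Finite V] {L : V → Type*}
  [∀ v, NontriviallyNormedField (L v)] [∀ v, CompleteSpace (L v)] [∀ v, CharZero (L v)]
  {s : ∀ v, K →+* L v} {α : Type*} [Fintype α] [DecidableEq α]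

/-- the property of the set of places: near a local point of infinite order on genus one curves
the rational points are dense -/
def HW (s : ∀ v, K →+* L v) : Prop :=
  ∀ θ : ∀ v, L v × (Fin 4 → L v), (∀ v, (θ v).1 ≠ 0) → (∀ v, IOt (θ v)) → WAqL s θ

/-- a direction in which the difference has infinite order, at a local point -/
theorem mv_ioL (HWs : HW s) {f : MvPolynomial α K} {e : α → K}
    (he : ∀ z, (rst f z e).natDegree ≤ 4) {x₀ : ∀ v, α → L v} {y₀ : ∀ v, L v}
    (hw : ∀ v, y₀ v ≠ 0) (h : ∀ v, IOt (th (MvPolynomial.map (s v) f)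
      (fun a => s v (e a)) (x₀ v) (y₀ v))) : MvL s f e x₀ y₀ :=
  mv_quarticL he (HWs (fun v => (y₀ v, cq (MvPolynomial.map (s v) f)
    (x₀ v) (fun a => s v (e a)))) hw h)

/-- **Transfer, at a local point.** -/
theorem mv_transferL (HWs : HW s) {f : MvPolynomial α K}
    {v e : α → K} {x₀ : ∀ v, α → L v} {y₀ : ∀ v, L v}
    (hP : ∀ v, onX (MvPolynomial.map (s v) f) (x₀ v) (y₀ v)) (hw : ∀ v, y₀ v ≠ 0)
    (hv : MvL s f v x₀ y₀) (he : ∀ z, (rst f z e).natDegree ≤ 4)
    (hT : ∀ v', Tr (MvPolynomial.map (s v') f) (fun a => s v' (v a))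
      (fun a => s v' (e a)) (x₀ v')) : MvL s f e x₀ y₀ := by
  refine mv_viaL hP hw hv fun δ hδ => ?_
  have h1 : ∀ v' : V, ∃ u Z : L v',
      onX (MvPolynomial.map (s v') f) (fun a => x₀ v' a + u * s v' (v a)) Z ∧ Z ≠ 0 ∧
      ‖u‖ < δ ∧ ‖Z - y₀ v'‖ < δ ∧ IOt (th (MvPolynomial.map (s v') f)
        (fun a => s v' (e a)) (fun a => x₀ v' a + u * s v' (v a)) Z) := by
    intro v'
    letI : DecidableEq (L v') := Classical.decEq _
    obtain ⟨⟨s₀, k1, k2, k3⟩, k4⟩ := hT v'
    exact loc_near (hP v') (hw v') k1 k2 k3 k4 hδ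
  choose u Z k1 k2 k3 k4 k5 using h1
  exact ⟨u, Z, k1, k2, fun v' => ⟨k3 v', k4 v'⟩, mv_ioL HWs he k2 k5⟩

end gen

section all

variable {K : Type*} [Field K] [CharZero K] {ι : Type*} [Finite ι] {p : ι → ℕ}
  [hp : ∀ i, Fact (p i).Prime] {σ : ∀ i, K →+* ℚ_[p i]} {τ : K →+* ℝ}

instance instCZ : ∀ v, CharZero (Lv p v)
  | none => inferInstanceAs (CharZero ℝ)
  | some i => inferInstanceAs (CharZero ℚ_[p i])

/-- the real place and p-adic places -/
theorem hw_all [Nonempty ι] (hinj : Function.Injective p) (σ : ∀ i, K →+* ℚ_[p i])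
    (τ : K →+* ℝ) : HW (sv σ τ) := by
  intro θ hw hS
  have : Fintype ι := Fintype.ofFinite ι
  letI : DecidableEq K := Classical.decEq K
  letI : ∀ i, DecidableEq ℚ_[p i] := fun i => Classical.decEq _
  letI : DecidableEq ℝ := Classical.decEq ℝ
  obtain ⟨δ, hδ, h⟩ := lemEL (σ := σ) (τ := τ) (θ₀ := fun i => θ (some i)) (θ' := θ none) hinj
    (fun i => hw (some i)) (hw none) (fun i => (hS (some i)).1) (hS none).1
    (fun i => (hS (some i)).2) (hS none).2
  refine ⟨δ, hδ, fun θ h1 h2 t Y ht hY he η hη => ?_⟩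
  obtain ⟨u, Z, g1, g2, g3, g4⟩ := h θ (fun i => h1 (some i)) (fun i j => h2 (some i) j) (h1 none)
    (fun j => h2 none j) (fun i => t (some i)) (fun i => Y (some i)) (t none) (Y none)
    (fun i => ht (some i)) (fun i => hY (some i)) (ht none) (hY none) (fun i => he (some i))
    (he none) η hη
  refine ⟨u, Z, g1, ?_⟩
  rintro (_ | i)
  · exact ⟨g3, g4⟩
  · exact g2 i

/-- p-adic places only -/
theorem hw_p [Nonempty ι] (hinj : Function.Injective p) (σ : ∀ i, K →+* ℚ_[p i]) : HW σ := by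
  intro θ hw hS
  have : Fintype ι := Fintype.ofFinite ι
  letI : DecidableEq K := Classical.decEq K
  letI : ∀ i, DecidableEq ℚ_[p i] := fun i => Classical.decEq _
  obtain ⟨δ, hδ, h⟩ := lemEp (σ := σ) (θ₀ := θ) hinj hw (fun i => (hS i).1) (fun i => (hS i).2)
  exact ⟨δ, hδ, h⟩

/-- weak approximation for the line, p-adic places only -/
theorem dn_p (hinj : Function.Injective p) (σ : ∀ i, K →+* ℚ_[p i]) : Dn σ := by
  intro m η hη
  have h1 : ∀ i, ∃ r : ℚ, ‖σ i (r : K) - m i‖ < η / 2 := fun i =>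
    near_padic (σ i) (m i) (half_pos hη)
  choose r hr using h1
  have h2 := AbsoluteValue.denseRange_algebraMap_pi (F := ℚ)
    (v := fun i => vq p (some i)) (fun i => vq_nontrivial (some i))
    (fun i j hij => vq_pairwise hinj (fun h => hij (Option.some.inj h)))
  have : Fintype ι := Fintype.ofFinite ι
  obtain ⟨x, hx⟩ := Metric.denseRange_iff.1 h2
    (fun i => (WithAbs.equiv (vq p (some i))).symm (r i)) (η / 2) (half_pos hη)
  rw [dist_pi_lt_iff (half_pos hη)] at hx
  refine ⟨(x : K), fun i => ?_⟩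
  have h3 := hx i
  have h4 : ‖σ i ((r i - x : ℚ) : K)‖ < η / 2 := by
    have e : ‖σ i ((r i - x : ℚ) : K)‖ = vq p (some i) (r i - x) := by
      change ‖σ i ((r i - x : ℚ) : K)‖ = Rat.AbsoluteValue.padic (p i) (r i - x)
      rw [map_ratCast, Rat.AbsoluteValue.padic_eq_padicNorm, Padic.eq_padicNorm]
    rw [e]
    rw [dist_eq_norm] at h3
    exact h3
  rw [Rat.cast_sub, map_sub] at h4
  have h5 := norm_sub_le_norm_sub_add_norm_sub (σ i (x : K)) (σ i (r i : K)) (m i)
  rw [norm_sub_rev (σ i (x : K)) (σ i (r i : K))] at h5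
  have h6 := hr i
  linarith

end all

end Pool.Agent.Y720.MZ
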