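import Pool.Agent.Y720.WL.Cn

/-!
# Conic bundles `w² = A(z) y² + B(z) y + C(z)` (helper720)
-/

set_option autoImplicit false
set_option linter.unusedVariables false
set_option linter.unusedSectionVars false

open Filter Topology

namespace Pool.Agent.Y720.MZ

section alg

variable {F : Type*} [Field F] [CharZero F] {α : Type*} [Fintype α]

lemma rst_qpol {f : MvPolynomial α F} {z e : α → F} (h : (rst f z e).natDegree ≤ 4) :
    rst f z e = qpol (MvPolynomial.eval z f) (cq f z e 0) (cq f z e 1) (cq f z e 2)
      (cq f z e 3) := by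
  have h3 : (rst f z e).coeff 0 = MvPolynomial.eval z f := by
    rw [Polynomial.coeff_zero_eq_eval_zero, rst_eval]
    simp
  conv_lhs => rw [(rst f z e).as_sum_range_C_mul_X_pow' (n := 5) (by omega)]
  simp only [Finset.sum_range_succ, Finset.sum_range_zero, h3, qpol, cq]
  have g0 : ((0 : Fin 4) : ℕ) = 0 := rfl
  have g1 : ((1 : Fin 4) : ℕ) = 1 := rfl
  have g2 : ((2 : Fin 4) : ℕ) = 2 := rfl
  have g3 : ((3 : Fin 4) : ℕ) = 3 := rfl
  rw [g0, g1, g2, g3]
  simp

lemma Tq_ne {f : MvPolynomial α F} {z e : α → F} (h : (rst f z e).natDegree ≤ 4)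
    (hs : (rst f z e).Separable) (h3 : 3 ≤ (rst f z e).natDegree) : Tq f e z ≠ 0 := by
  rw [rst_qpol h] at hs h3
  exact dc_ne_zero hs h3

lemma aeval_C_eq (A : MvPolynomial α F) (z : α → F) :
    MvPolynomial.aeval (fun i => Polynomial.C (z i)) A = Polynomial.C (MvPolynomial.eval z A) := by
  induction A using MvPolynomial.induction_on with
  | C a => simp
  | add p q hp hq => rw [map_add, hp, hq, map_add, map_add]
  | mul_X p i hp => rw [map_mul, hp, MvPolynomial.aeval_X, map_mul, map_mul, MvPolynomial.eval_X]

variable [DecidableEq α]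

/-- the equation of a conic bundle -/
noncomputable def cb (A B C : MvPolynomial α F) : MvPolynomial (Option α) F :=
  MvPolynomial.rename some A * MvPolynomial.X none ^ 2 +
    MvPolynomial.rename some B * MvPolynomial.X none + MvPolynomial.rename some C

lemma eval_cb (A B C : MvPolynomial α F) (x : Option α → F) :
    MvPolynomial.eval x (cb A B C) = MvPolynomial.eval (fun i => x (some i)) A * x none ^ 2 +
      MvPolynomial.eval (fun i => x (some i)) B * x none +
      MvPolynomial.eval (fun i => x (some i)) C := by
  simp only [cb, map_add, map_mul, map_pow, MvPolynomial.eval_rename, MvPolynomial.eval_X]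
  rfl

lemma map_cb {S : Type*} [Field S] [CharZero S] (φ : F →+* S) (A B C : MvPolynomial α F) :
    MvPolynomial.map φ (cb A B C) = cb (MvPolynomial.map φ A) (MvPolynomial.map φ B)
      (MvPolynomial.map φ C) := by
  simp only [cb, map_add, map_mul, map_pow, MvPolynomial.map_rename, MvPolynomial.map_X]

lemma rst_ren_none (A : MvPolynomial α F) (x : Option α → F) :
    rst (MvPolynomial.rename some A) x (Pi.single none 1) =
      Polynomial.C (MvPolynomial.eval (fun i => x (some i)) A) := by
  rw [rst, MvPolynomial.aeval_rename, ← aeval_C_eq]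
  congr 2
  funext i
  simp

lemma rst_ren_some (A : MvPolynomial α F) (x : Option α → F) (j : α) :
    rst (MvPolynomial.rename some A) x (Pi.single (some j) 1) =
      rst A (fun i => x (some i)) (Pi.single j 1) := by
  rw [rst, rst, MvPolynomial.aeval_rename]
  congr 2
  funext i
  simp only [Function.comp]
  by_cases hi : i = j
  · subst hi; simp
  · rw [Pi.single_eq_of_ne hi, Pi.single_eq_of_ne (fun h => hi (Option.some.inj h))]

lemma rst_cb_none (A B C : MvPolynomial α F) (x : Option α → F) :
    rst (cb A B C) x (Pi.single none 1) =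
      Polynomial.C (MvPolynomial.eval (fun i => x (some i)) A) *
        (Polynomial.C (x none) + Polynomial.X) ^ 2 +
      Polynomial.C (MvPolynomial.eval (fun i => x (some i)) B) *
        (Polynomial.C (x none) + Polynomial.X) +
      Polynomial.C (MvPolynomial.eval (fun i => x (some i)) C) := by
  have hX : rst (MvPolynomial.X none : MvPolynomial (Option α) F) x (Pi.single none 1) =
      Polynomial.C (x none) + Polynomial.X := by
    simp [rst]
  have h : ∀ p q : MvPolynomial (Option α) F, rst (p + q) x (Pi.single none 1) =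
      rst p x (Pi.single none 1) + rst q x (Pi.single none 1) := fun p q => by simp [rst]
  have h' : ∀ p q : MvPolynomial (Option α) F, rst (p * q) x (Pi.single none 1) =
      rst p x (Pi.single none 1) * rst q x (Pi.single none 1) := fun p q => by simp [rst]
  rw [cb, h, h, h', h', sq, h', hX, rst_ren_none, rst_ren_none, rst_ren_none]
  ring

lemma rst_cb_some (A B C : MvPolynomial α F) (x : Option α → F) (j : α) :
    rst (cb A B C) x (Pi.single (some j) 1) =
      rst A (fun i => x (some i)) (Pi.single j 1) * Polynomial.C (x none) ^ 2 +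
      rst B (fun i => x (some i)) (Pi.single j 1) * Polynomial.C (x none) +
      rst C (fun i => x (some i)) (Pi.single j 1) := by
  have hX : rst (MvPolynomial.X none : MvPolynomial (Option α) F) x (Pi.single (some j) 1) =
      Polynomial.C (x none) := by
    simp [rst]
  have h : ∀ p q : MvPolynomial (Option α) F, rst (p + q) x (Pi.single (some j) 1) =
      rst p x (Pi.single (some j) 1) + rst q x (Pi.single (some j) 1) := fun p q => by simp [rst]
  have h' : ∀ p q : MvPolynomial (Option α) F, rst (p * q) x (Pi.single (some j) 1) =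
      rst p x (Pi.single (some j) 1) * rst q x (Pi.single (some j) 1) := fun p q => by simp [rst]
  rw [cb, h, h, h', h', sq, h', hX, rst_ren_some, rst_ren_some, rst_ren_some]
  ring

lemma deg_cb_none (A B C : MvPolynomial α F) (x : Option α → F) :
    (rst (cb A B C) x (Pi.single none 1)).natDegree ≤ 2 := by
  rw [rst_cb_none]
  compute_degree

lemma deg_rst {A : MvPolynomial α F} {j : α} {n : ℕ} (h : A.degreeOf j ≤ n) (z : α → F) :
    (rst A z (Pi.single j 1)).natDegree ≤ n := by
  refine rst_deg (T := {j}) (fun d hd => ?_) fun i hi => ?_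
  · rw [Finset.sum_singleton]
    exact MvPolynomial.degreeOf_le_iff.1 h d hd
  · rw [Pi.single_eq_of_ne (by simpa using hi)]

lemma deg_cb_some {A B C : MvPolynomial α F} {j : α} {n : ℕ} (hA : A.degreeOf j ≤ n)
    (hB : B.degreeOf j ≤ n) (hC : C.degreeOf j ≤ n) (x : Option α → F) :
    (rst (cb A B C) x (Pi.single (some j) 1)).natDegree ≤ n := by
  rw [rst_cb_some, ← Polynomial.C_pow]
  refine (Polynomial.natDegree_add_le _ _).trans (max_le ((Polynomial.natDegree_add_le _ _).trans
    (max_le ?_ ?_)) (deg_rst hC _))
  · exact (Polynomial.natDegree_mul_C_le _ _).trans (deg_rst hA _)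
  · exact (Polynomial.natDegree_mul_C_le _ _).trans (deg_rst hB _)

lemma dv_cb (A B C : MvPolynomial α F) (x : Option α → F) :
    dv (cb A B C) x (Pi.single none 1) = MvPolynomial.eval (fun i => x (some i)) B ^ 2 -
      4 * MvPolynomial.eval (fun i => x (some i)) A * MvPolynomial.eval (fun i => x (some i)) C := by
  rw [dv, rst_cb_none]
  set a := MvPolynomial.eval (fun i => x (some i)) A
  set b := MvPolynomial.eval (fun i => x (some i)) B
  set c := MvPolynomial.eval (fun i => x (some i)) C
  set y := x none
  have e : (Polynomial.C a * (Polynomial.C y + Polynomial.X) ^ 2 +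
      Polynomial.C b * (Polynomial.C y + Polynomial.X) + Polynomial.C c : Polynomial F) =
      Polynomial.C (a * y ^ 2 + b * y + c) + Polynomial.C (2 * a * y + b) * Polynomial.X +
        Polynomial.C a * Polynomial.X ^ 2 := by
    simp only [map_add, map_mul, map_pow, map_ofNat]
    ring
  have k : ∀ u v w : F, (Polynomial.C u + Polynomial.C v * Polynomial.X +
      Polynomial.C w * Polynomial.X ^ 2).coeff 0 = u ∧ (Polynomial.C u + Polynomial.C v *
      Polynomial.X + Polynomial.C w * Polynomial.X ^ 2).coeff 1 = v ∧ (Polynomial.C u +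
      Polynomial.C v * Polynomial.X + Polynomial.C w * Polynomial.X ^ 2).coeff 2 = w := by
    intro u v w
    refine ⟨?_, ?_, ?_⟩ <;>
      simp [Polynomial.coeff_X, Polynomial.coeff_C, Polynomial.coeff_X_pow]
  rw [e, (k _ _ _).1, (k _ _ _).2.1, (k _ _ _).2.2]
  ring

lemma dd_single {β : Type*} [Fintype β] [DecidableEq β] (f : MvPolynomial β F) (i : β) :
    dd f (Pi.single i 1) = MvPolynomial.pderiv i f := by
  rw [dd, Finset.sum_eq_single i]
  · simp
  · intro j _ hj
    rw [Pi.single_eq_of_ne hj, map_zero, zero_mul]
  · intro h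
    exact absurd (Finset.mem_univ i) h

lemma pderiv_ren_none (A : MvPolynomial α F) :
    MvPolynomial.pderiv none (MvPolynomial.rename some A) = 0 := by
  apply MvPolynomial.pderiv_eq_zero_of_notMem_vars
  intro h
  have h2 := MvPolynomial.vars_rename some A h
  simp at h2

lemma pderiv_ren_some (A : MvPolynomial α F) (j : α) :
    MvPolynomial.pderiv (some j) (MvPolynomial.rename some A) =
      MvPolynomial.rename some (MvPolynomial.pderiv j A) := by
  induction A using MvPolynomial.induction_on with
  | C a => simp
  | add p q hp hq => simp only [map_add, hp, hq]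
  | mul_X p i hp =>
    simp only [map_mul, MvPolynomial.rename_X, Derivation.leibniz, MvPolynomial.pderiv_X, hp,
      smul_eq_mul, map_add]
    by_cases hi : i = j
    · subst hi; simp
    · have e1 : (Pi.single j 1 : α → MvPolynomial α F) i = 0 := Pi.single_eq_of_ne hi _
      have e2 : (Pi.single (some j) 1 : Option α → MvPolynomial (Option α) F) (some i) = 0 :=
        Pi.single_eq_of_ne (fun h => hi (Option.some.inj h)) _
      rw [e2, e1]
      simp

/-- the condition on the point `z` of the base -/
def Gd (A B C : MvPolynomial α F) (z : α → F) (j : α) : Prop :=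
  (MvPolynomial.eval z A * MvPolynomial.eval z (MvPolynomial.pderiv j B) ≠
      MvPolynomial.eval z B * MvPolynomial.eval z (MvPolynomial.pderiv j A) ∨
    MvPolynomial.eval z A * MvPolynomial.eval z (MvPolynomial.pderiv j C) ≠
      MvPolynomial.eval z C * MvPolynomial.eval z (MvPolynomial.pderiv j A)) ∧
  ∃ y : F, Tq (cb A B C) (Pi.single (some j) 1) (po y z) ≠ 0

/-- two binary quadratic polynomials without a common root -/
lemma root_ex {M : Type*} [Field M] [CharZero M] [IsAlgClosed M] {a b c a' b' c' : M}
    (ha : a ≠ 0) (hD : b ^ 2 - 4 * a * c ≠ 0) (h : a * b' ≠ b * a' ∨ a * c' ≠ c * a') :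
    ∃ r : M, a * r ^ 2 + b * r + c = 0 ∧ 2 * a * r + b ≠ 0 ∧ a' * r ^ 2 + b' * r + c' ≠ 0 := by
  obtain ⟨d, hd⟩ := IsAlgClosed.exists_pow_nat_eq (b ^ 2 - 4 * a * c) (n := 2) (by norm_num)
  have hd0 : d ≠ 0 := by
    rintro rfl
    exact hD (by rw [← hd]; ring)
  have h2a : 2 * a ≠ 0 := mul_ne_zero two_ne_zero ha
  have key : ∀ e : M, e ^ 2 = b ^ 2 - 4 * a * c → e ≠ 0 →
      a * ((-b + e) / (2 * a)) ^ 2 + b * ((-b + e) / (2 * a)) + c = 0 ∧
      2 * a * ((-b + e) / (2 * a)) + b ≠ 0 := by
    intro e he he0
    constructor
    · field_simp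
      linear_combination he
    · have : 2 * a * ((-b + e) / (2 * a)) = -b + e := mul_div_cancel₀ _ h2a
      rw [this]
      intro h0
      exact he0 (by linear_combination h0)
  by_contra hcon
  push Not at hcon
  obtain ⟨k1, k2⟩ := key d hd hd0
  obtain ⟨k3, k4⟩ := key (-d) (by rw [neg_sq, hd]) (neg_ne_zero.2 hd0)
  have m1 := hcon _ k1 k2
  have m2 := hcon _ k3 k4
  set r₁ := (-b + d) / (2 * a) with hr₁
  set r₂ := (-b + -d) / (2 * a) with hr₂
  have e1 : 2 * a * r₁ = -b + d := mul_div_cancel₀ _ h2a
  have e2 : 2 * a * r₂ = -b + -d := mul_div_cancel₀ _ h2a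
  have h12 : r₁ - r₂ ≠ 0 := by
    intro h0
    apply mul_ne_zero two_ne_zero hd0
    linear_combination 2 * a * h0 - e1 + e2
  have hs : a * (r₁ + r₂) = -b := by
    apply mul_left_cancel₀ (two_ne_zero (α := M))
    linear_combination e1 + e2
  have hb : a' * (r₁ + r₂) + b' = 0 := by
    apply (mul_eq_zero.1 (?_ : (r₁ - r₂) * _ = 0)).resolve_left h12
    linear_combination m1 - m2
  have hb' : a * b' = b * a' := by linear_combination a * hb - a' * hs
  have hc' : a * c' = c * a' := by linear_combination a * m1 - a' * k1 - r₁ * hb'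
  rcases h with h | h
  · exact h hb'
  · exact h hc'

/-- the transfer condition for a conic bundle -/
lemma Tr_cb {A B C : MvPolynomial α F} {x : Option α → F} {j : α}
    (hA : MvPolynomial.eval (fun i => x (some i)) A ≠ 0)
    (hD : MvPolynomial.eval (fun i => x (some i)) B ^ 2 -
      4 * MvPolynomial.eval (fun i => x (some i)) A *
        MvPolynomial.eval (fun i => x (some i)) C ≠ 0)
    (hG : Gd A B C (fun i => x (some i)) j) :
    Tr (cb A B C) (Pi.single none 1) (Pi.single (some j) 1) x := by
  set z : α → F := fun i => x (some i) with hz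
  obtain ⟨h1, y, h2⟩ := hG
  constructor
  · set φ := algebraMap F (AlgebraicClosure F) with hφ
    have hφi : Function.Injective φ := φ.injective
    obtain ⟨r, k1, k2, k3⟩ := root_ex (M := AlgebraicClosure F) (a := φ (MvPolynomial.eval z A))
      (b := φ (MvPolynomial.eval z B)) (c := φ (MvPolynomial.eval z C))
      (a' := φ (MvPolynomial.eval z (MvPolynomial.pderiv j A)))
      (b' := φ (MvPolynomial.eval z (MvPolynomial.pderiv j B)))
      (c' := φ (MvPolynomial.eval z (MvPolynomial.pderiv j C)))
      ((map_ne_zero φ).2 hA) (by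
        intro h0
        apply hD
        apply hφi
        simpa only [map_sub, map_pow, map_mul, map_ofNat, map_zero] using h0) (by
        rcases h1 with h1 | h1
        · left
          intro h
          apply h1
          apply hφi
          rw [map_mul φ, map_mul φ]
          exact h
        · right
          intro h
          apply h1
          apply hφi
          rw [map_mul φ, map_mul φ]
          exact h)
    -- evaluation at the point over the root
    have hpt : ∀ g : MvPolynomial α F, MvPolynomial.aeval (fun a => φ (x a) + (r - φ (x none)) *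
        φ ((Pi.single none 1 : Option α → F) a)) (MvPolynomial.rename some g) =
        φ (MvPolynomial.eval z g) := by
      intro g
      rw [MvPolynomial.aeval_rename]
      have e1 : ((fun a => φ (x a) + (r - φ (x none)) *
          φ ((Pi.single none 1 : Option α → F) a)) ∘ some) = fun i => φ (z i) := by
        funext i
        simp [hz]
      rw [e1]
      induction g using MvPolynomial.induction_on with
      | C a => simp [hφ]
      | add p q hp hq => rw [map_add, hp, hq, map_add, map_add]
      | mul_X p i hp =>
        rw [map_mul, hp, MvPolynomial.aeval_X, map_mul, MvPolynomial.eval_X, map_mul]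
    have hpn : φ (x none) + (r - φ (x none)) *
        φ ((Pi.single none 1 : Option α → F) none) = r := by
      simp
    refine ⟨r - φ (x none), ?_, ?_, ?_⟩
    · rw [cb, map_add, map_add, map_mul, map_mul, map_pow, MvPolynomial.aeval_X, hpt, hpt, hpt, hpn]
      exact k1
    · rw [dd_single, cb]
      simp only [map_add, Derivation.leibniz, Derivation.leibniz_pow, pderiv_ren_none,
        MvPolynomial.pderiv_X_self, smul_zero, add_zero, map_mul, map_pow, MvPolynomial.aeval_X,
        smul_eq_mul, nsmul_eq_mul, mul_one]
      intro h0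
      simp only [hpt, hpn, map_zero, mul_zero, add_zero, Nat.cast_ofNat, map_ofNat, pow_one,
        Nat.add_one_sub_one] at h0
      apply k2
      linear_combination h0
    · rw [dd_single, cb]
      have e0 : MvPolynomial.pderiv (some j) (MvPolynomial.X none : MvPolynomial (Option α) F) = 0 :=
        MvPolynomial.pderiv_X_of_ne (by simp)
      simp only [map_add, Derivation.leibniz, Derivation.leibniz_pow, pderiv_ren_some, e0,
        smul_zero, zero_add, map_mul, map_pow, MvPolynomial.aeval_X,
        smul_eq_mul, mul_zero]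
      intro h0
      simp only [hpt, hpn, map_zero, mul_zero, zero_add] at h0
      apply k3
      linear_combination h0
  · refine ⟨y - x none, ?_⟩
    have e1 : (fun a => x a + (y - x none) * (Pi.single none 1 : Option α → F) a) = po y z := by
      funext a
      rcases a with _ | i
      · simp [po]
      · simp [po, hz]
    rw [e1]
    exact h2

end alg

section main

variable {K : Type*} [Field K] [CharZero K] {V : Type*} [Finite V] {L : V → Type*}
  [∀ v, NontriviallyNormedField (L v)] [∀ v, CompleteSpace (L v)] [∀ v, CharZero (L v)]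
  {s : ∀ v, K →+* L v} {α : Type*} [Fintype α] [DecidableEq α]

lemma single_map (v : V) (b : Option α) :
    (fun a => s v ((Pi.single b 1 : Option α → K) a)) = Pi.single b 1 := by
  funext a
  by_cases h : a = b
  · subst h; simp
  · rw [Pi.single_eq_of_ne h, Pi.single_eq_of_ne h, map_zero]

/-- **The closure of the rational points of a conic bundle is open at the good points.** -/
theorem rc_int (hden : Dn s) (HWs : HW s) {A B C : MvPolynomial α K}
    (hd : ∀ j, A.degreeOf j ≤ 4 ∧ B.degreeOf j ≤ 4 ∧ C.degreeOf j ≤ 4)
    {x₀ : ∀ v, Option α → L v} {y₀ : ∀ v, L v}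
    (hP : ∀ v, onX (MvPolynomial.map (s v) (cb A B C)) (x₀ v) (y₀ v))
    (hA : ∀ v, MvPolynomial.eval (fun i => x₀ v (some i)) (MvPolynomial.map (s v) A) ≠ 0)
    (hD : ∀ v, MvPolynomial.eval (fun i => x₀ v (some i)) (MvPolynomial.map (s v) B) ^ 2 -
      4 * MvPolynomial.eval (fun i => x₀ v (some i)) (MvPolynomial.map (s v) A) *
        MvPolynomial.eval (fun i => x₀ v (some i)) (MvPolynomial.map (s v) C) ≠ 0)
    (hG : ∀ j, (A.degreeOf j ≤ 2 ∧ B.degreeOf j ≤ 2 ∧ C.degreeOf j ≤ 2) ∨
      ∀ v, Gd (MvPolynomial.map (s v) A) (MvPolynomial.map (s v) B)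
        (MvPolynomial.map (s v) C) (fun i => x₀ v (some i)) j) :
    IntL s (cb A B C) x₀ y₀ := by
  have hdegN : ∀ z, (rst (cb A B C) z (Pi.single none 1)).natDegree ≤ 2 := deg_cb_none A B C
  have hdegM : ∀ (v' : V) z, (rst (MvPolynomial.map (s v') (cb A B C)) z
      (fun a => s v' ((Pi.single none 1 : Option α → K) a))).natDegree ≤ 2 := by
    intro v' z
    rw [map_cb, single_map]
    exact deg_cb_none _ _ _ z
  have hDv : ∀ v', dv (MvPolynomial.map (s v') (cb A B C)) (x₀ v')
      (fun a => s v' ((Pi.single none 1 : Option α → K) a)) ≠ 0 := by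
    intro v'
    rw [map_cb, single_map, dv_cb]
    exact hD v'
  choose u Z hu hZ hPZ using fun v' => exists_pt (hdegM v') (hP v') (hDv v')
  refine int_conic hden hdegN hdegM hP hDv hu hZ hPZ ?_
  refine int_of_mvL hPZ hZ fun a => ?_
  have hcon : MvL s (cb A B C) (Pi.single none 1)
      (fun v' a => x₀ v' a + u v' * s v' ((Pi.single none 1 : Option α → K) a)) Z :=
    mv_conicL hden hdegN hZ
  rcases a with _ | j
  · exact hcon
  · rcases hG j with h | h
    · exact mv_conicL hden (deg_cb_some h.1 h.2.1 h.2.2) hZ
    · refine mv_transferL HWs hPZ hZ hcon (deg_cb_some (hd j).1 (hd j).2.1 (hd j).2.2)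
        fun v' => ?_
      have e1 : (fun i => (fun a => x₀ v' a + u v' *
          s v' ((Pi.single none 1 : Option α → K) a)) (some i)) =
          fun i => x₀ v' (some i) := by
        funext i
        simp
      rw [map_cb, single_map, single_map]
      refine Tr_cb ?_ ?_ ?_
      · rw [e1]; exact hA v'
      · rw [e1]; exact hD v'
      · rw [e1]; exact h v'

end main

end Pool.Agent.Y720.MZ
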