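import Pool.Agent.Y720.WL.Rc

/-!
# Moving along the conics: the closure is saturated (helper720)
-/

set_option autoImplicit false
set_option linter.unusedVariables false
set_option linter.unusedSectionVars false

open Filter Topology

namespace Pool.Agent.Y720.MZ

section loc

variable {F : Type*} [NontriviallyNormedField F] [CompleteSpace F] [CharZero F]
  {α : Type*} [Fintype α]

/-- other points of a smooth conic, close to a given one -/
lemma exists_pt_near {g : MvPolynomial α F} {v : α → F} (hv : ∀ z, (rst g z v).natDegree ≤ 2)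
    {x₁ : α → F} {y : F} (hxy : onX g x₁ y) (hD : dv g x₁ v ≠ 0) {κ : ℝ} (hκ : 0 < κ) :
    ∃ u Z : F, u ≠ 0 ∧ ‖u‖ < κ ∧ ‖Z - y‖ < κ ∧ onX g (fun a => x₁ a + u * v a) Z := by
  by_cases hy : y = 0
  · subst hy
    have h00 : (rst g x₁ v).coeff 0 = 0 := by
      have h1 := rst_expand hv x₁ 0
      have e : (fun a => x₁ a + 0 * v a) = x₁ := by funext a; ring
      rw [e, ← (show (0 : F) ^ 2 = MvPolynomial.eval x₁ g from hxy)] at h1
      linear_combination -h1
    have hb : (rst g x₁ v).coeff 1 ≠ 0 := by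
      intro h0
      apply hD
      rw [dv, h0, h00]
      ring
    set b₁ := (rst g x₁ v).coeff 1 with hb₁
    set c₁ := (rst g x₁ v).coeff 2 with hc₁
    have k1 : ∀ᶠ n : F in 𝓝 0, 1 - c₁ * n ^ 2 ≠ 0 := by
      have : ContinuousAt (fun n : F => 1 - c₁ * n ^ 2) 0 := by fun_prop
      exact this.eventually_ne (by simp)
    have k2 : ∀ᶠ n : F in 𝓝 0, ‖b₁ * n ^ 2 / (1 - c₁ * n ^ 2)‖ < κ := by
      have : ContinuousAt (fun n : F => b₁ * n ^ 2 / (1 - c₁ * n ^ 2)) 0 :=
        ContinuousAt.div (by fun_prop) (by fun_prop) (by simp)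
      have h2 := this.tendsto.norm
      simp only [ne_eq, OfNat.ofNat_ne_zero, not_false_eq_true, zero_pow, mul_zero, sub_zero,
        div_one, norm_zero] at h2
      exact h2.eventually_lt_const hκ
    have k3 : ∀ᶠ n : F in 𝓝 0, ‖b₁ * n / (1 - c₁ * n ^ 2)‖ < κ := by
      have : ContinuousAt (fun n : F => b₁ * n / (1 - c₁ * n ^ 2)) 0 :=
        ContinuousAt.div (by fun_prop) (by fun_prop) (by simp)
      have h2 := this.tendsto.norm
      simp only [ne_eq, OfNat.ofNat_ne_zero, not_false_eq_true, zero_pow, mul_zero, sub_zero,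
        div_one, norm_zero] at h2
      exact h2.eventually_lt_const hκ
    obtain ⟨ρ, hρ, hb3⟩ := Metric.eventually_nhds_iff_ball.1 (k1.and (k2.and k3))
    obtain ⟨n, hn0, hn⟩ := NormedField.exists_norm_lt F hρ
    obtain ⟨g1, g2, g3⟩ := hb3 n (by rwa [mem_ball_zero_iff])
    have hn0' : n ≠ 0 := norm_pos_iff.1 hn0
    refine ⟨b₁ * n ^ 2 / (1 - c₁ * n ^ 2), b₁ * n / (1 - c₁ * n ^ 2),
      div_ne_zero (mul_ne_zero hb (pow_ne_zero 2 hn0')) g1, g2, by rwa [sub_zero], ?_⟩
    unfold onX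
    rw [rst_expand hv, h00, ← hb₁, ← hc₁]
    obtain ⟨d, hd⟩ : ∃ d, d = 1 - c₁ * n ^ 2 := ⟨_, rfl⟩
    rw [← hd] at g1 ⊢
    have h3 : (b₁ * n / d) ^ 2 - (0 + b₁ * (b₁ * n ^ 2 / d) + c₁ * (b₁ * n ^ 2 / d) ^ 2) =
        b₁ ^ 2 * n ^ 2 * (1 - d - c₁ * n ^ 2) / d ^ 2 := by
      field_simp
      ring
    rw [← sub_eq_zero, h3, hd]
    ring
  · obtain ⟨ρ, hρ, hs⟩ := sq_near hxy hy hκ
    obtain ⟨ρ', hρ', -, hdir⟩ := dir_bound (s := fun _ : Unit => RingHom.id F) v hρ
    obtain ⟨u, hu0, hu⟩ := NormedField.exists_norm_lt F (lt_min hρ' hκ)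
    obtain ⟨Z, h1, h2⟩ := hs (fun a => x₁ a + u * v a) (fun a => by
      rw [add_sub_cancel_left]; exact hdir () a _ (hu.trans_le (min_le_left _ _)))
    exact ⟨u, Z, norm_pos_iff.1 hu0, hu.trans_le (min_le_right _ _), h1, h2⟩

end loc

section glob

variable {K : Type*} [Field K] [CharZero K] {V : Type*} [Finite V] {L : V → Type*}
  [∀ v, NontriviallyNormedField (L v)] [∀ v, CompleteSpace (L v)] {s : ∀ v, K →+* L v}
  {α : Type*} [Fintype α]

/-- the local point is a limit of rational points -/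
def Cls (s : ∀ v, K →+* L v) (f : MvPolynomial α K) (x : ∀ v, α → L v) (y : ∀ v, L v) : Prop :=
  ∀ η : ℝ, 0 < η → ∃ (z : α → K) (w : K), onX f z w ∧ nr s η z w x y

/-- **The closure is saturated with respect to the conics.** -/
theorem sat_conic (hden : Dn s) {f : MvPolynomial α K} {v : α → K}
    (hv : ∀ z, (rst f z v).natDegree ≤ 2)
    (hv' : ∀ (v' : V) z, (rst (MvPolynomial.map (s v') f) z (fun a => s v' (v a))).natDegree ≤ 2)
    {x₀ : ∀ v, α → L v} {y₀ : ∀ v, L v}
    (hD : ∀ v', dv (MvPolynomial.map (s v') f) (x₀ v') (fun a => s v' (v a)) ≠ 0)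
    {u Z : ∀ v, L v}
    (hPZ : ∀ v', onX (MvPolynomial.map (s v') f) (fun a => x₀ v' a + u v' * s v' (v a)) (Z v'))
    (hI : Cls s f x₀ y₀) : Cls s f (fun v' a => x₀ v' a + u v' * s v' (v a)) Z := by
  intro η hη
  by_cases hV : IsEmpty V
  · obtain ⟨z, w, h1, h2⟩ := hI 1 one_pos
    exact ⟨z, w, h1, fun v => (hV.false v).elim⟩
  rw [not_isEmpty_iff] at hV
  have hcz : ∀ v, CharZero (L v) := fun v => charZero_of_injective_ringHom (s v).injective
  obtain ⟨δ₁, hδ₁, hd1, hd1'⟩ := dv_near (s := s) (f := f) (e := v) hD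
  obtain ⟨κ, hκ, hκle, hdir⟩ := dir_bound (s := s) v (show (0 : ℝ) < η / 4 by positivity)
  have hD' : ∀ v', dv (MvPolynomial.map (s v') f) (fun a => x₀ v' a + u v' * s v' (v a))
      (fun a => s v' (v a)) ≠ 0 := by
    intro v'
    have := hcz v'
    rw [dv_shift (hv' v')]
    exact hD v'
  have hrn : ∀ v', ∃ ρ₀ : ℝ, 0 < ρ₀ ∧ ∀ x' : α → L v',
      (∀ a, ‖x' a - (x₀ v' a + u v' * s v' (v a))‖ < ρ₀) →
      ∃ ρ y' : L v', ‖ρ‖ < κ / 2 ∧ ‖y' - Z v'‖ < κ / 2 ∧
        onX (MvPolynomial.map (s v') f) (fun a => x' a + ρ * s v' (v a)) y' := by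
    intro v'
    have := hcz v'
    exact root_near (hv' v') (hPZ v') (hD' v') (half_pos hκ)
  choose r₀ hr₀ hr using hrn
  obtain ⟨r₁, hr₁, hr₁m⟩ := fin_min hr₀
  set ε := min (min r₁ δ₁) (η / 4) with hε
  have hε0 : 0 < ε := lt_min (lt_min hr₁ hδ₁) (by positivity)
  have a1 : ε ≤ r₁ := (min_le_left _ _).trans (min_le_left _ _)
  have a2 : ε ≤ δ₁ := (min_le_left _ _).trans (min_le_right _ _)
  have a3 : ε ≤ η / 4 := min_le_right _ _
  obtain ⟨z, w, hzw, hn⟩ := hI ε hε0
  -- the points of the conics of `z` close to the target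
  have hq : ∀ v', ∃ t Y : L v', t ≠ 0 ∧ ‖t - u v'‖ < κ ∧ ‖Y - Z v'‖ < κ ∧
      onX (MvPolynomial.map (s v') f) (fun a => s v' (z a) + t * s v' (v a)) Y := by
    intro v'
    have := hcz v'
    obtain ⟨ρ, y', h1, h2, h3⟩ := hr v' (fun a => s v' (z a) + u v' * s v' (v a)) (fun a => by
      have e1 : s v' (z a) + u v' * s v' (v a) - (x₀ v' a + u v' * s v' (v a)) =
          s v' (z a) - x₀ v' a := by ring
      rw [e1]
      exact ((hn v').1 a).trans_le (a1.trans (hr₁m v')))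
    have e2 : (fun a => s v' (z a) + u v' * s v' (v a) + ρ * s v' (v a)) =
        fun a => s v' (z a) + (u v' + ρ) * s v' (v a) := by
      funext a; ring
    rw [e2] at h3
    by_cases h0 : u v' + ρ = 0
    · have hD2 : dv (MvPolynomial.map (s v') f) (fun a => s v' (z a) + (u v' + ρ) * s v' (v a))
          (fun a => s v' (v a)) ≠ 0 := by
        rw [dv_shift (hv' v')]
        exact hd1' v' (fun a => s v' (z a)) fun a => ((hn v').1 a).trans_le a2
      obtain ⟨t, Y, g1, g2, g3, g4⟩ := exists_pt_near (hv' v') h3 hD2 (half_pos hκ)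
      refine ⟨t, Y, g1, ?_, ?_, ?_⟩
      · have e3 : t - u v' = t + ρ := by linear_combination -h0
        rw [e3]
        have := norm_add_le t ρ
        linarith
      · have := norm_sub_le_norm_sub_add_norm_sub Y y' (Z v')
        linarith
      · have e4 : (fun a => s v' (z a) + (u v' + ρ) * s v' (v a) + t * s v' (v a)) =
            fun a => s v' (z a) + t * s v' (v a) := by
          funext a
          rw [h0]; ring
        rwa [e4] at g4
    · refine ⟨u v' + ρ, y', h0, ?_, ?_, h3⟩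
      · rw [add_sub_cancel_left]; linarith
      · linarith
  choose t Y g1 g2 g3 g4 using hq
  obtain ⟨z₃, w₃, hzw₃, hn₃⟩ := conic_pts' hden (hv z) hzw
    (hd1 z hV fun v' a => ((hn v').1 a).trans_le a2) g1 g4 (show (0 : ℝ) < η / 4 by positivity)
  refine ⟨z₃, w₃, hzw₃, fun v' => ⟨fun a => ?_, ?_⟩⟩
  · have e1 : s v' (z₃ a) - (x₀ v' a + u v' * s v' (v a)) =
        (s v' (z₃ a) - (s v' (z a) + t v' * s v' (v a))) +
        (s v' (z a) - x₀ v' a) + (t v' - u v') * s v' (v a) := by ring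
    have k1 := (hn₃ v').1 a
    have k2 := (hn v').1 a
    have k3 := hdir v' a _ (g2 v')
    have k4 := norm_add_le ((s v' (z₃ a) - (s v' (z a) + t v' * s v' (v a))) +
        (s v' (z a) - x₀ v' a)) ((t v' - u v') * s v' (v a))
    have k5 := norm_add_le (s v' (z₃ a) - (s v' (z a) + t v' * s v' (v a)))
        (s v' (z a) - x₀ v' a)
    rw [e1]
    linarith
  · have k1 := (hn₃ v').2
    have k2 := (g3 v').trans_le hκle
    have k3 := norm_sub_le_norm_sub_add_norm_sub (s v' w₃) (Y v') (Z v')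
    linarith

end glob

end Pool.Agent.Y720.MZ
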