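import Pool.Agent.Y720.WL.Nt

/-!
# Multiples close to the origin in a family, the limit point may be a torsion point (helper720)
-/

set_option autoImplicit false
set_option linter.unusedVariables false
set_option linter.unusedSectionVars false

open WeierstrassCurve Filter Topology

namespace Pool.Agent.Y720.MZ

section cont

variable {K : Type*} [Field K] [CharZero K] [DecidableEq K] {L : Type*}
  [NontriviallyNormedField L] [DecidableEq L]

/-- **Continuity of the multiples**, as long as they are not zero. -/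
theorem cont_multN {Θ : Type*} {l : Filter Θ} (σ : K →+* L) {a b c x y : Θ → K}
    {a₀ b₀ c₀ x₀ y₀ : L} (ha : Tendsto (fun θ => σ (a θ)) l (𝓝 a₀))
    (hb : Tendsto (fun θ => σ (b θ)) l (𝓝 b₀)) (hc : Tendsto (fun θ => σ (c θ)) l (𝓝 c₀))
    (hx : Tendsto (fun θ => σ (x θ)) l (𝓝 x₀)) (hy : Tendsto (fun θ => σ (y θ)) l (𝓝 y₀))
    (h₀ : (cv a₀ b₀ c₀).toAffine.Nonsingular x₀ y₀) (m : ℕ)
    (hinf : ∀ n : ℕ, n ≤ m + 1 → n ≠ 0 → n • (.some x₀ y₀ h₀ : Pt a₀ b₀ c₀) ≠ 0) :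
    ∃ (X Y : Θ → K) (X₀ Y₀ : L), (∃ h', (m + 1) • (.some x₀ y₀ h₀ : Pt a₀ b₀ c₀) = .some X₀ Y₀ h') ∧
      (∀ᶠ θ in l, ∀ h : (cv (a θ) (b θ) (c θ)).toAffine.Nonsingular (x θ) (y θ), ∃ h',
        (m + 1) • (.some (x θ) (y θ) h : Pt (a θ) (b θ) (c θ)) = .some (X θ) (Y θ) h') ∧
      Tendsto (fun θ => σ (X θ)) l (𝓝 X₀) ∧ Tendsto (fun θ => σ (Y θ)) l (𝓝 Y₀) := by
  have : CharZero L := charZero_of_injective_ringHom σ.injective
  induction m with
  | zero =>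
    refine ⟨x, y, x₀, y₀, ⟨h₀, by rw [zero_add, one_smul]⟩,
      Eventually.of_forall fun θ h => ⟨h, by rw [zero_add, one_smul]⟩, hx, hy⟩
  | succ m ih =>
    obtain ⟨X, Y, X₀, Y₀, ⟨h', he⟩, hev, hX, hY⟩ := ih fun n h1 h2 => hinf n (by omega) h2
    by_cases hxx : X₀ = x₀
    · -- doubling
      subst hxx
      have hm : m = 0 := by
        rcases eq_or_neg h' h₀ with e | e
        · by_contra hm
          apply hinf m (by omega) hm
          have : (m + 1) • (.some X₀ y₀ h₀ : Pt a₀ b₀ c₀) = .some X₀ y₀ h₀ := he.trans e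
          rw [succ_nsmul] at this
          exact add_eq_right.1 this
        · exfalso
          apply hinf (m + 2) (by omega) (by omega)
          have : (m + 1) • (.some X₀ y₀ h₀ : Pt a₀ b₀ c₀) = -.some X₀ y₀ h₀ := he.trans e
          rw [succ_nsmul, this, neg_add_cancel]
      subst hm
      have hy0 : 2 * y₀ ≠ 0 := by
        intro h0
        apply hinf 2 (by omega) two_ne_zero
        rw [two_nsmul, dbl_zero h₀ h0]
      obtain ⟨h2, e2⟩ := dbl_mk h₀ hy0 (ℓ := (3 * X₀ ^ 2 + 2 * a₀ * X₀ + b₀) / (2 * y₀))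
        (div_mul_cancel₀ _ hy0)
      set ℓ : Θ → K := fun θ => (3 * x θ ^ 2 + 2 * a θ * x θ + b θ) / (2 * y θ) with hℓ
      set ℓ₀ := (3 * X₀ ^ 2 + 2 * a₀ * X₀ + b₀) / (2 * y₀) with hℓ₀
      have hℓt : Tendsto (fun θ => σ (ℓ θ)) l (𝓝 ℓ₀) := by
        simp only [hℓ, hℓ₀, map_div₀, map_add, map_mul, map_pow, map_ofNat]
        exact ((((hx.pow 2).const_mul _).add ((ha.const_mul _).mul hx)).add hb).div
          (hy.const_mul _) hy0
      have hyev : ∀ᶠ θ in l, 2 * y θ ≠ 0 := by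
        have h1 : ∀ᶠ θ in l, 2 * σ (y θ) ≠ 0 := (hy.const_mul 2).eventually_ne hy0
        filter_upwards [h1] with θ h h0
        apply h
        have := congrArg σ h0
        rwa [map_mul, map_ofNat, map_zero] at this
      have hX2 : Tendsto (fun θ => σ (ℓ θ ^ 2 - a θ - x θ - x θ)) l
          (𝓝 (ℓ₀ ^ 2 - a₀ - X₀ - X₀)) := by
        simp only [map_sub, map_pow]
        exact (((hℓt.pow 2).sub ha).sub hx).sub hx
      refine ⟨fun θ => ℓ θ ^ 2 - a θ - x θ - x θ,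
        fun θ => -(ℓ θ * (ℓ θ ^ 2 - a θ - x θ - x θ - x θ) + y θ), _, _, ⟨h2, ?_⟩, ?_, hX2, ?_⟩
      · change (2 : ℕ) • _ = _
        rw [two_nsmul]; exact e2
      · filter_upwards [hyev] with θ hyθ h
        obtain ⟨h3, e3⟩ := dbl_mk h hyθ (ℓ := ℓ θ) (div_mul_cancel₀ _ hyθ)
        refine ⟨h3, ?_⟩
        change (2 : ℕ) • _ = _
        rw [two_nsmul]; exact e3
      · simp only [map_neg, map_add, map_mul, map_sub, map_pow] at hX2 ⊢
        exact ((hℓt.mul (hX2.sub hx)).add hy).neg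
    · -- chord
      have hx0 : X₀ - x₀ ≠ 0 := sub_ne_zero.2 hxx
      obtain ⟨h2, e2⟩ := add_mk h' h₀ hxx (ℓ := (Y₀ - y₀) / (X₀ - x₀)) (div_mul_cancel₀ _ hx0)
      set ℓ : Θ → K := fun θ => (Y θ - y θ) / (X θ - x θ) with hℓ
      set ℓ₀ := (Y₀ - y₀) / (X₀ - x₀) with hℓ₀
      have hℓt : Tendsto (fun θ => σ (ℓ θ)) l (𝓝 ℓ₀) := by
        simp only [hℓ, hℓ₀, map_div₀, map_sub]
        exact (hY.sub hy).div (hX.sub hx) hx0
      have hxev : ∀ᶠ θ in l, X θ ≠ x θ := by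
        have h1 : ∀ᶠ θ in l, σ (X θ) - σ (x θ) ≠ 0 := (hX.sub hx).eventually_ne hx0
        filter_upwards [h1] with θ h h0
        apply h
        rw [h0, sub_self]
      have hX2 : Tendsto (fun θ => σ (ℓ θ ^ 2 - a θ - X θ - x θ)) l
          (𝓝 (ℓ₀ ^ 2 - a₀ - X₀ - x₀)) := by
        simp only [map_sub, map_pow]
        exact (((hℓt.pow 2).sub ha).sub hX).sub hx
      refine ⟨fun θ => ℓ θ ^ 2 - a θ - X θ - x θ,
        fun θ => -(ℓ θ * (ℓ θ ^ 2 - a θ - X θ - x θ - X θ) + Y θ), _, _, ⟨h2, ?_⟩, ?_, hX2, ?_⟩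
      · rw [succ_nsmul, he]; exact e2
      · filter_upwards [hxev, hev] with θ hxθ h1 h
        obtain ⟨h1', e1⟩ := h1 h
        obtain ⟨h3, e3⟩ := add_mk h1' h hxθ (ℓ := ℓ θ) (div_mul_cancel₀ _ (sub_ne_zero.2 hxθ))
        exact ⟨h3, by rw [succ_nsmul, e1]; exact e3⟩
      · simp only [map_neg, map_add, map_mul, map_sub, map_pow] at hX2 ⊢
        exact ((hℓt.mul (hX2.sub hX)).add hY).neg

/-- a quotient of functions tending to something nonzero and to zero is large -/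
lemma big_quot {Θ : Type*} {l : Filter Θ} {f g : Θ → L} {f₀ : L} (hf : Tendsto f l (𝓝 f₀))
    (hf₀ : f₀ ≠ 0) (hg : Tendsto g l (𝓝 0)) {z : Θ → L} {z₀ : L} (hz : Tendsto z l (𝓝 z₀)) (R : ℝ) :
    ∀ᶠ θ in l, g θ ≠ 0 → R < ‖(f θ / g θ) ^ 2 - z θ‖ := by
  have hn : 0 < ‖f₀‖ := norm_pos_iff.2 hf₀
  set M := |R| + ‖z₀‖ + 2 with hM
  have hM0 : 0 < M := by
    have := abs_nonneg R
    have := norm_nonneg z₀
    linarith
  have h1 : ∀ᶠ θ in l, ‖f₀‖ / 2 < ‖f θ‖ := hf.norm.eventually_const_lt (by linarith)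
  have h2 : ∀ᶠ θ in l, ‖g θ‖ < ‖f₀‖ / 2 / M := by
    have := hg.norm
    rw [norm_zero] at this
    exact this.eventually_lt_const (by positivity)
  have h3 : ∀ᶠ θ in l, ‖z θ‖ < ‖z₀‖ + 1 := hz.norm.eventually_lt_const (by linarith)
  filter_upwards [h1, h2, h3] with θ k1 k2 k3 hg0
  have hgn : 0 < ‖g θ‖ := norm_pos_iff.2 hg0
  have k4 : M < ‖f θ / g θ‖ := by
    rw [norm_div, lt_div_iff₀ hgn]
    rw [lt_div_iff₀ hM0] at k2
    nlinarith
  have k5 : M < ‖(f θ / g θ) ^ 2‖ := by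
    rw [norm_pow]
    have hM1 : 1 ≤ M := by
      have := abs_nonneg R
      have := norm_nonneg z₀
      linarith
    nlinarith
  have k6 := norm_sub_norm_le ((f θ / g θ) ^ 2) (z θ)
  have k7 := le_abs_self R
  linarith

/-- **The multiple by the order is close to the origin.** -/
theorem cont_ord {Θ : Type*} {l : Filter Θ} (σ : K →+* L) {a b c x y : Θ → K}
    {a₀ b₀ c₀ x₀ y₀ : L} (ha : Tendsto (fun θ => σ (a θ)) l (𝓝 a₀))
    (hb : Tendsto (fun θ => σ (b θ)) l (𝓝 b₀)) (hc : Tendsto (fun θ => σ (c θ)) l (𝓝 c₀))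
    (hx : Tendsto (fun θ => σ (x θ)) l (𝓝 x₀)) (hy : Tendsto (fun θ => σ (y θ)) l (𝓝 y₀))
    (h₀ : (cv a₀ b₀ c₀).toAffine.Nonsingular x₀ y₀) (m : ℕ)
    (hinf : ∀ n : ℕ, n ≤ m + 1 → n ≠ 0 → n • (.some x₀ y₀ h₀ : Pt a₀ b₀ c₀) ≠ 0)
    (hord : (m + 2) • (.some x₀ y₀ h₀ : Pt a₀ b₀ c₀) = 0) (R : ℝ) :
    ∀ᶠ θ in l, ∀ h : (cv (a θ) (b θ) (c θ)).toAffine.Nonsingular (x θ) (y θ),
      (m + 2) • (.some (x θ) (y θ) h : Pt (a θ) (b θ) (c θ)) = 0 ∨
      ∃ X Y h', (m + 2) • (.some (x θ) (y θ) h : Pt (a θ) (b θ) (c θ)) = .some X Y h' ∧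
        R < ‖σ X‖ := by
  have hcz : CharZero L := charZero_of_injective_ringHom σ.injective
  obtain ⟨X, Y, X₀, Y₀, ⟨h', he⟩, hev, hX, hY⟩ := cont_multN σ ha hb hc hx hy h₀ m hinf
  -- the multiple before the last one is the opposite
  have hneg : (.some X₀ Y₀ h' : Pt a₀ b₀ c₀) = -.some x₀ y₀ h₀ := by
    rw [← he, ← sub_eq_zero, sub_neg_eq_add, ← succ_nsmul]
    exact hord
  have hXY : X₀ = x₀ ∧ Y₀ = -y₀ := by
    have h1 : (-.some x₀ y₀ h₀ : Pt a₀ b₀ c₀) = _ := Affine.Point.neg_some h₀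
    rw [h1] at hneg
    have h2 := Affine.Point.some.inj hneg
    refine ⟨h2.1, ?_⟩
    rw [h2.2, cv_negY]
  obtain ⟨rfl, rfl⟩ := hXY
  by_cases hm : m = 0
  · subst hm
    have hy0 : y₀ = 0 := by
      by_contra hy0
      obtain ⟨h2, e2⟩ := dbl_mk h₀ (mul_ne_zero two_ne_zero hy0)
        (ℓ := (3 * X₀ ^ 2 + 2 * a₀ * X₀ + b₀) / (2 * y₀))
        (div_mul_cancel₀ _ (mul_ne_zero two_ne_zero hy0))
      have h3 : (2 : ℕ) • (.some X₀ y₀ h₀ : Pt a₀ b₀ c₀) = 0 := hord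
      rw [two_nsmul, e2] at h3
      exact Affine.Point.some_ne_zero _ h3
    subst hy0
    have hs : 3 * X₀ ^ 2 + 2 * a₀ * X₀ + b₀ ≠ 0 := by
      rcases (cv_ns.1 h₀).2 with h | h
      · exact h
      · simp at h
    have hnum : Tendsto (fun θ => 3 * σ (x θ) ^ 2 + 2 * σ (a θ) * σ (x θ) + σ (b θ)) l
        (𝓝 (3 * X₀ ^ 2 + 2 * a₀ * X₀ + b₀)) :=
      ((((hx.pow 2).const_mul _).add ((ha.const_mul _).mul hx)).add hb)
    have hden : Tendsto (fun θ => 2 * σ (y θ)) l (𝓝 0) := by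
      have := hy.const_mul 2
      rwa [mul_zero] at this
    have hz : Tendsto (fun θ => σ (a θ) + σ (x θ) + σ (x θ)) l (𝓝 (a₀ + X₀ + X₀)) :=
      (ha.add hx).add hx
    filter_upwards [big_quot hnum hs hden hz R] with θ hθ h
    by_cases h0 : 2 * y θ = 0
    · left
      change (2 : ℕ) • _ = _
      rw [two_nsmul]
      exact dbl_zero h h0
    · right
      obtain ⟨h3, e3⟩ := dbl_mk h h0 (ℓ := (3 * x θ ^ 2 + 2 * a θ * x θ + b θ) / (2 * y θ))
        (div_mul_cancel₀ _ h0)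
      refine ⟨_, _, h3, ?_, ?_⟩
      · change (2 : ℕ) • _ = _
        rw [two_nsmul]
        exact e3
      · have h4 := hθ (by
          intro h5
          apply h0
          apply σ.injective
          rw [map_mul, map_ofNat, map_zero]
          exact h5)
        convert h4 using 2
        simp only [map_sub, map_pow, map_div₀, map_add, map_mul, map_ofNat]
        ring
  · have hy0 : y₀ ≠ 0 := by
      rintro rfl
      apply hinf 2 (by omega) two_ne_zero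
      rw [two_nsmul, dbl_zero h₀ (by simp)]
    have hnum : Tendsto (fun θ => σ (Y θ) - σ (y θ)) l (𝓝 (-y₀ - y₀)) := hY.sub hy
    have hs : -y₀ - y₀ ≠ 0 := by
      intro h
      apply hy0
      have : 2 * y₀ = 0 := by linear_combination -h
      exact (mul_eq_zero.1 this).resolve_left two_ne_zero
    have hden : Tendsto (fun θ => σ (X θ) - σ (x θ)) l (𝓝 0) := by
      have := hX.sub hx
      rwa [sub_self] at this
    have hz : Tendsto (fun θ => σ (a θ) + σ (X θ) + σ (x θ)) l (𝓝 (a₀ + X₀ + X₀)) :=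
      (ha.add hX).add hx
    filter_upwards [big_quot hnum hs hden hz R, hev, hnum.eventually_ne hs] with θ hθ hev' hne h
    obtain ⟨h1', e1⟩ := hev' h
    by_cases h0 : X θ = x θ
    · left
      have h2 : (.some (X θ) (Y θ) h1' : Pt (a θ) (b θ) (c θ)) = -.some (x θ) (y θ) h := by
        have h6 : (.some (X θ) (Y θ) h1' : Pt (a θ) (b θ) (c θ)) = .some (x θ) (y θ) h ∨
            (.some (X θ) (Y θ) h1' : Pt (a θ) (b θ) (c θ)) = -.some (x θ) (y θ) h :=
          Affine.Point.X_eq_iff.1 h0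
        rcases h6 with e | e
        · exfalso
          apply hne
          have h7 := Affine.Point.some.inj e
          rw [h7.2, sub_self]
        · exact e
      rw [succ_nsmul, e1, h2, neg_add_cancel]
    · right
      have h0' := sub_ne_zero.2 h0
      obtain ⟨h3, e3⟩ := add_mk h1' h h0 (ℓ := (Y θ - y θ) / (X θ - x θ)) (div_mul_cancel₀ _ h0')
      refine ⟨_, _, h3, ?_, ?_⟩
      · rw [succ_nsmul, e1]; exact e3
      · have h4 := hθ (by
          intro h5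
          apply h0'
          apply σ.injective
          rw [map_sub, map_zero]
          exact h5)
        convert h4 using 2
        simp only [map_sub, map_pow, map_div₀]
        ring

end cont

section real

variable {K : Type*} [Field K] [CharZero K] [DecidableEq K] {l : Filter (K × (Fin 4 → K))}

/-- multiples which are close to the origin in the whole family, at a real place; the limit may be
a torsion point -/
lemma real_near [DecidableEq ℝ] {σ : K →+* ℝ} {θ₀ : ℝ × (Fin 4 → ℝ)} (hT : TnL σ l θ₀)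
    (hw : θ₀.1 ≠ 0) (hD : dsc (tA θ₀) (tB θ₀) (tC θ₀) ≠ 0)
    (N₀ : ℕ) (hN₀ : N₀ ≠ 0) :
    ∃ m : ℕ, m ≠ 0 ∧
    ∀ᶠ θ in l, ∀ h : (cv (tA θ) (tB θ) (tC θ)).toAffine.Nonsingular (tX θ) (tY θ),
      Nb (av σ) (1 / (100 * CL θ₀)) (1 / (100 * CL θ₀) / 3)
        ((m * N₀) • (.some _ _ h : Pt (tA θ) (tB θ) (tC θ))) := by
  have h₀ := tns hw hD
  have hB := Bd_baseL θ₀
  set ρ := 1 / (100 * CL θ₀) with hρ
  have hρ0 := hB.hρ
  by_cases hinf : ∀ n : ℕ, n ≠ 0 → n • (.some _ _ h₀ : Pt (tA θ₀) (tB θ₀) (tC θ₀)) ≠ 0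
  · obtain ⟨m, hm, hmN⟩ := accum_near (RingHom.id ℝ) hD hB
      (P := N₀ • (.some _ _ h₀ : Pt (tA θ₀) (tB θ₀) (tC θ₀))) (fun n hn => by
        rw [← mul_smul]; exact hinf _ (mul_ne_zero hn hN₀)) (r := ρ / 6) (by positivity)
    refine ⟨m, hm, ev_rL hT hw h₀ hinf (mul_ne_zero hm hN₀) ?_⟩
    rw [mul_smul]
    exact hmN
  · classical
    push Not at hinf
    have hex : ∃ n : ℕ, n ≠ 0 ∧ n • (.some _ _ h₀ : Pt (tA θ₀) (tB θ₀) (tC θ₀)) = 0 := by
      obtain ⟨n, h1, h2⟩ := hinf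
      exact ⟨n, h1, h2⟩
    obtain ⟨hn0, hn1⟩ := Nat.find_spec hex
    set n := Nat.find hex with hn
    have hmin : ∀ k : ℕ, k < n → k ≠ 0 → k • (.some _ _ h₀ : Pt (tA θ₀) (tB θ₀) (tC θ₀)) ≠ 0 := by
      intro k hk hk0 h
      exact Nat.find_min hex hk ⟨hk0, h⟩
    have hn2 : 2 ≤ n := by
      by_contra hlt
      have : n = 1 := by omega
      rw [this, one_smul] at hn1
      exact Affine.Point.some_ne_zero _ hn1
    obtain ⟨m, hm⟩ : ∃ m, n = m + 2 := ⟨n - 2, by omega⟩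
    rw [hm] at hn1 hmin
    -- the radius
    set δ := ρ / (6 * (N₀ + 1)) with hδ
    have hδ0 : 0 < δ := by positivity
    have hδ1 : 2 * N₀ * δ ≤ ρ / 3 := by
      rw [hδ]
      have : 2 * (N₀ : ℝ) * (ρ / (6 * (N₀ + 1))) = ρ / 3 * (N₀ / (N₀ + 1)) := by field_simp; ring
      rw [this]
      have h1 : (N₀ : ℝ) / (N₀ + 1) ≤ 1 := by
        rw [div_le_one (by positivity)]; linarith
      nlinarith
    have hδ2 : δ ≤ ρ := by
      rw [hδ, div_le_iff₀ (by positivity)]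
      have : (0 : ℝ) ≤ N₀ := Nat.cast_nonneg _
      nlinarith
    have hev := cont_ord σ hT.tA hT.tB hT.tC (hT.tX hw) (hT.tY hw) h₀ m
      (fun k hk hk0 => hmin k (by omega) hk0) hn1
      (max (6 * CL θ₀) (max (2 / δ ^ 2) (2 / ρ ^ 2)))
    refine ⟨m + 2, by omega, ?_⟩
    filter_upwards [hev, hT.Bd] with θ h1 hBθ h
    have hQ : Nb (av σ) ρ δ ((m + 2) • (.some _ _ h : Pt (tA θ) (tB θ) (tC θ))) := by
      rcases h1 h with h2 | ⟨X, Y, h', h2, h3⟩
      · rw [h2]; exact Nb_zero hδ0.le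
      · rw [h2, Nb_some]
        exact big_x' hBθ hδ0 X Y (cv_ns.1 h').1 h3
    have h5 := R3 hBθ hQ N₀ (by linarith) hδ2 N₀ le_rfl
    rw [mul_comm, mul_smul]
    exact h5.mono (h5.le.trans hδ1)

end real

end Pool.Agent.Y720.MZ
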